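import Pool.Agent.Helper92.FL.Min

/-!
Fixed points of compact groups.
-/

open Matrix NormedSpace Filter Topology MeasureTheory
open scoped ComplexConjugate ComplexOrder

set_option linter.unusedSectionVars false

namespace Pool.Agent.Helper92.FL

variable {n : ℕ} {Gr : Grp n} {H : Type} [Group H] [TopologicalSpace H] [IsTopologicalGroup H]
  [CompactSpace H] [MeasurableSpace H] [BorelSpace H]

/-- the Haar probability measure -/
noncomputable def haarP (H : Type) [Group H] [TopologicalSpace H] [IsTopologicalGroup H]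
    [CompactSpace H] [MeasurableSpace H] [BorelSpace H] : Measure H :=
  Measure.haarMeasure (⊤ : TopologicalSpace.PositiveCompacts H)

instance : (haarP H).IsMulLeftInvariant := by unfold haarP; infer_instance

instance : IsProbabilityMeasure (haarP H) where
  measure_univ := by
    have := Measure.haarMeasure_self (K₀ := (⊤ : TopologicalSpace.PositiveCompacts H))
    simpa [haarP] using this

lemma integrable_cont {f : H → ℂ} (hf : Continuous f) : Integrable f (haarP H) := by
  exact hf.integrable_of_hasCompactSupport (HasCompactSupport.of_compactSpace f)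

/-- the average -/
noncomputable def avg (F : H → M n) : M n := Matrix.of fun i j => ∫ k, F k i j ∂(haarP H)

lemma avg_mul_left (F : H → M n) (b : H) : avg (fun k => F (b * k)) = avg F := by
  ext i j
  show ∫ k, F (b * k) i j ∂(haarP H) = ∫ k, F k i j ∂(haarP H)
  exact integral_mul_left_eq_self (fun k => F k i j) b

lemma avg_conj {F : H → M n} (hF : Continuous F) (A B : M n) :
    A * avg F * B = avg fun k => A * F k * B := by
  have hint : ∀ i j, Integrable (fun k => F k i j) (haarP H) := fun i j =>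
    integrable_cont ((continuous_id.matrix_elem i j).comp hF)
  ext i j
  show (A * avg F * B) i j = ∫ k, (A * F k * B) i j ∂(haarP H)
  have h1 : ∀ k, (A * F k * B) i j = ∑ l, ∑ p, A i p * F k p l * B l j := by
    intro k
    rw [mul_apply]
    refine Finset.sum_congr rfl fun l _ => ?_
    rw [mul_apply, Finset.sum_mul]
  have h2 : (A * avg F * B) i j = ∑ l, ∑ p, A i p * (∫ k, F k p l ∂(haarP H)) * B l j := by
    rw [mul_apply]
    refine Finset.sum_congr rfl fun l _ => ?_
    rw [mul_apply, Finset.sum_mul]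
    rfl
  simp only [h1]
  rw [h2, integral_finsetSum]
  · refine Finset.sum_congr rfl fun l _ => ?_
    rw [integral_finsetSum]
    · refine Finset.sum_congr rfl fun p _ => ?_
      rw [integral_mul_const, integral_const_mul]
    · intro p _
      exact ((hint p l).const_mul _).mul_const _
  · intro l _
    exact integrable_finsetSum _ fun p _ => ((hint p l).const_mul _).mul_const _

lemma avg_re {F : H → M n} (hF : Continuous F) (i : Fin n) :
    ((avg F) i i).re = ∫ k, (F k i i).re ∂(haarP H) := by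
  show (∫ k, F k i i ∂(haarP H)).re = _
  have h1 : Integrable (fun k => F k i i) (haarP H) :=
    integrable_cont ((continuous_id.matrix_elem i i).comp hF)
  exact (integral_re h1).symm

lemma Big_avg {F : H → M n} (hF : Continuous F) {C : ℝ}
    (h : ∀ k (W : M n) (i : Fin n), ∑ j, ‖W j i‖ ^ 2 ≤ C * ((Wᴴ * F k * W) i i).re) :
    Big ((C : ℂ) • avg F) := by
  intro W i
  rw [Matrix.mul_smul, Matrix.smul_mul, Matrix.smul_apply, smul_eq_mul, Complex.re_ofReal_mul,
    avg_conj hF]
  have hc : Continuous fun k => Wᴴ * F k * W :=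
    (continuous_const.matrix_mul hF).matrix_mul continuous_const
  rw [avg_re hc, ← integral_const_mul]
  have h1 : ∫ _k : H, ∑ j, ‖W j i‖ ^ 2 ∂(haarP H) = ∑ j, ‖W j i‖ ^ 2 := by
    rw [integral_const]
    simp
  rw [← h1]
  apply integral_mono
  · exact integrable_const _
  · have h2 : Integrable (fun k => (Wᴴ * F k * W) i i) (haarP H) :=
      integrable_cont ((continuous_id.matrix_elem i i).comp hc)
    exact h2.re.const_mul C
  · intro k
    exact h k W i

lemma col_mul_le (A W : M n) (i : Fin n) :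
    ∑ j, ‖(A * W) j i‖ ^ 2 ≤ nr A * ∑ l, ‖W l i‖ ^ 2 := by
  unfold nr
  rw [Finset.sum_mul]
  refine Finset.sum_le_sum fun j _ => ?_
  rw [mul_apply]
  calc ‖∑ l, A j l * W l i‖ ^ 2 ≤ (∑ l, ‖A j l‖ * ‖W l i‖) ^ 2 := by
        apply pow_le_pow_left₀ (norm_nonneg _)
        refine (norm_sum_le _ _).trans ?_
        exact Finset.sum_le_sum fun l _ => (norm_mul _ _).le
    _ ≤ _ := Finset.sum_mul_sq_le_sq_mul_sq _ _ _

lemma nr_star (A : M n) : nr Aᴴ = nr A := by
  unfold nr
  rw [Finset.sum_comm]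
  refine Finset.sum_congr rfl fun j _ => Finset.sum_congr rfl fun l _ => ?_
  rw [conjTranspose_apply, Complex.star_def, Complex.norm_conj]

lemma nr_cont : Continuous (nr : M n → ℝ) := by
  unfold nr
  refine continuous_finsetSum _ fun j _ => continuous_finsetSum _ fun l _ => ?_
  exact ((continuous_id.matrix_elem j l).norm).pow 2

lemma big_term {A B : M n} (hBA : B * A = 1) {C : ℝ} (hC : nr B ≤ C) (W : M n) (i : Fin n) :
    ∑ j, ‖W j i‖ ^ 2 ≤ C * ((Wᴴ * (A * Aᴴ) * W) i i).re := by
  have h1 : Wᴴ * (A * Aᴴ) * W = (Aᴴ * W)ᴴ * (Aᴴ * W) := by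
    rw [conjTranspose_mul, conjTranspose_conjTranspose]
    simp only [Matrix.mul_assoc]
  rw [h1, col_sum]
  have hAB : Bᴴ * Aᴴ = 1 := by
    rw [← conjTranspose_mul, mul_eq_one_comm.1 hBA, conjTranspose_one]
  have h2 : W = Bᴴ * (Aᴴ * W) := by rw [← Matrix.mul_assoc, hAB, Matrix.one_mul]
  conv_lhs => rw [h2]
  refine (col_mul_le _ _ i).trans ?_
  rw [nr_star]
  exact mul_le_mul_of_nonneg_right hC (by positivity)

/-- Cartan's fixed point theorem -/
theorem cartan (ρ : H →* M n) (hρ : Continuous ρ) (hS : ∀ k, ρ k ∈ Gr.S) :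
    ∃ Y ∈ Gr.p, ∀ k, ρ k * exp Y * (ρ k)ᴴ = exp Y := by
  obtain ⟨k₀, -, hk₀⟩ := isCompact_univ.exists_isMaxOn (Set.univ_nonempty (α := H))
    ((nr_cont (n := n)).comp hρ).continuousOn
  have hC : ∀ k, nr (ρ k) ≤ nr (ρ k₀) := fun k => hk₀ (Set.mem_univ k)
  set C := nr (ρ k₀) with hCd
  have hmi : ∀ k, ρ k⁻¹ * ρ k = 1 := fun k => by rw [← map_mul, inv_mul_cancel, map_one]
  have him : ∀ k, ρ k * ρ k⁻¹ = 1 := fun k => by rw [← map_mul, mul_inv_cancel, map_one]
  have hst : Continuous fun A : M n => Aᴴ := continuous_id.matrix_conjTranspose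
  have hF : Continuous fun k => ρ k * (ρ k)ᴴ := hρ.matrix_mul (hst.comp hρ)
  have hρi : Continuous fun k => ρ k⁻¹ := hρ.comp continuous_inv
  have hF' : Continuous fun k => (ρ k⁻¹)ᴴ * ρ k⁻¹ := (hst.comp hρi).matrix_mul hρi
  have hP : Big ((C : ℂ) • avg fun k => ρ k * (ρ k)ᴴ) :=
    Big_avg hF fun k W i => big_term (hmi k) (hC _) W i
  have hQ : Big ((C : ℂ) • avg fun k => (ρ k⁻¹)ᴴ * ρ k⁻¹) :=
    Big_avg hF' fun k W i => by
      have h1 : (ρ k)ᴴ * (ρ k⁻¹)ᴴ = 1 := by rw [← conjTranspose_mul, hmi, conjTranspose_one]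
      have := big_term h1 (C := C) (by rw [nr_star]; exact hC k) W i
      rwa [conjTranspose_conjTranspose] at this
  refine ⟨argmin Gr ((C : ℂ) • avg fun k => ρ k * (ρ k)ᴴ)
    ((C : ℂ) • avg fun k => (ρ k⁻¹)ᴴ * ρ k⁻¹), (argmin_spec hP hQ).1, fun b => ?_⟩
  have hinv : (ρ b)⁻¹ = ρ b⁻¹ := inv_eq_right_inv (him b)
  apply argmin_fixed hP hQ (hS b)
  · rw [Matrix.mul_smul, Matrix.smul_mul, hinv, avg_conj hF]
    congr 1
    rw [← avg_mul_left (fun k => ρ k * (ρ k)ᴴ) b⁻¹]
    congr 1
    funext k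
    rw [map_mul, conjTranspose_mul]
    simp only [Matrix.mul_assoc]
  · rw [Matrix.mul_smul, Matrix.smul_mul, avg_conj hF']
    congr 1
    rw [← avg_mul_left (fun k => (ρ k⁻¹)ᴴ * ρ k⁻¹) b⁻¹]
    congr 1
    funext k
    rw [_root_.mul_inv_rev, inv_inv, map_mul, conjTranspose_mul]
    simp only [Matrix.mul_assoc]

end Pool.Agent.Helper92.FL
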