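import Pool.Agent.Helper9.FL.Stm

/-! Package CHEB (project FL of helper9): convexity. -/

set_option autoImplicit false

namespace Pool.Agent.Helper92.FL

open Pool.Agent.Helper9.FL

theorem cheb : S_CHEB := by
  intro r l hl k hk hk0 hkr m hm
  obtain ⟨ms, hms⟩ : ∃ ms : ℕ → ℝ, ms = fun c => if h : c < r then m ⟨c, h⟩ else 0 := ⟨_, rfl⟩
  have hms1 : ∀ c : Fin r, m c = ms c := by
    intro c
    rw [hms]
    simp only [c.2, dif_pos]
  have hmono : ∀ a b : ℕ, a ≤ b → b < r → ms a ≤ ms b := by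
    intro a b hab hb
    rw [← hms1 ⟨a, hab.trans_lt hb⟩, ← hms1 ⟨b, hb⟩]
    exact hm hab
  obtain ⟨S, hS⟩ : ∃ S : ℕ → ℝ, S = fun x => ∑ c ∈ Finset.range x, ms c := ⟨_, rfl⟩
  have hS0 : S 0 = 0 := by rw [hS]; simp
  have hSf : ∀ x, x ≤ r → ∑ c ∈ Finset.univ.filter (fun c : Fin r => (c : ℕ) < x), m c = S x := by
    intro x hx
    rw [Finset.sum_filter]
    have e1 : (∑ c : Fin r, if (c : ℕ) < x then m c else 0) =
        ∑ c : Fin r, (fun i : ℕ => if i < x then ms i else 0) c :=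
      Finset.sum_congr rfl fun c _ => by simp only [hms1 c]
    rw [e1, Fin.sum_univ_eq_sum_range (fun i : ℕ => if i < x then ms i else 0) r,
      ← Finset.sum_filter, hS]
    refine Finset.sum_congr ?_ fun _ _ => rfl
    ext i
    simp only [Finset.mem_filter, Finset.mem_range]
    omega
  have hSr : ∑ c, m c = S r := by
    rw [hS]
    simp only
    rw [← Fin.sum_univ_eq_sum_range ms r]
    exact Finset.sum_congr rfl fun c _ => hms1 c
  have key : ∀ x y : ℕ, x ≤ y → y ≤ r → (y : ℝ) * S x ≤ x * S y := by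
    intro x y hxy hy
    rcases hxy.eq_or_lt with rfl | hlt
    · exact le_rfl
    have hxr : x < r := hlt.trans_le hy
    have h1 : S x ≤ x * ms x := by
      rw [hS]
      have := Finset.sum_le_card_nsmul (Finset.range x) ms (ms x) fun c hc =>
        hmono c x (Finset.mem_range.1 hc).le hxr
      rw [Finset.card_range, nsmul_eq_mul] at this
      exact this
    have h2 : S x + (y - x) * ms x ≤ S y := by
      rw [hS]
      simp only
      rw [← Finset.sum_range_add_sum_Ico ms hlt.le]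
      have := Finset.card_nsmul_le_sum (Finset.Ico x y) ms (ms x) fun c hc =>
        hmono x c (Finset.mem_Ico.1 hc).1 ((Finset.mem_Ico.1 hc).2.trans_le hy)
      rw [Nat.card_Ico, nsmul_eq_mul, Nat.cast_sub hlt.le] at this
      linarith
    have hx0 : (0 : ℝ) ≤ x := Nat.cast_nonneg x
    have hyx : (0 : ℝ) ≤ (y : ℝ) - x := by
      have : (x : ℝ) ≤ y := by exact_mod_cast hlt.le
      linarith
    nlinarith [mul_le_mul_of_nonneg_left h2 hx0, mul_le_mul_of_nonneg_left h1 hyx]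
  obtain ⟨X, hX⟩ : ∃ X : ℕ → ℕ, X = fun i => if i = 0 then 0 else
    if h : i - 1 < l then k ⟨i - 1, h⟩ else r := ⟨_, rfl⟩
  have X0 : X 0 = 0 := by rw [hX]; simp
  have X1 : ∀ j : Fin l, X (j + 1) = k j := by
    intro j
    rw [hX]
    simp
  have Xl : X l = k ⟨l - 1, by omega⟩ := by
    have := X1 ⟨l - 1, by omega⟩
    simp only at this
    rwa [Nat.sub_add_cancel hl] at this
  have Xr : X (l + 1) = r := by
    rw [hX]
    simp
  have Xn : ∀ j : Fin l, nx k r j = X (j + 2) := by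
    intro j
    rw [hX]
    unfold nx
    simp
  have Xp : ∀ j : Fin l, pv k j = X j := by
    intro j
    rw [hX]
    unfold pv
    by_cases h : (j : ℕ) = 0
    · simp [h]
    · have : (j : ℕ) - 1 < l := (Nat.sub_le _ _).trans_lt j.2
      simp [h, this]
  have Xle : ∀ j : Fin l, X (j + 1) ≤ X (j + 2) ∧ X (j + 2) ≤ r := by
    intro j
    rw [X1, ← Xn]
    unfold nx
    split_ifs with h
    · exact ⟨(hk (show j < (⟨(j : ℕ) + 1, h⟩ : Fin l) from Nat.lt_succ_self _)).le, (hkr _).le⟩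
    · exact ⟨(hkr _).le, le_rfl⟩
  have hsum : ∑ j : Fin l, (fun i : ℕ => ((X (i + 1) : ℝ) * S (X (i + 1 + 1)) - (X i : ℝ) * S (X (i + 1)))) j =
      k ⟨l - 1, by omega⟩ * ∑ c, m c := by
    rw [Fin.sum_univ_eq_sum_range (fun i : ℕ => ((X (i + 1) : ℝ) * S (X (i + 1 + 1))
      - (X i : ℝ) * S (X (i + 1)))) l,
      Finset.sum_range_sub (fun i : ℕ => (X i : ℝ) * S (X (i + 1))) l, X0, Xl, Xr, hSr]
    simp
  rw [← hsum]
  refine Finset.sum_le_sum fun j _ => ?_
  rw [hSf (k j) (hkr j).le, Xn, Xp, ← X1]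
  have := key _ _ (Xle j).1 (Xle j).2
  simp only
  have e : (j : ℕ) + 1 + 1 = j + 2 := rfl
  rw [e]
  linarith

end Pool.Agent.Helper92.FL
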