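import Pool.Agent.Helper92.FL.Grp

/-!
The minimum of `tr (e⁻ʸ P) + tr (eʸ Q)` over `p`.
-/

open Matrix NormedSpace Filter Topology
open scoped ComplexConjugate ComplexOrder

set_option linter.unusedSectionVars false

namespace Pool.Agent.Helper92.FL

variable {n : ℕ} {G : Grp n} {β : Type*}

/-- the functional, for a Hermitian matrix `Y` -/
noncomputable def Fn (P Q Y : M n) : ℝ := (trace ((exp Y)⁻¹ * P)).re + (trace (exp Y * Q)).re

/-- `P` is at least the identity, as a Hermitian form -/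
def Big (P : M n) : Prop := ∀ (W : M n) (i : Fin n), ∑ j, ‖W j i‖ ^ 2 ≤ ((Wᴴ * P * W) i i).re

lemma col_sum (W : M n) (i : Fin n) : ((Wᴴ * W) i i).re = ∑ j, ‖W j i‖ ^ 2 := by
  rw [mul_apply, Complex.re_sum]
  refine Finset.sum_congr rfl fun j _ => ?_
  rw [conjTranspose_apply, Complex.star_def, ← Complex.normSq_eq_conj_mul_self,
    Complex.ofReal_re, Complex.normSq_eq_norm_sq]

lemma Big.uni {P : M n} (hP : Big P) {U : M n} (hU : Uni U) (i : Fin n) :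
    1 ≤ ((Uᴴ * P * U) i i).re := by
  refine le_trans ?_ (hP U i)
  rw [← col_sum, hU.left, Matrix.one_apply_eq, Complex.one_re]

lemma Big.pos {P : M n} (hP : Big P) {W : M n} (hW : IsUnit W.det) (i : Fin n) :
    0 < ((Wᴴ * P * W) i i).re := by
  refine lt_of_lt_of_le ?_ (hP W i)
  have h0 : 0 ≤ ∑ j, ‖W j i‖ ^ 2 := by positivity
  rcases h0.lt_or_eq with h | h
  · exact h
  · exfalso
    have h1 : ∀ j, W j i = 0 := by
      intro j
      have h2 := (Finset.sum_eq_zero_iff_of_nonneg (fun j _ => by positivity)).1 h.symm j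
        (Finset.mem_univ j)
      have h3 : ‖W j i‖ = 0 := by simpa using h2
      exact norm_eq_zero.1 h3
    have h2 : (W⁻¹ * W) i i = 0 := by
      rw [mul_apply]
      simp [h1]
    rw [Matrix.nonsing_inv_mul _ hW, Matrix.one_apply_eq] at h2
    exact one_ne_zero h2

lemma trace_rep_mul {U : M n} (x : Fin n → ℝ) (P : M n) :
    (trace (U * dg x * Uᴴ * P)).re = ∑ i, x i * ((Uᴴ * P * U) i i).re := by
  have h1 : trace (U * dg x * Uᴴ * P) = trace (dg x * (Uᴴ * P * U)) := by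
    have h2 : U * dg x * Uᴴ * P = U * (dg x * (Uᴴ * P)) := by simp only [Matrix.mul_assoc]
    rw [h2, trace_mul_comm]
    simp only [Matrix.mul_assoc]
  rw [h1, trace, Complex.re_sum]
  refine Finset.sum_congr rfl fun i _ => ?_
  rw [diag_apply]
  unfold dg
  rw [diagonal_mul, Complex.re_ofReal_mul]

lemma Fn_rep {U : M n} (hU : Uni U) (x : Fin n → ℝ) (P Q : M n) :
    Fn P Q (U * dg x * Uᴴ) = ∑ i, (Real.exp (-x i) * ((Uᴴ * P * U) i i).re +
      Real.exp (x i) * ((Uᴴ * Q * U) i i).re) := by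
  unfold Fn
  rw [exp_rep_inv hU, exp_rep_real hU, trace_rep_mul, trace_rep_mul,
    ← Finset.sum_add_distrib]

/-- coercivity -/
lemma nr_le_Fn {P Q Y : M n} (hP : Big P) (hQ : Big Q) (hY : Y.IsHermitian) :
    nr Y ≤ Fn P Q Y ^ 2 := by
  obtain ⟨U, x, hU, rfl⟩ := diag_rep hY
  rw [nr_rep hU, Fn_rep hU]
  have h1 : ∑ i, x i ^ 2 ≤ (∑ i, |x i|) ^ 2 := by
    rw [sq, Finset.sum_mul]
    refine Finset.sum_le_sum fun i _ => ?_
    rw [← sq_abs, sq]
    exact mul_le_mul_of_nonneg_left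
      (Finset.single_le_sum (f := fun i => |x i|) (fun _ _ => abs_nonneg _) (Finset.mem_univ i))
      (abs_nonneg _)
  refine h1.trans ?_
  apply pow_le_pow_left₀ (Finset.sum_nonneg fun _ _ => abs_nonneg _)
  refine Finset.sum_le_sum fun i _ => ?_
  have h2 := abs_le_exp (x i)
  have h3 := hP.uni hU i
  have h4 := hQ.uni hU i
  have h5 := Real.exp_pos (x i)
  have h6 := Real.exp_pos (-x i)
  nlinarith

lemma Fn_nonneg {P Q Y : M n} (hP : Big P) (hQ : Big Q) (hY : Y.IsHermitian) :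
    0 ≤ Fn P Q Y := by
  obtain ⟨U, x, hU, rfl⟩ := diag_rep hY
  rw [Fn_rep hU]
  refine Finset.sum_nonneg fun i _ => ?_
  have h3 := hP.uni hU i
  have h4 := hQ.uni hU i
  have h5 := Real.exp_pos (x i)
  have h6 := Real.exp_pos (-x i)
  positivity

lemma Fn_tendsto {F : Filter β} {P Q Y : β → M n} {P₀ Q₀ Y₀ : M n} (hP : Tendsto P F (𝓝 P₀))
    (hQ : Tendsto Q F (𝓝 Q₀)) (hY : Tendsto Y F (𝓝 Y₀)) :
    Tendsto (fun i => Fn (P i) (Q i) (Y i)) F (𝓝 (Fn P₀ Q₀ Y₀)) := by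
  have h1 := (exp_cont.tendsto Y₀).comp hY
  have h2 := inv_tendsto h1 (exp_det_unit Y₀)
  have h3 : Tendsto (fun i => (exp (Y i))⁻¹ * P i) F (𝓝 ((exp Y₀)⁻¹ * P₀)) := h2.mul hP
  have h4 : Tendsto (fun i => exp (Y i) * Q i) F (𝓝 (exp Y₀ * Q₀)) := h1.mul hQ
  exact ((trace_re_cont.tendsto _).comp h3).add ((trace_re_cont.tendsto _).comp h4)

lemma exists_argmin {P Q : M n} (hP : Big P) (hQ : Big Q) :
    ∃ Y ∈ G.p, ∀ Z ∈ G.p, Fn P Q Y ≤ Fn P Q Z := by
  have h0 : (0 : M n) ∈ G.p := ⟨isHermitian_zero, by rw [NormedSpace.exp_zero]; exact G.one⟩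
  have hc : IsCompact (G.p ∩ {Y | nr Y ≤ Fn P Q 0 ^ 2}) :=
    (isCompact_nr _).inter_left Grp.p_closed
  have hcont : ContinuousOn (fun Y => Fn P Q Y) (G.p ∩ {Y | nr Y ≤ Fn P Q 0 ^ 2}) :=
    fun Y _ => (Fn_tendsto tendsto_const_nhds tendsto_const_nhds tendsto_id).mono_left
      nhdsWithin_le_nhds
  obtain ⟨Y, hY, hmin⟩ := hc.exists_isMinOn ⟨0, h0, nr_le_Fn hP hQ h0.1⟩ hcont
  refine ⟨Y, hY.1, fun Z hZ => ?_⟩
  by_cases h : Fn P Q Z ≤ Fn P Q 0
  · refine hmin ⟨hZ, ?_⟩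
    exact (nr_le_Fn hP hQ hZ.1).trans (pow_le_pow_left₀ (Fn_nonneg hP hQ hZ.1) h 2)
  · push Not at h
    exact le_trans (hmin ⟨h0, nr_le_Fn hP hQ h0.1⟩) h.le

/-- positivity of the diagonal entries after a congruence -/
lemma exp_half_lt {z : ℝ} (hz : z ≠ 0) : Real.exp (z / 2) < (1 + Real.exp z) / 2 := by
  have h1 : Real.exp z = Real.exp (z / 2) ^ 2 := by
    rw [← Real.exp_nat_mul]; congr 1; push_cast; ring
  rw [h1]
  have h2 : Real.exp (z / 2) ≠ 1 := by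
    intro h
    exact hz (by linarith [(Real.exp_eq_one_iff _).1 h])
  have h3 : 0 < (Real.exp (z / 2) - 1) ^ 2 := by
    have : Real.exp (z / 2) - 1 ≠ 0 := sub_ne_zero.2 h2
    positivity
  nlinarith

/-- an element of `p` with a given exponential `gᴴ g` -/
lemma exists_p {g : M n} (hg : g ∈ G.S) : ∃ Y ∈ G.p, exp Y = gᴴ * g := by
  obtain ⟨Y, hY, hY'⟩ := exists_log (G.unit g hg)
  exact ⟨Y, ⟨hY, by rw [hY']; exact G.mul _ (G.star _ hg) _ hg⟩, hY'⟩

/-- the square root -/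
lemma exists_half {Y : M n} (hY : Y ∈ G.p) : ∃ h ∈ G.S, hᴴ = h ∧ h * h = exp Y := by
  have h2 := Grp.p_smul hY (1 / 2)
  refine ⟨exp (((1 / 2 : ℝ) : ℂ) • Y), h2.2, h2.1.exp.eq, ?_⟩
  rw [← Matrix.exp_add_of_commute _ _ (Commute.refl _), ← add_smul]
  congr 1
  push_cast
  norm_num

lemma trace_sandwich (h E Q : M n) : trace (h * E * h * Q) = trace (E * (h * Q * h)) := by
  have h1 : h * E * h * Q = h * (E * h * Q) := by simp only [Matrix.mul_assoc]
  rw [h1, trace_mul_comm]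
  simp only [Matrix.mul_assoc]

lemma argmin_unique_aux {P Q : M n} (hP : Big P) (hQ : Big Q) {Y₁ Y₂ : M n} (h₁ : Y₁ ∈ G.p)
    (h₂ : Y₂ ∈ G.p) (hm₁ : ∀ Z ∈ G.p, Fn P Q Y₁ ≤ Fn P Q Z) (hm₂ : ∀ Z ∈ G.p, Fn P Q Y₂ ≤ Fn P Q Z) :
    Y₁ = Y₂ := by
  obtain ⟨h, hh, hhs, hhh⟩ := exists_half h₁
  obtain ⟨r, hr, hrs, hrr⟩ := exists_half h₂
  have hu := G.unit h hh
  obtain ⟨Z, hZ, hZe⟩ := exists_p (G.mul _ hr _ (G.inv _ hh))
  have hZe' : h * exp Z * h = exp Y₂ := by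
    rw [hZe, conjTranspose_mul, conjTranspose_nonsing_inv, hhs, hrs, ← hrr]
    calc h * (h⁻¹ * r * (r * h⁻¹)) * h = (h * h⁻¹) * (r * r) * (h⁻¹ * h) := by
          simp only [Matrix.mul_assoc]
      _ = r * r := by
          rw [Matrix.mul_nonsing_inv _ hu, Matrix.nonsing_inv_mul _ hu, Matrix.one_mul,
            Matrix.mul_one]
  obtain ⟨U, z, hU, hz⟩ := diag_rep hZ.1
  set a : Fin n → ℝ := fun i => ((Uᴴ * (h⁻¹ * P * h⁻¹) * U) i i).re with ha
  set b : Fin n → ℝ := fun i => ((Uᴴ * (h * Q * h) * U) i i).re with hb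
  have hform : ∀ (t : ℝ) (Y : M n), exp Y = h * (U * dg (fun i => Real.exp (t * z i)) * Uᴴ) * h →
      Fn P Q Y = ∑ i, (Real.exp (-(t * z i)) * a i + Real.exp (t * z i) * b i) := by
    intro t Y hY
    have h1 : (exp Y)⁻¹ = h⁻¹ * (U * dg (fun i => Real.exp (-(t * z i))) * Uᴴ) * h⁻¹ := by
      rw [hY, Matrix.mul_inv_rev, Matrix.mul_inv_rev, ← exp_rep_real hU (fun i => t * z i),
        exp_rep_inv hU]
      simp only [Matrix.mul_assoc]
    unfold Fn
    rw [h1, hY, trace_sandwich, trace_sandwich, trace_rep_mul, trace_rep_mul,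
      ← Finset.sum_add_distrib]
  have hY1 : exp Y₁ = h * (U * dg (fun i => Real.exp (0 * z i)) * Uᴴ) * h := by
    simp only [zero_mul, Real.exp_zero]
    rw [rep_one hU, Matrix.mul_one, hhh]
  have hY2 : exp Y₂ = h * (U * dg (fun i => Real.exp (1 * z i)) * Uᴴ) * h := by
    simp only [one_mul]
    rw [← exp_rep_real hU, ← hz, hZe']
  -- the midpoint
  have hZ2 := Grp.p_smul hZ (1 / 4)
  obtain ⟨Y, hYp, hY⟩ := exists_p (G.mul _ hZ2.2 _ hh)
  have hYe : exp Y = h * (U * dg (fun i => Real.exp (1 / 2 * z i)) * Uᴴ) * h := by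
    rw [hY, conjTranspose_mul, hhs, hZ2.1.exp.eq]
    have h1 : exp (((1 / 4 : ℝ) : ℂ) • Z) * exp (((1 / 4 : ℝ) : ℂ) • Z) =
        U * dg (fun i => Real.exp (1 / 2 * z i)) * Uᴴ := by
      rw [← Matrix.exp_add_of_commute _ _ (Commute.refl _), ← add_smul, hz]
      have h2 : (((1 / 4 : ℝ) : ℂ) + ((1 / 4 : ℝ) : ℂ)) = ((1 / 2 : ℝ) : ℂ) := by
        push_cast; norm_num
      rw [h2, exp_smul_real_rep hU]
    rw [← h1]
    simp only [Matrix.mul_assoc]
  have e0 := hform 0 Y₁ hY1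
  have e1 := hform 1 Y₂ hY2
  have e2 := hform (1 / 2) Y hYe
  have hb0 : ∀ i, 0 < b i := by
    intro i
    have h1 := hQ.pos (W := h * U) (by rw [det_mul]; exact hu.mul (Grp.uni_det hU)) i
    have h2 : (h * U)ᴴ * Q * (h * U) = Uᴴ * (h * Q * h) * U := by
      rw [conjTranspose_mul, hhs]
      simp only [Matrix.mul_assoc]
    rw [h2] at h1
    exact h1
  have ha0 : ∀ i, 0 < a i := by
    intro i
    have h1 := hP.pos (W := h⁻¹ * U) (by
      rw [det_mul]; exact (G.unit _ (G.inv _ hh)).mul (Grp.uni_det hU)) i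
    have h2 : (h⁻¹ * U)ᴴ * P * (h⁻¹ * U) = Uᴴ * (h⁻¹ * P * h⁻¹) * U := by
      rw [conjTranspose_mul, conjTranspose_nonsing_inv, hhs]
      simp only [Matrix.mul_assoc]
    rw [h2] at h1
    exact h1
  have hzero : ∀ i, z i = 0 := by
    by_contra hcon
    push Not at hcon
    obtain ⟨i₀, hi₀⟩ := hcon
    have hlt : Fn P Q Y < (Fn P Q Y₁ + Fn P Q Y₂) / 2 := by
      rw [e0, e1, e2, ← Finset.sum_add_distrib, Finset.sum_div]
      apply Finset.sum_lt_sum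
      · intro i _
        have ha' := ha0 i
        have hb' := hb0 i
        by_cases hzi : z i = 0
        · rw [hzi]; simp
        · have h1 := exp_half_lt hzi
          have h2 := exp_half_lt (neg_ne_zero.2 hzi)
          have h3 : Real.exp (-(1 / 2 * z i)) = Real.exp (-z i / 2) := by congr 1; ring
          have h4 : Real.exp (1 / 2 * z i) = Real.exp (z i / 2) := by congr 1; ring
          rw [h3, h4]
          simp only [zero_mul, neg_zero, Real.exp_zero, one_mul]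
          nlinarith
      · refine ⟨i₀, Finset.mem_univ _, ?_⟩
        have ha' := ha0 i₀
        have hb' := hb0 i₀
        have h1 := exp_half_lt hi₀
        have h2 := exp_half_lt (neg_ne_zero.2 hi₀)
        have h3 : Real.exp (-(1 / 2 * z i₀)) = Real.exp (-z i₀ / 2) := by congr 1; ring
        have h4 : Real.exp (1 / 2 * z i₀) = Real.exp (z i₀ / 2) := by congr 1; ring
        rw [h3, h4]
        simp only [zero_mul, neg_zero, Real.exp_zero, one_mul]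
        nlinarith
    have h1 := hm₁ Y hYp
    have h2 := hm₂ Y hYp
    linarith
  apply exp_inj h₁.1 h₂.1
  rw [hY1, hY2]
  simp only [hzero, mul_zero]

open Classical in
/-- the minimum point -/
noncomputable def argmin (G : Grp n) (P Q : M n) : M n :=
  if h : ∃ Y ∈ G.p, ∀ Z ∈ G.p, Fn P Q Y ≤ Fn P Q Z then h.choose else 0

lemma argmin_spec {P Q : M n} (hP : Big P) (hQ : Big Q) :
    argmin G P Q ∈ G.p ∧ ∀ Z ∈ G.p, Fn P Q (argmin G P Q) ≤ Fn P Q Z := by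
  have h := exists_argmin (G := G) hP hQ
  unfold argmin
  rw [dif_pos h]
  exact h.choose_spec

lemma argmin_unique {P Q : M n} (hP : Big P) (hQ : Big Q) {Y : M n} (hY : Y ∈ G.p)
    (hm : ∀ Z ∈ G.p, Fn P Q Y ≤ Fn P Q Z) : argmin G P Q = Y :=
  argmin_unique_aux hP hQ (argmin_spec hP hQ).1 hY (argmin_spec hP hQ).2 hm

lemma argmin_of_le {P Q : M n} (hP : Big P) (hQ : Big Q) {Y : M n} (hY : Y ∈ G.p)
    (hm : Fn P Q Y ≤ Fn P Q (argmin G P Q)) : argmin G P Q = Y :=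
  argmin_unique hP hQ hY fun Z hZ => hm.trans ((argmin_spec hP hQ).2 Z hZ)

lemma argmin_tendsto {F : Filter β} {P Q : β → M n} {P₀ Q₀ : M n} (hP : ∀ i, Big (P i))
    (hQ : ∀ i, Big (Q i)) (hP₀ : Big P₀) (hQ₀ : Big Q₀) (hPt : Tendsto P F (𝓝 P₀))
    (hQt : Tendsto Q F (𝓝 Q₀)) :
    Tendsto (fun i => argmin G (P i) (Q i)) F (𝓝 (argmin G P₀ Q₀)) := by
  have h0 : (0 : M n) ∈ G.p := ⟨isHermitian_zero, by rw [NormedSpace.exp_zero]; exact G.one⟩
  have h1 : Tendsto (fun i => Fn (P i) (Q i) 0 ^ 2) F (𝓝 (Fn P₀ Q₀ 0 ^ 2)) :=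
    (Fn_tendsto hPt hQt tendsto_const_nhds).pow 2
  have h2 : ∀ᶠ i in F, argmin G (P i) (Q i) ∈ {A : M n | nr A ≤ Fn P₀ Q₀ 0 ^ 2 + 1} := by
    filter_upwards [h1.eventually (gt_mem_nhds (show _ < Fn P₀ Q₀ 0 ^ 2 + 1 by linarith))] with i hi
    have h3 := argmin_spec (G := G) (hP i) (hQ i)
    refine le_trans (nr_le_Fn (hP i) (hQ i) h3.1.1) (le_trans ?_ hi.le)
    exact pow_le_pow_left₀ (Fn_nonneg (hP i) (hQ i) h3.1.1) (h3.2 0 h0) 2
  rw [tendsto_iff_ultrafilter]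
  intro g hg
  obtain ⟨Y, hY, hY'⟩ := (isCompact_nr (Fn P₀ Q₀ 0 ^ 2 + 1)).ultrafilter_le_nhds
    (g.map fun i => argmin G (P i) (Q i)) (by rw [le_principal_iff]; exact hg h2)
  have hYt : Tendsto (fun i => argmin G (P i) (Q i)) g (𝓝 Y) := hY'
  have hYp : Y ∈ G.p := Grp.p_closed.mem_of_tendsto hYt
    (Eventually.of_forall fun i => (argmin_spec (hP i) (hQ i)).1)
  have h3 : argmin G P₀ Q₀ = Y := by
    apply argmin_unique hP₀ hQ₀ hYp
    intro Z hZ
    exact le_of_tendsto_of_tendsto' (Fn_tendsto (hPt.mono_left hg) (hQt.mono_left hg) hYt)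
      (Fn_tendsto (hPt.mono_left hg) (hQt.mono_left hg) tendsto_const_nhds)
      fun i => (argmin_spec (hP i) (hQ i)).2 Z hZ
  rw [h3]
  exact hYt

/-- equivariance -/
lemma argmin_conj {P Q k : M n} (hP : Big P) (hQ : Big Q) (hk : k ∈ G.K)
    (hP' : Big (k * P * kᴴ)) (hQ' : Big (k * Q * kᴴ)) :
    argmin G (k * P * kᴴ) (k * Q * kᴴ) = k * argmin G P Q * kᴴ := by
  have hF : ∀ Y, Fn (k * P * kᴴ) (k * Q * kᴴ) (k * Y * kᴴ) = Fn P Q Y := by
    intro Y
    have h1 : (k * exp Y * kᴴ)⁻¹ = k * (exp Y)⁻¹ * kᴴ := by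
      rw [← hk.2.inv, Matrix.mul_inv_rev, Matrix.mul_inv_rev,
        Matrix.nonsing_inv_nonsing_inv _ (Grp.uni_det hk.2), Matrix.mul_assoc]
    have h2 : ∀ A B : M n, trace (k * A * kᴴ * (k * B * kᴴ)) = trace (A * B) := by
      intro A B
      have h3 : k * A * kᴴ * (k * B * kᴴ) = k * (A * (kᴴ * k) * B * kᴴ) := by
        simp only [Matrix.mul_assoc]
      rw [h3, hk.2.left, Matrix.mul_one, trace_mul_comm, Matrix.mul_assoc, hk.2.left,
        Matrix.mul_one]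
    unfold Fn
    rw [Grp.exp_conj_K hk, h1, h2, h2]
  apply argmin_unique hP' hQ' (Grp.p_conj (argmin_spec hP hQ).1 hk)
  intro Z hZ
  rw [hF]
  have h1 : Z = k * (kᴴ * Z * k) * kᴴ := by
    calc Z = (k * kᴴ) * Z * (k * kᴴ) := by rw [hk.2, Matrix.one_mul, Matrix.mul_one]
      _ = _ := by simp only [Matrix.mul_assoc]
  rw [h1, hF]
  apply (argmin_spec hP hQ).2
  have := Grp.p_conj hZ (Grp.K_star hk)
  rwa [conjTranspose_conjTranspose] at this

/-- invariance of the minimum point under `b` -/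
lemma argmin_fixed {P Q b : M n} (hP : Big P) (hQ : Big Q) (hb : b ∈ G.S)
    (hPb : b⁻¹ * P * (b⁻¹)ᴴ = P) (hQb : bᴴ * Q * b = Q) :
    b * exp (argmin G P Q) * bᴴ = exp (argmin G P Q) := by
  set Y := argmin G P Q with hY
  have hYp : Y ∈ G.p := (argmin_spec hP hQ).1
  obtain ⟨h, hh, hhs, hhh⟩ := exists_half hYp
  obtain ⟨Y', hYp', hY'⟩ := exists_p (G.mul _ hh _ (G.star _ hb))
  have h1 : exp Y' = b * exp Y * bᴴ := by
    rw [hY', conjTranspose_mul, conjTranspose_conjTranspose, hhs, ← hhh]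
    simp only [Matrix.mul_assoc]
  have h2 : Fn P Q Y' = Fn P Q Y := by
    unfold Fn
    rw [h1, Matrix.mul_inv_rev, Matrix.mul_inv_rev]
    congr 2
    · have h3 : (bᴴ)⁻¹ * ((exp Y)⁻¹ * b⁻¹) * P = (b⁻¹)ᴴ * ((exp Y)⁻¹ * b⁻¹ * P) := by
        rw [conjTranspose_nonsing_inv]
        simp only [Matrix.mul_assoc]
      rw [h3, trace_mul_comm]
      have h4 : (exp Y)⁻¹ * b⁻¹ * P * (b⁻¹)ᴴ = (exp Y)⁻¹ * (b⁻¹ * P * (b⁻¹)ᴴ) := by
        simp only [Matrix.mul_assoc]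
      rw [h4, hPb]
    · have h3 : b * exp Y * bᴴ * Q = b * (exp Y * bᴴ * Q) := by simp only [Matrix.mul_assoc]
      rw [h3, trace_mul_comm]
      have h4 : exp Y * bᴴ * Q * b = exp Y * (bᴴ * Q * b) := by simp only [Matrix.mul_assoc]
      rw [h4, hQb]
  have h3 : Y = Y' := argmin_of_le hP hQ hYp' h2.le
  rw [← h1, ← h3]

end Pool.Agent.Helper92.FL
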