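import Pool.Agent.Helper92.FL.Pi
import Pool.Agent.Helper92.FL.Min

/-!
The orbits of minimal tuples are closed.
-/

open Matrix NormedSpace Filter Topology
open scoped ComplexConjugate ComplexOrder

set_option linter.unusedSectionVars false

namespace Pool.Agent.Helper92.FL

variable {n : ℕ} {ι : Type} [Fintype ι] {G : Grp n} {β : Type*}

lemma nr_continuous : Continuous (nr : M n → ℝ) := by
  unfold nr
  refine continuous_finsetSum _ fun j _ => continuous_finsetSum _ fun l _ => ?_
  exact ((continuous_id.matrix_elem j l).norm).pow 2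

lemma nr_eq (A : M n) : nr A = (trace (Aᴴ * A)).re := sq_sum A

lemma nr_nonneg (A : M n) : 0 ≤ nr A := by unfold nr; positivity

lemma nr_eq' (A : M n) : nr A = (trace (A * Aᴴ)).re := by rw [nr_eq, trace_mul_comm]

/-- elements, together with their inverses, which carry `a` to `u` -/
def Tr (G : Grp n) (a u : ι → M n) : Set (M n × M n) :=
  {q | q.1 * q.2 = 1 ∧ q.1 ∈ closure G.S ∧ ∀ i, q.1 * a i = u i * q.1}

lemma Tr_closed (a u : ι → M n) : IsClosed (Tr G a u) := by
  refine (isClosed_eq (continuous_fst.matrix_mul continuous_snd) continuous_const).inter ?_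
  refine (isClosed_closure.preimage continuous_fst).inter ?_
  have : {q : M n × M n | ∀ i, q.1 * a i = u i * q.1} = ⋂ i, {q | q.1 * a i = u i * q.1} := by
    ext q; simp
  show IsClosed {q : M n × M n | ∀ i, q.1 * a i = u i * q.1}
  rw [this]
  exact isClosed_iInter fun i => isClosed_eq (continuous_fst.matrix_mul continuous_const)
    (continuous_const.matrix_mul continuous_fst)

lemma pairs_compact (C : ℝ) : IsCompact {q : M n × M n | nr q.1 + nr q.2 ≤ C} := by
  refine ((isCompact_nr C).prod (isCompact_nr C)).of_isClosed_subset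
    (isClosed_le ((nr_continuous.comp continuous_fst).add (nr_continuous.comp continuous_snd))
      continuous_const) ?_
  intro q hq
  have h1 := nr_nonneg q.1
  have h2 := nr_nonneg q.2
  have hq' : nr q.1 + nr q.2 ≤ C := hq
  exact ⟨show nr q.1 ≤ C by linarith, show nr q.2 ≤ C by linarith⟩

lemma act_eq_iff {g : M n} (hg : IsUnit g.det) (a u : ι → M n) :
    act g a = u ↔ ∀ i, g * a i = u i * g := by
  constructor
  · rintro rfl i
    rw [act, Matrix.mul_assoc, Matrix.nonsing_inv_mul _ hg, Matrix.mul_one]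
  · intro h
    funext i
    rw [act, h, Matrix.mul_assoc, Matrix.mul_nonsing_inv _ hg, Matrix.mul_one]

lemma mem_Tr {g : M n} (hg : g ∈ G.S) {a u : ι → M n} (h : act g a = u) : (g, g⁻¹) ∈ Tr G a u :=
  ⟨Matrix.mul_nonsing_inv _ (G.unit g hg), subset_closure hg, (act_eq_iff (G.unit g hg) a u).1 h⟩

lemma Tr_mem {q : M n × M n} {a u : ι → M n} (h : q ∈ Tr G a u) :
    q.1 ∈ G.S ∧ q.2 = q.1⁻¹ ∧ act q.1 a = u := by
  have h1 : IsUnit q.1.det := by
    have := congrArg det h.1
    rw [det_mul, det_one] at this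
    exact IsUnit.of_mul_eq_one _ this
  exact ⟨G.closed _ h.2.1 h1, (inv_eq_right_inv h.1).symm, (act_eq_iff h1 a u).2 h.2.2⟩

lemma exists_minimizer {a u : ι → M n} (h : u ∈ orb G a) :
    ∃ g ∈ G.S, act g a = u ∧ ∀ g' ∈ G.S, act g' a = u → nr g + nr g⁻¹ ≤ nr g' + nr g'⁻¹ := by
  obtain ⟨g₀, hg₀, hu₀⟩ := h
  have hc : IsCompact (Tr G a u ∩ {q : M n × M n | nr q.1 + nr q.2 ≤ nr g₀ + nr g₀⁻¹}) :=
    (pairs_compact _).inter_left (Tr_closed a u)
  obtain ⟨q, hq, hmin⟩ := hc.exists_isMinOn ⟨(g₀, g₀⁻¹), mem_Tr hg₀ hu₀.symm,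
    show nr g₀ + nr g₀⁻¹ ≤ nr g₀ + nr g₀⁻¹ from le_refl _⟩
    (((nr_continuous (n := n)).comp continuous_fst).add
      ((nr_continuous (n := n)).comp continuous_snd)).continuousOn
  obtain ⟨h1, h2, h3⟩ := Tr_mem hq.1
  refine ⟨q.1, h1, h3, fun g' hg' hu' => ?_⟩
  rw [← h2]
  by_cases hle : nr g' + nr g'⁻¹ ≤ nr g₀ + nr g₀⁻¹
  · exact hmin ⟨mem_Tr hg' hu', hle⟩
  · push Not at hle
    exact le_trans hq.2 hle.le

/-- a function of one variable -/
lemma deriv_zero {κ : Type} [Fintype κ] (c μ : κ → ℝ)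
    (h : ∀ s : ℝ, ∑ i, c i ≤ ∑ i, c i * Real.exp (s * μ i)) : ∑ i, c i * μ i = 0 := by
  set f : ℝ → ℝ := fun s => ∑ i, c i * Real.exp (s * μ i) with hf
  have hmin : IsLocalMin f 0 := by
    apply Filter.Eventually.of_forall
    intro t
    show f 0 ≤ f t
    have : f 0 = ∑ i, c i := by simp [hf]
    rw [this]
    exact h t
  have hder : HasDerivAt f (∑ i, c i * μ i) 0 := by
    have h1 : ∀ i, HasDerivAt (fun s : ℝ => c i * Real.exp (s * μ i)) (c i * μ i) 0 := by
      intro i
      have h2 : HasDerivAt (fun s : ℝ => s * μ i) (μ i) 0 := by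
        simpa using (hasDerivAt_id (0 : ℝ)).mul_const (μ i)
      refine ((h2.exp).const_mul (c i)).congr_deriv ?_
      simp
    exact HasDerivAt.fun_sum (u := Finset.univ) fun i _ => h1 i
  exact hmin.hasDerivAt_eq_zero hder

lemma comm_exp_smul {X B : M n} (h : X * B = B * X) (z : ℂ) :
    exp (z • X) * B = B * exp (z • X) := by
  have h1 : Commute (z • X) B := Commute.smul_left h z
  exact (h1.exp_left).eq

/-- the derivative at the minimizer -/
lemma minimizer_eq {a u : ι → M n} {g : M n} (hg : g ∈ G.S) (hu : act g a = u)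
    (hmin : ∀ g' ∈ G.S, act g' a = u → nr g + nr g⁻¹ ≤ nr g' + nr g'⁻¹) {Y Z : M n}
    (hY : exp Y = gᴴ * g) (hZ : Z ∈ G.p) (hc : ∀ i, Z * a i = a i * Z) :
    (trace ((exp Y - (exp Y)⁻¹) * Z)).re = 0 := by
  obtain ⟨U, z, hU, hz⟩ := diag_rep hZ.1
  have hgu := G.unit g hg
  have hPinv : (exp Y)⁻¹ = g⁻¹ * (g⁻¹)ᴴ := by
    rw [hY, Matrix.mul_inv_rev, conjTranspose_nonsing_inv]
  set p' : Fin n → ℝ := fun i => ((Uᴴ * exp Y * U) i i).re with hp'
  set q' : Fin n → ℝ := fun i => ((Uᴴ * (exp Y)⁻¹ * U) i i).re with hq'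
  have key : ∀ s : ℝ, nr (g * exp (((s : ℝ) : ℂ) • Z)) + nr (g * exp (((s : ℝ) : ℂ) • Z))⁻¹ =
      ∑ i, (p' i * Real.exp (s * (2 * z i)) + q' i * Real.exp (s * (-2 * z i))) := by
    intro s
    have he : exp (((s : ℝ) : ℂ) • Z) = U * dg (fun i => Real.exp (s * z i)) * Uᴴ := by
      rw [hz, exp_smul_real_rep hU]
    have hee : exp (((s : ℝ) : ℂ) • Z) = exp (U * dg (fun i => s * z i) * Uᴴ) := by
      rw [he, exp_rep_real hU]
    have hinv : (exp (((s : ℝ) : ℂ) • Z))⁻¹ = U * dg (fun i => Real.exp (-(s * z i))) * Uᴴ := by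
      rw [hee, exp_rep_inv hU]
    have hh1 : (exp (((s : ℝ) : ℂ) • Z))ᴴ = exp (((s : ℝ) : ℂ) • Z) := by
      rw [he]; exact rep_herm
    have hh2 : ((exp (((s : ℝ) : ℂ) • Z))⁻¹)ᴴ = (exp (((s : ℝ) : ℂ) • Z))⁻¹ := by
      rw [hinv]; exact rep_herm
    have h1 : nr (g * exp (((s : ℝ) : ℂ) • Z)) =
        (trace (exp (((s : ℝ) : ℂ) • Z) * exp (((s : ℝ) : ℂ) • Z) * exp Y)).re := by
      rw [nr_eq, conjTranspose_mul, hh1]
      have : exp (((s : ℝ) : ℂ) • Z) * gᴴ * (g * exp (((s : ℝ) : ℂ) • Z)) =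
          exp (((s : ℝ) : ℂ) • Z) * (exp Y * exp (((s : ℝ) : ℂ) • Z)) := by
        rw [hY]; simp only [Matrix.mul_assoc]
      rw [this, trace_mul_comm]
      rw [Matrix.mul_assoc, trace_mul_comm]
    have h2 : nr (g * exp (((s : ℝ) : ℂ) • Z))⁻¹ =
        (trace ((exp (((s : ℝ) : ℂ) • Z))⁻¹ * (exp (((s : ℝ) : ℂ) • Z))⁻¹ * (exp Y)⁻¹)).re := by
      rw [nr_eq', Matrix.mul_inv_rev, conjTranspose_mul, hh2]
      have : (exp (((s : ℝ) : ℂ) • Z))⁻¹ * g⁻¹ * ((g⁻¹)ᴴ * (exp (((s : ℝ) : ℂ) • Z))⁻¹) =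
          (exp (((s : ℝ) : ℂ) • Z))⁻¹ * ((exp Y)⁻¹ * (exp (((s : ℝ) : ℂ) • Z))⁻¹) := by
        rw [hPinv]; simp only [Matrix.mul_assoc]
      rw [this, trace_mul_comm]
      rw [Matrix.mul_assoc, trace_mul_comm]
    rw [h1, h2, hinv, he, rep_mul hU, rep_mul hU, trace_rep_mul, trace_rep_mul,
      ← Finset.sum_add_distrib]
    refine Finset.sum_congr rfl fun i _ => ?_
    rw [← Real.exp_add, ← Real.exp_add, mul_comm, hp', mul_comm (Real.exp _), hq']
    congr 3
    · ring
    · ring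
  have hmin' : ∀ s : ℝ, ∑ i, (p' i + q' i) ≤
      ∑ i, (p' i * Real.exp (s * (2 * z i)) + q' i * Real.exp (s * (-2 * z i))) := by
    intro s
    have h0 := key 0
    simp only [Complex.ofReal_zero, zero_smul, NormedSpace.exp_zero, zero_mul,
      Real.exp_zero, mul_one] at h0
    rw [← h0, ← key s]
    apply hmin _ (G.mul _ hg _ (Grp.exp_p hZ _))
    rw [act_mul]
    have : act (exp (((s : ℝ) : ℂ) • Z)) a = a := by
      rw [act_eq_iff (exp_det_unit _)]
      exact fun i => comm_exp_smul (hc i) _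
    rw [this, hu]
  have hd := deriv_zero (κ := Fin n ⊕ Fin n) (Sum.elim p' q')
    (Sum.elim (fun i => 2 * z i) (fun i => -2 * z i)) (by
      intro s
      simp only [Fintype.sum_sum_type, Sum.elim_inl, Sum.elim_inr, ← Finset.sum_add_distrib]
      exact hmin' s)
  simp only [Fintype.sum_sum_type, Sum.elim_inl, Sum.elim_inr, ← Finset.sum_add_distrib] at hd
  have h5 : (trace ((exp Y - (exp Y)⁻¹) * Z)).re = ∑ i, z i * (p' i - q' i) := by
    rw [trace_mul_comm, hz, trace_rep_mul]
    refine Finset.sum_congr rfl fun i _ => ?_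
    rw [Matrix.mul_sub, Matrix.sub_mul, Matrix.sub_apply, Complex.sub_re]
  rw [h5]
  have h6 : ∑ i, (p' i * (2 * z i) + q' i * (-2 * z i)) = 2 * ∑ i, z i * (p' i - q' i) := by
    rw [Finset.mul_sum]
    refine Finset.sum_congr rfl fun i _ => ?_
    ring
  rw [h6] at hd
  linarith

lemma sinh_mono {x y : ℝ} (h : |x| ≤ |y|) :
    |Real.exp x - Real.exp (-x)| ≤ |Real.exp y - Real.exp (-y)| := by
  have h1 : ∀ x : ℝ, |Real.exp x - Real.exp (-x)| = Real.exp |x| - Real.exp (-|x|) := by
    intro x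
    rcases le_total 0 x with hx | hx
    · rw [abs_of_nonneg hx, abs_of_nonneg]
      linarith [Real.exp_le_exp.2 (show -x ≤ x by linarith)]
    · rw [abs_of_nonpos hx, abs_of_nonpos]
      · ring_nf
      · linarith [Real.exp_le_exp.2 (show x ≤ -x by linarith)]
  rw [h1, h1]
  have h2 := Real.exp_le_exp.2 h
  have h3 := Real.exp_le_exp.2 (neg_le_neg h)
  linarith

lemma sinh_mul {x : ℝ} : |Real.exp x - Real.exp (-x)| * |x| = (Real.exp x - Real.exp (-x)) * x := by
  rcases le_total 0 x with hx | hx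
  · rw [abs_of_nonneg hx, abs_of_nonneg]
    linarith [Real.exp_le_exp.2 (show -x ≤ x by linarith)]
  · rw [abs_of_nonpos hx, abs_of_nonpos]
    · ring
    · linarith [Real.exp_le_exp.2 (show x ≤ -x by linarith)]

/-- the main step -/
lemma no_close {V : M n} (hV : Uni V) {y : Fin n → ℝ} {Z : M n} {L : ℝ} (hL : 0 < L)
    (hyL : ∀ p, |y p| ≤ L) {p₀ : Fin n} (hp₀ : |y p₀| = L)
    (h0 : (trace ((exp (V * dg y * Vᴴ) - (exp (V * dg y * Vᴴ))⁻¹) * Z)).re = 0)
    (hclose : (n : ℝ) * √(nr (Z - ((L⁻¹ : ℝ) : ℂ) • (V * dg y * Vᴴ))) < 1) : False := by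
  set δ := √(nr (Z - ((L⁻¹ : ℝ) : ℂ) • (V * dg y * Vᴴ))) with hδ
  have hδ0 : 0 ≤ δ := Real.sqrt_nonneg _
  set σ : Fin n → ℝ := fun p => Real.exp (y p) - Real.exp (-y p) with hσ
  have h1 : exp (V * dg y * Vᴴ) - (exp (V * dg y * Vᴴ))⁻¹ = V * dg σ * Vᴴ := by
    rw [exp_rep_inv hV, exp_rep_real hV, ← Matrix.sub_mul, ← Matrix.mul_sub]
    congr 2
    unfold dg
    rw [diagonal_sub]
    congr 1
    funext i
    push_cast [hσ]
    rfl
  rw [h1, trace_rep_mul] at h0
  have hent : ∀ p, |((Vᴴ * Z * V) p p).re - L⁻¹ * y p| ≤ δ := by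
    intro p
    have h2 : Vᴴ * (((L⁻¹ : ℝ) : ℂ) • (V * dg y * Vᴴ)) * V = ((L⁻¹ : ℝ) : ℂ) • dg y := by
      rw [Matrix.mul_smul, Matrix.smul_mul]
      congr 1
      calc Vᴴ * (V * dg y * Vᴴ) * V = (Vᴴ * V) * dg y * (Vᴴ * V) := by
            simp only [Matrix.mul_assoc]
        _ = dg y := by rw [hV.left, Matrix.one_mul, Matrix.mul_one]
    have h3 : ((Vᴴ * (Z - ((L⁻¹ : ℝ) : ℂ) • (V * dg y * Vᴴ)) * V) p p).re =
        ((Vᴴ * Z * V) p p).re - L⁻¹ * y p := by
      rw [Matrix.mul_sub, Matrix.sub_mul, h2, Matrix.sub_apply, Complex.sub_re, Matrix.smul_apply]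
      unfold dg
      rw [diagonal_apply_eq, smul_eq_mul, ← Complex.ofReal_mul, Complex.ofReal_re]
    rw [← h3]
    refine (Complex.abs_re_le_norm _).trans ((entry_le_nr _ p p).trans ?_)
    rw [hδ]
    apply Real.sqrt_le_sqrt
    exact (sq_sum_conj hV _).le
  have hLi : 0 < L⁻¹ := inv_pos.2 hL
  have hterm : ∀ p, |σ p| * (L⁻¹ * |y p|) - |σ p₀| * δ ≤ σ p * ((Vᴴ * Z * V) p p).re := by
    intro p
    have h2 : |σ p| ≤ |σ p₀| := sinh_mono (by rw [hp₀]; exact hyL p)
    have h3 := hent p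
    have h4 : |σ p| * |y p| = σ p * y p := sinh_mul
    have h5 : -(|σ p| * δ) ≤ σ p * (((Vᴴ * Z * V) p p).re - L⁻¹ * y p) := by
      have h6 : |σ p * (((Vᴴ * Z * V) p p).re - L⁻¹ * y p)| ≤ |σ p| * δ := by
        rw [abs_mul]
        exact mul_le_mul_of_nonneg_left h3 (abs_nonneg _)
      linarith [neg_abs_le (σ p * (((Vᴴ * Z * V) p p).re - L⁻¹ * y p))]
    have h7 : |σ p| * δ ≤ |σ p₀| * δ := mul_le_mul_of_nonneg_right h2 hδ0
    have h8 : |σ p| * (L⁻¹ * |y p|) = L⁻¹ * (σ p * y p) := by rw [← h4]; ring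
    rw [h8]
    nlinarith
  have hsum := Finset.sum_le_sum fun p (_ : p ∈ Finset.univ) => hterm p
  rw [h0, Finset.sum_sub_distrib, Finset.sum_const, Finset.card_univ, Fintype.card_fin,
    nsmul_eq_mul] at hsum
  have h2 : |σ p₀| * (L⁻¹ * |y p₀|) ≤ ∑ p, |σ p| * (L⁻¹ * |y p|) :=
    Finset.single_le_sum (f := fun p => |σ p| * (L⁻¹ * |y p|)) (fun p _ => by positivity)
      (Finset.mem_univ p₀)
  rw [hp₀, inv_mul_cancel₀ hL.ne', mul_one] at h2
  have h3 : 0 < |σ p₀| := by
    apply abs_pos.2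
    intro h
    have h4 : Real.exp (y p₀) = Real.exp (-y p₀) := sub_eq_zero.1 h
    have h5 := Real.exp_injective h4
    have h6 : y p₀ = 0 := by linarith
    rw [h6, abs_zero] at hp₀
    exact hL.ne hp₀
  nlinarith

/-- a bound for the commutators -/
lemma comm_bound {a : ι → M n} (ha : G.KN a) {U : M n} (hU : Uni U) {x : Fin n → ℝ} {L : ℝ}
    (hx : U * dg x * Uᴴ ∈ G.p) (hL : ∀ p, |x p| ≤ L) :
    N (fun i => (U * dg x * Uᴴ) * a i - a i * (U * dg x * Uᴴ)) ≤
      2 * L * N (act (exp (U * dg x * Uᴴ)) a) := by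
  have hD := Grp.crit ha hU hx
  have h1 : N (fun i => (U * dg x * Uᴴ) * a i - a i * (U * dg x * Uᴴ)) =
      ∑ j, ∑ l, (x j - x l) ^ 2 * w U a j l := by
    rw [N_eq_w hU]
    refine Finset.sum_congr rfl fun j _ => Finset.sum_congr rfl fun l _ => ?_
    unfold w
    rw [Finset.mul_sum]
    refine Finset.sum_congr rfl fun i _ => ?_
    rw [comm_entry hU, norm_mul, mul_pow, Complex.norm_real, Real.norm_eq_abs, sq_abs]
  have h2 : ∑ j, ∑ l, |x j - x l| * w U a j l ≤ N (act (exp (U * dg x * Uᴴ)) a) := by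
    have h3 : ∑ j, ∑ l, (2 * ((x j - x l) * w U a j l) + |x j - x l| * w U a j l) ≤
        N (act (exp (U * dg x * Uᴴ)) a) := by
      rw [N_eq_w hU (act _ a)]
      refine Finset.sum_le_sum fun j _ => Finset.sum_le_sum fun l _ => ?_
      rw [w_act_exp hU]
      have hw := w_nonneg U a j l
      have h4 : 2 * (x j - x l) + |x j - x l| ≤ Real.exp (x j - x l) ^ 2 := by
        have h5 := Real.add_one_le_exp (x j - x l)
        have h6 := Real.exp_pos (x j - x l)
        rcases le_total 0 (x j - x l) with h7 | h7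
        · rw [abs_of_nonneg h7]
          nlinarith [sq_nonneg (x j - x l - 1)]
        · rw [abs_of_nonpos h7]
          nlinarith
      nlinarith
    have h4 : ∑ j, ∑ l, (2 * ((x j - x l) * w U a j l) + |x j - x l| * w U a j l) =
        2 * D U x a + ∑ j, ∑ l, |x j - x l| * w U a j l := by
      simp only [Finset.sum_add_distrib, D, Finset.mul_sum]
    rw [h4, hD] at h3
    linarith
  rw [h1]
  have h3 : ∑ j, ∑ l, (x j - x l) ^ 2 * w U a j l ≤
      ∑ j, ∑ l, 2 * L * (|x j - x l| * w U a j l) := by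
    refine Finset.sum_le_sum fun j _ => Finset.sum_le_sum fun l _ => ?_
    have hw := w_nonneg U a j l
    have h4 : |x j - x l| ≤ 2 * L := by
      have := abs_sub (x j) (x l)
      linarith [hL j, hL l]
    have h5 : (x j - x l) ^ 2 = |x j - x l| * |x j - x l| := by rw [← sq_abs]; ring
    rw [h5, ← mul_assoc]
    apply mul_le_mul_of_nonneg_right _ hw
    exact mul_le_mul_of_nonneg_right h4 (abs_nonneg _)
  refine h3.trans ?_
  simp only [← Finset.mul_sum]
  rcases isEmpty_or_nonempty (Fin n) with he | he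
  · simp [N_eq_w hU (act _ a)]
  · obtain ⟨p⟩ := he
    have hL0 : 0 ≤ L := (abs_nonneg _).trans (hL p)
    exact mul_le_mul_of_nonneg_left h2 (by positivity)

lemma N_smul (c : ℝ) (B : ι → M n) : N (fun i => (c : ℂ) • B i) = c ^ 2 * N B := by
  unfold N
  simp only [Finset.mul_sum]
  refine Finset.sum_congr rfl fun i _ => Finset.sum_congr rfl fun j _ =>
    Finset.sum_congr rfl fun l _ => ?_
  rw [Matrix.smul_apply, norm_smul, mul_pow, Complex.norm_real, Real.norm_eq_abs, sq_abs]

/-- orbits of minimal tuples are closed -/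
theorem closed_orbit {a : ι → M n} (ha : G.KN a) : closure (orb G a) ⊆ orb G a := by
  intro u hu
  obtain ⟨v, hv, hvu⟩ := exists_seq hu
  choose g hg hga hmin using fun m => exists_minimizer (hv m)
  set W₀ : Ultrafilter ℕ := Filter.hyperfilter ℕ with hW₀
  have hvU : Tendsto v W₀ (𝓝 u) := hvu.mono_left Nat.hyperfilter_le_atTop
  by_cases hb : ∃ C, ∀ᶠ m in (W₀ : Filter ℕ), nr (g m) + nr (g m)⁻¹ ≤ C
  · obtain ⟨C, hC⟩ := hb
    obtain ⟨q, hq, hq'⟩ := (pairs_compact C).ultrafilter_le_nhds (W₀.map fun m => (g m, (g m)⁻¹))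
      (by rw [le_principal_iff]; exact hC)
    have h1 : Tendsto (fun m => (g m, (g m)⁻¹)) W₀ (𝓝 q) := hq'
    have h2 : Tendsto g W₀ (𝓝 q.1) := (continuous_fst.tendsto q).comp h1
    have h3 : Tendsto (fun m => (g m)⁻¹) W₀ (𝓝 q.2) := (continuous_snd.tendsto q).comp h1
    have hmem : q ∈ Tr G a u := by
      refine ⟨?_, ?_, fun i => ?_⟩
      · exact tendsto_nhds_unique (h2.mul h3) (tendsto_const_nhds.congr fun m =>
          (Matrix.mul_nonsing_inv _ (G.unit _ (hg m))).symm)
      · exact mem_closure_of_tendsto h2 (Eventually.of_forall hg)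
      · have h4 : Tendsto (fun m => g m * a i) W₀ (𝓝 (q.1 * a i)) := h2.mul tendsto_const_nhds
        have h5 : Tendsto (fun m => v m i * g m) W₀ (𝓝 (u i * q.1)) :=
          ((tendsto_pi_nhds.1 hvU) i).mul h2
        exact tendsto_nhds_unique h4 (h5.congr fun m =>
          ((act_eq_iff (G.unit _ (hg m)) a (v m)).1 (hga m) i).symm)
    obtain ⟨h4, -, h5⟩ := Tr_mem hmem
    exact ⟨q.1, h4, h5.symm⟩
  · exfalso
    have hunb : ∀ C, ∀ᶠ m in (W₀ : Filter ℕ), C < nr (g m) + nr (g m)⁻¹ := by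
      intro C
      have h1 : ¬ ∀ᶠ m in (W₀ : Filter ℕ), nr (g m) + nr (g m)⁻¹ ≤ C := fun h => hb ⟨C, h⟩
      rw [← Ultrafilter.eventually_not] at h1
      exact h1.mono fun m hm => not_le.1 hm
    choose k hk X hX hgX using fun m => Grp.polar (hg m)
    choose V x hV hVx using fun m => diag_rep (hX m).1
    rcases isEmpty_or_nonempty (Fin n) with he | he
    · obtain ⟨m, hm⟩ := (hunb 0).exists
      simp [nr] at hm
    · choose p hp using fun m => Finite.exists_max (fun p => |x m p|)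
      obtain ⟨L, hL⟩ : ∃ L : ℕ → ℝ, ∀ m, L m = |x m (p m)| := ⟨_, fun _ => rfl⟩
      have hexp : ∀ m, exp (V m * dg (fun i => 2 * x m i) * (V m)ᴴ) = (g m)ᴴ * g m := by
        intro m
        have h1 : exp (V m * dg (fun i => 2 * x m i) * (V m)ᴴ) = exp (X m) * exp (X m) := by
          rw [hVx m, exp_rep_real (hV m), exp_rep_real (hV m), rep_mul (hV m)]
          congr 3
          funext i
          rw [← Real.exp_add]
          congr 1
          ring
        rw [h1]
        have h2 : exp (X m) * exp (X m) = (exp (X m))ᴴ * ((k m)ᴴ * k m) * exp (X m) := by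
          rw [(hk m).2.left, (hX m).1.exp.eq, Matrix.mul_one]
        rw [h2]
        conv_rhs => rw [hgX m]
        rw [conjTranspose_mul]
        simp only [Matrix.mul_assoc]
      have hPsi : ∀ m, nr (g m) + nr (g m)⁻¹ ≤ 2 * n * Real.exp (2 * L m) := by
        intro m
        have h1 : nr (g m) = ∑ i, Real.exp (2 * x m i) := by
          rw [nr_eq, ← hexp, exp_rep_real (hV m), trace_rep (hV m)]
        have h2 : nr (g m)⁻¹ = ∑ i, Real.exp (-(2 * x m i)) := by
          rw [nr_eq', conjTranspose_nonsing_inv, ← Matrix.mul_inv_rev, ← hexp,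
            exp_rep_inv (hV m), trace_rep (hV m)]
        rw [h1, h2, ← Finset.sum_add_distrib]
        have h3 : ∀ i ∈ (Finset.univ : Finset (Fin n)),
            Real.exp (2 * x m i) + Real.exp (-(2 * x m i)) ≤ 2 * Real.exp (2 * L m) := by
          intro i _
          have h4 := hp m i
          rw [← hL m] at h4
          have h5 := abs_le.1 h4
          have h6 := Real.exp_le_exp.2 (show 2 * x m i ≤ 2 * L m by linarith)
          have h7 := Real.exp_le_exp.2 (show -(2 * x m i) ≤ 2 * L m by linarith)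
          linarith
        refine (Finset.sum_le_sum h3).trans ?_
        rw [Finset.sum_const, Finset.card_univ, Fintype.card_fin, nsmul_eq_mul]
        linarith
      have hLinf : ∀ C, ∀ᶠ m in (W₀ : Filter ℕ), C < L m := by
        intro C
        filter_upwards [hunb (2 * n * Real.exp (2 * C))] with m hm
        by_contra hcon
        push Not at hcon
        have h1 := Real.exp_le_exp.2 (show 2 * L m ≤ 2 * C by linarith)
        have h2 : (0 : ℝ) ≤ 2 * n := by positivity
        have h3 := mul_le_mul_of_nonneg_left h1 h2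
        linarith [hPsi m]
      have hLtop : Tendsto L W₀ atTop := tendsto_atTop.2 fun C => (hLinf C).mono fun m hm => hm.le
      set W : ℕ → M n := fun m => (((L m)⁻¹ : ℝ) : ℂ) • X m with hW
      have hWp : ∀ m, W m ∈ G.p := fun m => Grp.p_smul (hX m) _
      have hWn : ∀ m, nr (W m) ≤ n := by
        intro m
        have h1 : nr (W m) = (L m)⁻¹ ^ 2 * ∑ i, x m i ^ 2 := by
          have h2 := N_smul (ι := Unit) (L m)⁻¹ (fun _ => X m)
          have h3 : ∀ A : M n, N (fun _ : Unit => A) = nr A := by intro A; simp [N, nr]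
          rw [h3, h3] at h2
          rw [hW]
          show nr ((((L m)⁻¹ : ℝ) : ℂ) • X m) = _
          rw [h2]
          congr 1
          rw [hVx m, nr_rep (hV m)]
        rw [h1, Finset.mul_sum]
        have h2 : ∀ i ∈ (Finset.univ : Finset (Fin n)), (L m)⁻¹ ^ 2 * x m i ^ 2 ≤ 1 := by
          intro i _
          have h4 := hp m i
          rw [← hL m] at h4
          rw [← mul_pow, ← sq_abs, abs_mul]
          have h5 : 0 ≤ L m := by rw [hL]; exact abs_nonneg _
          have h6 : |(L m)⁻¹| * |x m i| ≤ 1 := by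
            rw [abs_of_nonneg (inv_nonneg.2 h5)]
            calc (L m)⁻¹ * |x m i| ≤ (L m)⁻¹ * L m :=
                  mul_le_mul_of_nonneg_left h4 (inv_nonneg.2 h5)
              _ ≤ 1 := inv_mul_le_one
          exact pow_le_one₀ (by positivity) h6
        refine (Finset.sum_le_sum h2).trans ?_
        simp
      obtain ⟨Z, hZ, hZ'⟩ := (isCompact_nr (n := n) n).ultrafilter_le_nhds (W₀.map W)
        (by
          rw [le_principal_iff]
          show ∀ᶠ m in (W₀ : Filter ℕ), nr (W m) ≤ n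
          exact Eventually.of_forall hWn)
      have hWZ : Tendsto W W₀ (𝓝 Z) := hZ'
      have hZp : Z ∈ G.p := Grp.p_closed.mem_of_tendsto hWZ (Eventually.of_forall hWp)
      have hc0 : Tendsto (fun m => N (fun i => W m * a i - a i * W m)) W₀ (𝓝 0) := by
        have h1 : Tendsto (fun m => 2 * (L m)⁻¹ * N (v m)) W₀ (𝓝 (2 * 0 * N u)) :=
          ((tendsto_inv_atTop_zero.comp hLtop).const_mul 2).mul ((N_continuous.tendsto u).comp hvU)
        rw [mul_zero, zero_mul] at h1
        refine squeeze_zero' (Eventually.of_forall fun m => N_nonneg _) ?_ h1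
        filter_upwards [hLinf 0] with m hm
        have h2 : (fun i => W m * a i - a i * W m) =
            fun i => (((L m)⁻¹ : ℝ) : ℂ) • (X m * a i - a i * X m) := by
          funext i
          rw [smul_sub, ← Matrix.smul_mul, ← Matrix.mul_smul]
        rw [h2, N_smul]
        have h3 := comm_bound ha (hV m) (x := x m) (L := L m) (by rw [← hVx m]; exact hX m)
          (fun q => by rw [hL m]; exact hp m q)
        rw [← hVx m] at h3
        have h4 : N (act (exp (X m)) a) = N (v m) := by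
          have h5 := congrArg N (hga m)
          rwa [hgX m, act_mul, N_act_uni (hk m).2] at h5
        rw [h4] at h3
        have h5 : (L m)⁻¹ ^ 2 * (2 * L m * N (v m)) = 2 * (L m)⁻¹ * N (v m) := by
          field_simp
        rw [← h5]
        exact mul_le_mul_of_nonneg_left h3 (by positivity)
      have hc : ∀ i, Z * a i = a i * Z := by
        have h1 : Continuous fun W : M n => N (fun i => W * a i - a i * W) := by
          apply N_continuous.comp
          refine continuous_pi fun i => ?_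
          exact (continuous_id.matrix_mul continuous_const).sub
            (continuous_const.matrix_mul continuous_id)
        have h2 := tendsto_nhds_unique ((h1.tendsto Z).comp hWZ) hc0
        have h3 := N_eq_zero h2
        intro i
        exact sub_eq_zero.1 (congrFun h3 i)
      have hcl : Tendsto (fun m => (n : ℝ) * √(nr (Z - W m))) W₀ (𝓝 ((n : ℝ) * √(nr (Z - Z)))) :=
        (((Real.continuous_sqrt.comp nr_continuous).tendsto (Z - Z)).comp
          (tendsto_const_nhds.sub hWZ)).const_mul (n : ℝ)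
      have hcl0 : (n : ℝ) * √(nr (Z - Z)) = 0 := by
        rw [sub_self]
        have : nr (0 : M n) = 0 := by simp [nr]
        rw [this, Real.sqrt_zero, mul_zero]
      rw [hcl0] at hcl
      obtain ⟨m, hm1, hm2⟩ := ((hcl.eventually (gt_mem_nhds (zero_lt_one))).and (hLinf 0)).exists
      have h0 := minimizer_eq (hg m) (hga m) (hmin m) (hexp m) hZp hc
      have h1 : (((2 * L m)⁻¹ : ℝ) : ℂ) • (V m * dg (fun i => 2 * x m i) * (V m)ᴴ) = W m := by
        rw [hW]
        show _ = (((L m)⁻¹ : ℝ) : ℂ) • X m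
        have h2 : V m * dg (fun i => 2 * x m i) * (V m)ᴴ = ((2 : ℝ) : ℂ) • X m := by
          rw [hVx m, ← Matrix.smul_mul, ← Matrix.mul_smul]
          congr 2
          unfold dg
          ext i j
          rcases eq_or_ne i j with rfl | h
          · simp
          · simp [diagonal_apply_ne _ h]
        rw [h2, smul_smul, ← Complex.ofReal_mul]
        congr 2
        rw [mul_inv]
        ring
      refine no_close (hV m) (L := 2 * L m) (by linarith) (p₀ := p m) ?_ ?_ h0 ?_
      · intro q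
        rw [abs_mul, abs_of_nonneg (zero_le_two), hL m]
        exact mul_le_mul_of_nonneg_left (hp m q) zero_le_two
      · rw [abs_mul, abs_of_nonneg (zero_le_two), hL m]
      · rw [h1]
        exact hm1

end Pool.Agent.Helper92.FL
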