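import Mathlib

/-!
Definitions: spaces of homomorphisms, the orbit space of the homomorphisms with closed orbit, strong
deformation retractions.
-/

open Filter Topology

namespace Pool.Agent.Helper92.FL

/-- The inclusion `i` is a strong deformation retraction: it is a topological embedding, it has a
continuous left inverse `ρ`, and `i ∘ ρ` is homotopic to the identity by a homotopy which fixes the
image of `i` pointwise. -/
structure IsSDR {Y X : Type} [TopologicalSpace Y] [TopologicalSpace X] (i : Y → X) : Prop where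
  embedding : Topology.IsEmbedding i
  retraction : ∃ ρ : X → Y, Continuous ρ ∧ (∀ y, ρ (i y) = y) ∧
    ∃ H : X × unitInterval → X, Continuous H ∧ (∀ x, H (x, 0) = x) ∧ (∀ x, H (x, 1) = i (ρ x)) ∧
      ∀ y t, H (i y, t) = i y

variable {q : ℕ} {Γ : Type} [Group Γ]

/-- The elements of `Hom(Γ, G)`. The finite family `s` in `Γ` is recorded as it gives the
topology. -/
@[ext]
structure Rep (s : Fin q → Γ) (G : Type) [Group G] where
  hom : Γ →* G

variable (s : Fin q → Γ) (G : Type) [Group G]

/-- the topology of `Hom(Γ, G)` as a subspace of `G ^ q` -/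
instance [TopologicalSpace G] : TopologicalSpace (Rep s G) :=
  TopologicalSpace.induced (fun φ (i : Fin q) => φ.hom (s i)) Pi.topologicalSpace

/-- `G` acts on `Hom(Γ, G)` by conjugation: `(g • φ) x = g φ(x) g⁻¹` -/
instance : MulAction G (Rep s G) where
  smul g φ := ⟨(MulAut.conj g).toMonoidHom.comp φ.hom⟩
  one_smul φ := Rep.ext (MonoidHom.ext fun x => by
    show (1 : G) * φ.hom x * (1 : G)⁻¹ = φ.hom x
    simp)
  mul_smul g h φ := Rep.ext (MonoidHom.ext fun x => by
    show (g * h) * φ.hom x * (g * h)⁻¹ = g * (h * φ.hom x * h⁻¹) * g⁻¹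
    simp [mul_assoc])

/-- the homomorphisms whose conjugation orbit is closed in `Hom(Γ, G)` -/
abbrev Polystable [TopologicalSpace G] : Type := {φ : Rep s G // IsClosed (MulAction.orbit G φ)}

instance [TopologicalSpace G] : MulAction G (Polystable s G) where
  smul g φ := ⟨g • φ.1, by rw [MulAction.orbit_smul]; exact φ.2⟩
  one_smul φ := Subtype.ext (one_smul G φ.1)
  mul_smul g h φ := Subtype.ext (mul_smul g h φ.1)

/-- `𝒳_Γ(G)`: the space of the orbits of the homomorphisms whose conjugation orbit is closed -/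
abbrev XG [TopologicalSpace G] : Type := MulAction.orbitRel.Quotient G (Polystable s G)

/-- `𝒳_Γ(K)`: the orbit space `Hom(Γ, K) / K` -/
abbrev XK : Type := MulAction.orbitRel.Quotient G (Rep s G)

variable {G} (K : Subgroup G)

/-- a homomorphism to `K`, seen as a homomorphism to `G` -/
def incl (ψ : Rep s K) : Rep s G := ⟨K.subtype.comp ψ.hom⟩

/-- the natural map `𝒳_Γ(K) → 𝒳_Γ(G)` -/
def iG [TopologicalSpace G] (h : ∀ ψ : Rep s K, IsClosed (MulAction.orbit G (incl s K ψ))) :
    XK s K → XG s G :=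
  Quotient.map (fun ψ => (⟨incl s K ψ, h ψ⟩ : Polystable s G)) (by
    rintro ψ ψ' ⟨k, rfl⟩
    exact ⟨(k : G), Subtype.ext (Rep.ext (MonoidHom.ext fun x => rfl))⟩)

/-! ### reductive groups -/

section Reductive

variable {N : ℕ}

/-- the value of a polynomial in the matrix entries -/
noncomputable def pev (f : MvPolynomial (Fin N × Fin N) ℂ) (A : Matrix (Fin N) (Fin N) ℂ) : ℂ :=
  MvPolynomial.eval (fun p => A p.1 p.2) f

/-- `A` is Zariski closed in `GL_N(ℂ)`: it is the set of the common zeros in `GL_N(ℂ)` of a set of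
polynomials in the matrix entries -/
def ZariskiClosed (A : Set (GL (Fin N) ℂ)) : Prop :=
  ∃ I : Set (MvPolynomial (Fin N × Fin N) ℂ), ∀ g : GL (Fin N) ℂ, g ∈ A ↔ ∀ f ∈ I, pev f g.1 = 0

/-- `B` is a Zariski dense subset of `A` -/
def ZariskiDense (B A : Set (GL (Fin N) ℂ)) : Prop :=
  B ⊆ A ∧ ∀ f : MvPolynomial (Fin N × Fin N) ℂ, (∀ g ∈ B, pev f g.1 = 0) → ∀ g ∈ A, pev f g.1 = 0

/-- Reductive complex algebraic groups: the Zariski closed subgroups of `GL_N(ℂ)` which have a
Zariski dense compact subgroup. -/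
structure IsReductive (G : Subgroup (GL (Fin N) ℂ)) : Prop where
  closed : ZariskiClosed (G : Set (GL (Fin N) ℂ))
  compact : ∃ K₀ : Subgroup (GL (Fin N) ℂ), IsCompact (K₀ : Set (GL (Fin N) ℂ)) ∧
    ZariskiDense (K₀ : Set (GL (Fin N) ℂ)) (G : Set (GL (Fin N) ℂ))

/-- maximal compact subgroups -/
structure IsMaxCompact {G : Type} [Group G] [TopologicalSpace G] (K : Subgroup G) : Prop where
  compact : IsCompact (K : Set G)
  maximal : ∀ K' : Subgroup G, IsCompact (K' : Set G) → K ≤ K' → K' = K

/-- `Γ` is flawed: for every finite generating family `s` of `Γ`, every reductive group `G` and every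
maximal compact subgroup `K` of `G`, the homomorphisms to `K` have closed `G`-orbits in `Hom(Γ, G)` and
the natural map `𝒳_Γ(K) → 𝒳_Γ(G)` is a strong deformation retraction. -/
def Flawed (Γ : Type) [Group Γ] : Prop :=
  ∀ (q : ℕ) (s : Fin q → Γ), Subgroup.closure (Set.range s) = ⊤ →
    ∀ (N : ℕ) (G : Subgroup (GL (Fin N) ℂ)), IsReductive G → ∀ K : Subgroup G, IsMaxCompact K →
      ∃ h : ∀ ψ : Rep s K, IsClosed (MulAction.orbit G (incl s K ψ)), IsSDR (iG s K h)

end Reductive

/-! ### generalized torus knot groups -/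

/-- the relators `a_i ^ m_i * (a_j ^ m_j)⁻¹` -/
def relators {r : ℕ} (m : Fin r → ℕ) : Set (FreeGroup (Fin r)) :=
  {w | ∃ i j, w = FreeGroup.of i ^ m i * (FreeGroup.of j ^ m j)⁻¹}

/-- the generalized torus knot group `⟨a_1, …, a_r | a_i ^ m_i = a_j ^ m_j⟩` -/
abbrev TorusKnotGroup {r : ℕ} (m : Fin r → ℕ) : Type := PresentedGroup (relators m)

end Pool.Agent.Helper92.FL
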