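import Pool.Agent.Helper9.FL.Stm
import Pool.Agent.Helper9.GR.Plu
import Pool.Agent.Helper4.PP.Jets

/-!
Package FJETS (project FL of helper9), part 1: restriction to lines, the general point of the slice.
-/

set_option autoImplicit false
set_option linter.unusedSectionVars false

namespace Pool.Agent.Helper92.FLJ

open FF Module MvPolynomial Pool.Agent.Helper9.FJ Pool.Agent.Helper9.PP Pool.Agent.Helper9.GR
open Pool.Agent.Helper90.FJ Pool.Agent.Helper4.PP Pool.Agent.Helper9.FL

section line

variable {I : Type} [Fintype I] [DecidableEq I] {R : Type} [CommRing R]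

/-- the restriction to a line through the origin -/
noncomputable def ln (τ : I → R) : MvPolynomial I R →ₐ[R] Polynomial R :=
  aeval fun y => Polynomial.C (τ y) * Polynomial.X

theorem ln_X (τ : I → R) (i : I) : ln τ (X i) = Polynomial.C (τ i) * Polynomial.X := aeval_X _ _

theorem ln_C (τ : I → R) (c : R) : ln τ (C c) = Polynomial.C c := by
  unfold ln
  rw [aeval_C]
  rfl

theorem ln_coeff_zero (τ : I → R) (p : MvPolynomial I R) : (ln τ p).coeff 0 = coeff 0 p := by
  induction p using MvPolynomial.induction_on with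
  | C c => rw [ln_C, Polynomial.coeff_C_zero, coeff_zero_C]
  | add p q hp hq => rw [map_add, Polynomial.coeff_add, coeff_add, hp, hq]
  | mul_X p i hp =>
    rw [_root_.map_mul, ln_X, Polynomial.mul_coeff_zero, Polynomial.mul_coeff_zero,
      Polynomial.coeff_X_zero, mul_zero, mul_zero, coeff_mul_X', if_neg (by simp)]

theorem ln_coeff_one (τ : I → R) (p : MvPolynomial I R) :
    (ln τ p).coeff 1 = ∑ y, τ y * coeff (Finsupp.single y 1) p := by
  induction p using MvPolynomial.induction_on with
  | C c =>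
    rw [ln_C, Polynomial.coeff_C, if_neg one_ne_zero]
    symm
    refine Finset.sum_eq_zero fun y _ => ?_
    rw [coeff_C, if_neg, mul_zero]
    intro h
    have := DFunLike.congr_fun h y
    simp at this
  | add p q hp hq =>
    rw [map_add, Polynomial.coeff_add, hp, hq, ← Finset.sum_add_distrib]
    refine Finset.sum_congr rfl fun y _ => ?_
    rw [coeff_add, mul_add]
  | mul_X p i hp =>
    rw [_root_.map_mul, ln_X, ← mul_assoc, Polynomial.coeff_mul_X, Polynomial.mul_coeff_zero,
      Polynomial.coeff_C_zero, ln_coeff_zero, Finset.sum_eq_single i]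
    · rw [coeff_mul_X', if_pos (by simp), tsub_self, mul_comm]
    · intro y _ hy
      rw [coeff_mul_X', if_neg, mul_zero]
      intro h
      rw [Finsupp.mem_support_iff, Finsupp.single_apply] at h
      apply h
      rw [if_neg hy]
    · intro h; exact absurd (Finset.mem_univ _) h

theorem eval_ln (τ : I → R) (t : R) (p : MvPolynomial I R) :
    (ln τ p).eval t = eval (fun y => τ y * t) p := by
  induction p using MvPolynomial.induction_on with
  | C c => rw [ln_C, Polynomial.eval_C, eval_C]
  | add p q hp hq => rw [map_add, Polynomial.eval_add, map_add, hp, hq]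
  | mul_X p i hp =>
    rw [_root_.map_mul, ln_X, Polynomial.eval_mul, Polynomial.eval_mul, Polynomial.eval_C,
      Polynomial.eval_X, _root_.map_mul, hp, eval_X]

/-- the Taylor formula on a line through the origin -/
theorem taylor_line (τ : I → R) (t : R) (p : MvPolynomial I R) :
    ∃ c, eval (fun y => τ y * t) p =
      coeff 0 p + t * (∑ y, τ y * coeff (Finsupp.single y 1) p) + t ^ 2 * c := by
  refine ⟨(Polynomial.divX (Polynomial.divX (ln τ p))).eval t, ?_⟩
  rw [← eval_ln, ← ln_coeff_one, ← ln_coeff_zero τ p]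
  have h1 := congrArg (Polynomial.eval t) (Polynomial.divX_mul_X_add (ln τ p))
  have h2 := congrArg (Polynomial.eval t) (Polynomial.divX_mul_X_add (Polynomial.divX (ln τ p)))
  rw [Polynomial.eval_add, Polynomial.eval_mul, Polynomial.eval_X, Polynomial.eval_C] at h1 h2
  rw [Polynomial.coeff_divX, zero_add] at h2
  linear_combination -h1 - t * h2

variable {J : Type} [Fintype J] [DecidableEq J]

theorem coeff_zero_aeval (u : J → Polynomial R) (F : MvPolynomial J R) :
    (aeval u F).coeff 0 = eval (fun i => (u i).coeff 0) F := by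
  induction F using MvPolynomial.induction_on with
  | C c => rw [aeval_C, eval_C]; exact Polynomial.coeff_C_zero
  | add p q hp hq => rw [map_add, Polynomial.coeff_add, map_add, hp, hq]
  | mul_X p i hp =>
    rw [_root_.map_mul, aeval_X, Polynomial.mul_coeff_zero, _root_.map_mul, hp, eval_X]

/-- the chain rule -/
theorem coeff_one_aeval (u : J → Polynomial R) (F : MvPolynomial J R) :
    (aeval u F).coeff 1 = dd (fun i => (u i).coeff 0) (fun i => (u i).coeff 1) F := by
  induction F using MvPolynomial.induction_on with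
  | C c =>
    rw [aeval_C, dd_C]
    change (Polynomial.C c).coeff 1 = 0
    rw [Polynomial.coeff_C, if_neg one_ne_zero]
  | add p q hp hq => rw [map_add, Polynomial.coeff_add, hp, hq, dd_add]
  | mul_X p i hp =>
    rw [_root_.map_mul, aeval_X, dd_mul, dd_X, Polynomial.mul_coeff_one, hp, coeff_zero_aeval,
      eval_X]
    ring

end line

section fc

variable {R S : Type} [CommRing R] [CommRing S] {r : ℕ}

theorem fc_map (θ : R →+* S) (k : ℕ) (M : Matrix (Fin r) (Fin r) R) :
    fc k (M.map θ) = (fc k M).map θ := by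
  ext i c
  change (if h : (c : ℕ) < r then θ (M i ⟨c, h⟩) else 0) =
    θ (if h : (c : ℕ) < r then M i ⟨c, h⟩ else 0)
  split_ifs
  · rfl
  · exact (map_zero θ).symm

theorem fc_mul (k : ℕ) (A B : Matrix (Fin r) (Fin r) R) : fc k (A * B) = A * fc k B := by
  ext i c
  rw [Matrix.mul_apply]
  change (if h : (c : ℕ) < r then (A * B) i ⟨c, h⟩ else 0) =
    ∑ j, A i j * (if h : (c : ℕ) < r then B j ⟨c, h⟩ else 0)
  split_ifs
  · rfl
  · simp

theorem fc_add (k : ℕ) (A B : Matrix (Fin r) (Fin r) R) : fc k (A + B) = fc k A + fc k B := by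
  ext i c
  change (if h : (c : ℕ) < r then (A + B) i ⟨c, h⟩ else 0) =
    (if h : (c : ℕ) < r then A i ⟨c, h⟩ else 0) + (if h : (c : ℕ) < r then B i ⟨c, h⟩ else 0)
  split_ifs
  · rfl
  · simp

theorem fc_smul (k : ℕ) (a : R) (A : Matrix (Fin r) (Fin r) R) : fc k (a • A) = a • fc k A := by
  ext i c
  change (if h : (c : ℕ) < r then (a • A) i ⟨c, h⟩ else 0) =
    a * (if h : (c : ℕ) < r then A i ⟨c, h⟩ else 0)
  split_ifs
  · rfl
  · simp

end fc

section slice

variable {r l : ℕ} (k : Fin l → ℕ) (blk : Fin r → ℕ) {R S : Type} [CommRing R] [CommRing S]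

/-- the tangent vectors of the slice -/
def Em (τ : FrF k blk → R) : Matrix (Fin r) (Fin r) R :=
  Matrix.of fun a b => if h : blk a = blk b ∧ ∃ j, (b : ℕ) < k j ∧ k j ≤ (a : ℕ) then
    τ ⟨(a, b), h⟩ else 0

theorem Em_map (θ : R →+* S) (τ : FrF k blk → R) :
    (Em k blk τ).map θ = Em k blk fun y => θ (τ y) := by
  ext a b
  rw [Matrix.map_apply]
  unfold Em
  rw [Matrix.of_apply, Matrix.of_apply]
  split_ifs
  · rfl
  · exact map_zero θ

/-- the Plücker coordinates of the general point of the slice -/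
noncomputable def gp (Y : Matrix (Fin r) (Fin r) R) (x : Vr (fun j => Rk (k j) r)) :
    MvPolynomial (FrF k blk) R :=
  plu (fc (k x.1) (Y.map MvPolynomial.C * (1 + Em k blk fun y => X y))) x.2

theorem gp_hom (θ : MvPolynomial (FrF k blk) R →+* S) (Y : Matrix (Fin r) (Fin r) R)
    (x : Vr (fun j => Rk (k j) r)) : θ (gp k blk Y x) =
      plu (fc (k x.1) (Y.map (fun a => θ (C a)) * (1 + Em k blk fun y => θ (X y)))) x.2 := by
  unfold gp
  have h1 := congrFun (plu_map θ (fc (k x.1) (Y.map MvPolynomial.C *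
    (1 + Em k blk fun y => (X y : MvPolynomial (FrF k blk) R))))) x.2
  rw [← h1, ← fc_map, Matrix.map_mul, Matrix.map_add _ (map_add θ),
    Matrix.map_one _ (map_zero θ) (map_one θ), Em_map, Matrix.map_map]
  rfl

theorem gp_map (θ : R →+* S) (Y : Matrix (Fin r) (Fin r) R) (x : Vr (fun j => Rk (k j) r)) :
    MvPolynomial.map θ (gp k blk Y x) = gp k blk (Y.map θ) x := by
  rw [gp_hom]
  unfold gp
  have h1 : (fun a => MvPolynomial.map (σ := FrF k blk) θ (C a)) = fun a => C (θ a) := by
    funext a
    rw [map_C]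
  have h2 : (fun y => MvPolynomial.map (σ := FrF k blk) θ (X y)) = fun y => X y := by
    funext y
    rw [map_X]
  rw [h1, h2, Matrix.map_map]
  rfl

theorem gp_eval (z : FrF k blk → R) (Y : Matrix (Fin r) (Fin r) R)
    (x : Vr (fun j => Rk (k j) r)) : eval z (gp k blk Y x) =
      plu (fc (k x.1) (Y * (1 + Em k blk z))) x.2 := by
  rw [gp_hom]
  have h1 : (fun a => eval z (C a)) = fun a : R => a := by
    funext a
    rw [eval_C]
  have h2 : (fun y => eval z (X y)) = z := by
    funext y
    rw [eval_X]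
  rw [h1, h2]
  rfl

theorem Em_zero : Em k blk (fun _ => (0 : R)) = 0 := by
  ext a b
  unfold Em
  rw [Matrix.of_apply]
  split_ifs <;> rfl

theorem Em_mul (c : R) (τ : FrF k blk → R) : Em k blk (fun y => c * τ y) = c • Em k blk τ := by
  ext a b
  rw [Matrix.smul_apply, smul_eq_mul]
  unfold Em
  rw [Matrix.of_apply, Matrix.of_apply]
  split_ifs
  · rfl
  · rw [mul_zero]

theorem gp_coeff_zero (Y : Matrix (Fin r) (Fin r) R) (x : Vr (fun j => Rk (k j) r)) :
    coeff 0 (gp k blk Y x) = plu (fc (k x.1) Y) x.2 := by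
  have h1 := gp_eval k blk (fun _ => (0 : R)) Y x
  rw [Em_zero, add_zero, mul_one] at h1
  rw [← h1]
  have h2 : constantCoeff (R := R) (σ := FrF k blk) = eval (fun _ => (0 : R)) := by
    apply MvPolynomial.ringHom_ext
    · intro a
      rw [eval_C]
      exact constantCoeff_C _ _
    · intro i
      rw [eval_X]
      exact constantCoeff_X R i
  exact RingHom.congr_fun h2 _

theorem ln_gp (τ : FrF k blk → ℂ) (Y : Matrix (Fin r) (Fin r) ℂ)
    (x : Vr (fun j => Rk (k j) r)) :
    (ln τ (gp k blk Y x)).coeff 0 = plu (fc (k x.1) Y) x.2 ∧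
      (ln τ (gp k blk Y x)).coeff 1 = dplu (fc (k x.1) Y) (fc (k x.1) (Y * Em k blk τ)) x.2 := by
  constructor
  · rw [ln_coeff_zero, gp_coeff_zero]
  · have h1 := gp_hom k blk (ln τ).toRingHom Y x
    have h2 : (fun a => (ln τ).toRingHom (C a)) = fun a => Polynomial.C a := by
      funext a
      exact ln_C τ a
    have h3 : (fun y => (ln τ).toRingHom (X y)) = fun y => Polynomial.X * Polynomial.C (τ y) := by
      funext y
      rw [mul_comm]
      exact ln_X τ y
    rw [h2, h3, Em_mul] at h1
    change (((ln τ).toRingHom) (gp k blk Y x)).coeff 1 = _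
    rw [h1]
    unfold dplu
    congr 2
    rw [← fc_map, ← fc_map, ← fc_smul, ← fc_add, Matrix.mul_add, Matrix.mul_one, Matrix.mul_smul,
      Matrix.map_mul, Em_map]

theorem sl_eq {K : Type} [Field K] [Algebra ℂ K] (E : Bundle K r) (P : Place ℂ K)
    (Y : Matrix (Fin r) (Fin r) K) (s : MvPolynomial (Vr (fun j => Rk (k j) r)) K) :
    sl k blk E P Y s = aeval (gp k blk Y) (locM (fun j => wedge (k j) E) P s) := by
  have h1 : sl k blk E P Y = (aeval (gp k blk Y)).comp
      (aeval (fun x : Vr (fun j => Rk (k j) r) =>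
        ∑ i, C (((wedge (k x.1) E).B P)⁻¹ x.2 i) * X ⟨x.1, i⟩)) := by
    apply MvPolynomial.algHom_ext
    intro x
    unfold sl
    rw [aeval_X, AlgHom.comp_apply, aeval_X, map_sum]
    refine Finset.sum_congr rfl fun i _ => ?_
    rw [_root_.map_mul, aeval_C, aeval_X]
    rfl
  rw [h1]
  rfl

end slice

end Pool.Agent.Helper92.FLJ
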