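import Pool.Agent.Helper92.FL.FJet0

/-!
Package FJETS (project FL of helper9): the `1`-jets of the sections of a very ample line bundle.
-/

set_option autoImplicit false
set_option linter.unusedSectionVars false

namespace Pool.Agent.Helper92.FLJ

open FF Module MvPolynomial Pool.Agent.Helper9.FJ Pool.Agent.Helper9.PP Pool.Agent.Helper9.GR
open Pool.Agent.Helper90.FJ Pool.Agent.Helper4.PP Pool.Agent.Helper9.FL

section gen

variable {I J : Type} {R S : Type} [CommRing R] [CommRing S]

theorem map_aeval (θ : R →+* S) (G : J → MvPolynomial I R) (F : MvPolynomial J R) :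
    MvPolynomial.map θ (aeval G F) =
      aeval (fun x => MvPolynomial.map θ (G x)) (MvPolynomial.map θ F) := by
  induction F using MvPolynomial.induction_on with
  | C c =>
    rw [aeval_C, map_C, aeval_C, MvPolynomial.algebraMap_eq, MvPolynomial.algebraMap_eq, map_C]
  | add p q hp hq => rw [map_add, map_add, map_add, map_add, hp, hq]
  | mul_X p i hp =>
    rw [_root_.map_mul, _root_.map_mul, _root_.map_mul, _root_.map_mul, hp, aeval_X, map_X, aeval_X]

theorem coeff_zero_aeval' (G : J → MvPolynomial I R) (F : MvPolynomial J R) :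
    coeff 0 (aeval G F) = eval (fun x => coeff 0 (G x)) F := by
  change constantCoeff (aeval G F) = _
  induction F using MvPolynomial.induction_on with
  | C c => rw [aeval_C, eval_C, MvPolynomial.algebraMap_eq, constantCoeff_C]
  | add p q hp hq => rw [map_add, map_add, map_add, hp, hq]
  | mul_X p i hp =>
    rw [_root_.map_mul, _root_.map_mul, _root_.map_mul, hp, aeval_X, eval_X]
    rfl

theorem eval_aeval (z : I → R) (G : J → MvPolynomial I R) (F : MvPolynomial J R) :
    eval z (aeval G F) = eval (fun x => eval z (G x)) F := by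
  induction F using MvPolynomial.induction_on with
  | C c => rw [aeval_C, eval_C, MvPolynomial.algebraMap_eq, eval_C]
  | add p q hp hq => rw [map_add, map_add, map_add, hp, hq]
  | mul_X p i hp =>
    rw [_root_.map_mul, _root_.map_mul, _root_.map_mul, hp, aeval_X, eval_X]

end gen

section congr

variable {r l : ℕ} (k : Fin l → ℕ) {A : Type} [CommRing A]

theorem plu_fc_map {B : Type} [CommRing B] (θ : A →+* B) (M : Matrix (Fin r) (Fin r) A)
    (x : Vr (fun j => Rk (k j) r)) :
    θ (plu (fc (k x.1) M) x.2) = plu (fc (k x.1) (M.map θ)) x.2 := by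
  rw [fc_map, plu_map]

theorem plu_congr (c : A) (M M' Z : Matrix (Fin r) (Fin r) A) (h : M = M' + c • Z)
    (F : MvPolynomial (Vr (fun j => Rk (k j) r)) A) :
    ∃ d, eval (fun x => plu (fc (k x.1) M) x.2) F =
      eval (fun x => plu (fc (k x.1) M') x.2) F + c * d := by
  obtain ⟨π, hπ⟩ : ∃ π, π = Ideal.Quotient.mk (Ideal.span {c}) := ⟨_, rfl⟩
  have hc : π c = 0 := by
    rw [hπ]
    exact Ideal.Quotient.eq_zero_iff_mem.2 (Ideal.subset_span rfl)
  have h1 : M.map π = M'.map π := by
    rw [h]
    ext i j
    rw [Matrix.map_apply, Matrix.map_apply, Matrix.add_apply, Matrix.smul_apply, smul_eq_mul,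
      map_add, _root_.map_mul, hc, zero_mul, add_zero]
  have h2 : π (eval (fun x => plu (fc (k x.1) M) x.2) F) =
      π (eval (fun x => plu (fc (k x.1) M') x.2) F) := by
    rw [eval_map', eval_map']
    simp only [plu_fc_map, h1]
  rw [← sub_eq_zero, ← map_sub, hπ, Ideal.Quotient.eq_zero_iff_mem, Ideal.mem_span_singleton] at h2
  obtain ⟨d, hd⟩ := h2
  exact ⟨d, by rw [← hd]; ring⟩

end congr

/-- **The `1`-jets of the sections of a very ample line bundle.** -/
theorem fjets : S_FJETS := by
  intro K _ _ _ r l k hk hk0 hkr blk hblk E P t ht Y U hY hU hYU a N hVA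
  classical
  obtain ⟨YO, hYO⟩ : ∃ YO : Matrix (Fin r) (Fin r) P.O, YO.map (io P) = Y :=
    ⟨Matrix.of fun i j => ⟨Y i j, hY i j⟩, rfl⟩
  obtain ⟨UO, hUO⟩ : ∃ UO : Matrix (Fin r) (Fin r) P.O, UO.map (io P) = U :=
    ⟨Matrix.of fun i j => ⟨U i j, hU i j⟩, rfl⟩
  have hYUO : YO * UO = 1 := by
    have h1 : (YO * UO).map (io P) = (1 : Matrix (Fin r) (Fin r) P.O).map (io P) := by
      rw [Matrix.map_mul, hYO, hUO, hYU, Matrix.map_one _ (map_zero _) (map_one _)]
    exact Matrix.map_injective (io_injective P) h1
  obtain ⟨Yb, hYb⟩ : ∃ Yb, Yb = YO.map (theta P) := ⟨_, rfl⟩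
  have hYbU : Yb * UO.map (theta P) = 1 := by
    rw [hYb, ← Matrix.map_mul, hYUO, Matrix.map_one _ (map_zero _) (map_one _)]
  have hdet : Yb.det ≠ 0 := by
    intro h0
    have := congrArg Matrix.det hYbU
    rw [Matrix.det_mul, h0, zero_mul, Matrix.det_one] at this
    exact zero_ne_one this
  have hct : (Yb.map (cst P)).map (theta P) = Yb := by
    ext i j
    exact theta_cst P _
  have hca : ∀ M : Matrix (Fin r) (Fin r) ℂ, (M.map (cst P)).map (io P) = M.map (algebraMap ℂ K) :=
    fun M => rfl
  -- the lift
  have hlift : ∀ s, IsSecM (fun j => wedge (k j) E) a N s →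
      ∃ F : MvPolynomial (Vr (fun j => Rk (k j) r)) P.O,
        MvPolynomial.map (io P) F = C (t ^ N P) * locM (fun j => wedge (k j) E) P s := by
    intro s hs
    apply exists_lift
    intro α
    rw [coeff_C_mul]
    have h2 : Ge P (N P) (t ^ (N P)) := Or.inr (by rw [P.ord_zpow, ht]; simp)
    have := ge_mul h2 (hs.2 P α)
    rwa [add_neg_cancel] at this
  obtain ⟨G, hG⟩ : ∃ G, G = gp k blk YO := ⟨_, rfl⟩
  obtain ⟨T, hTd⟩ : ∃ T : MvPolynomial (Vr (fun j => Rk (k j) r)) K → MvPolynomial (FrF k blk) K,
    T = fun s => C (t ^ N P) * sl k blk E P Y s := ⟨_, rfl⟩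
  have hT : ∀ s (F : MvPolynomial (Vr (fun j => Rk (k j) r)) P.O),
      MvPolynomial.map (io P) F = C (t ^ N P) * locM (fun j => wedge (k j) E) P s →
      MvPolynomial.map (io P) (aeval G F) = T s := by
    intro s F hF
    rw [map_aeval, hF, hG, hTd]
    simp only [gp_map, hYO]
    rw [_root_.map_mul, aeval_C, sl_eq]
    rfl
  have hTθ : ∀ F : MvPolynomial (Vr (fun j => Rk (k j) r)) P.O,
      MvPolynomial.map (theta P) (aeval G F) = aeval (gp k blk Yb) (MvPolynomial.map (theta P) F) := by
    intro F
    rw [map_aeval, hG]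
    simp only [gp_map, ← hYb]
  have hc : ∀ s (F : MvPolynomial (Vr (fun j => Rk (k j) r)) P.O) α,
      MvPolynomial.map (io P) F = C (t ^ N P) * locM (fun j => wedge (k j) E) P s →
      coeff α (T s) = io P (coeff α (aeval G F)) := by
    intro s F α hF
    rw [← hT s F hF, coeff_map]
  -- the values
  have hplF : ∀ M : Matrix (Fin r) (Fin r) P.O, plF k E P (M.map (io P)) =
      (bm fun j => ((wedge (k j) E).B P)⁻¹).mulVec (fun x => io P (plu (fc (k x.1) M) x.2)) := by
    intro M
    funext x
    rw [bm_mulVec]
    unfold plF plp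
    congr 1
    funext i
    exact (plu_fc_map k (io P) M ⟨x.1, i⟩).symm
  have hval : ∀ s (F : MvPolynomial (Vr (fun j => Rk (k j) r)) P.O) (M : Matrix (Fin r) (Fin r) P.O),
      MvPolynomial.map (io P) F = C (t ^ N P) * locM (fun j => wedge (k j) E) P s →
      t ^ N P * eval (plF k E P (M.map (io P))) s =
        io P (eval (fun x => plu (fc (k x.1) M) x.2) F) := by
    intro s F M hF
    rw [eval_map', hF, _root_.map_mul, eval_C, locM_eq, eval_ps, hplF]
  have hval0 : ∀ s (F : MvPolynomial (Vr (fun j => Rk (k j) r)) P.O),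
      MvPolynomial.map (io P) F = C (t ^ N P) * locM (fun j => wedge (k j) E) P s →
      (Ge P (1 - N P) (eval (plF k E P (Yb.map (algebraMap ℂ K))) s) ↔
        theta P (coeff 0 (aeval G F)) = 0) := by
    intro s F hF
    have h1 : theta P (coeff 0 (aeval G F)) =
        theta P (eval (fun x => plu (fc (k x.1) (Yb.map (cst P))) x.2) F) := by
      rw [← coeff_map, hTθ, coeff_zero_aeval', eval_map']
      simp only [plu_fc_map, hct, gp_coeff_zero]
    rw [ge_scale ht, ← hca, hval s F _ hF, ← theta_eq_zero, h1]
  have hTadd : ∀ s s', T (s + s') = T s + T s' := by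
    intro s s'
    rw [hTd]
    simp only
    rw [map_add, mul_add]
  have hTsmul : ∀ (c : ℂ) s, T (C (algebraMap ℂ K c) * s) = C (algebraMap ℂ K c) * T s := by
    intro c s
    rw [hTd]
    simp only
    rw [_root_.map_mul]
    have : sl k blk E P Y (C (algebraMap ℂ K c)) = C (algebraMap ℂ K c) := by
      unfold sl
      rw [aeval_C]
      rfl
    rw [this]
    ring
  have hT0 : T 0 = 0 := by
    rw [hTd]
    simp only
    rw [_root_.map_zero, mul_zero]
  -- the possible jets
  let W : Submodule ℂ (Option (FrF k blk) → ℂ) :=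
    { carrier := {w | ∃ s, IsSecM (fun j => wedge (k j) E) a N s ∧
        Ge P 2 (coeff 0 (T s) - algebraMap ℂ K (w none) * t) ∧
        ∀ x : FrF k blk, Ge P 1 (coeff (Finsupp.single x 1) (T s) -
          algebraMap ℂ K (w (some x)))}
      zero_mem' := by
        refine ⟨0, isSecM_zero _ a N, ?_, fun x => ?_⟩
        · rw [hT0, coeff_zero, Pi.zero_apply, _root_.map_zero, zero_mul, sub_zero]
          exact Pool.Agent.Helper9.FJ.ge_zero
        · rw [hT0, coeff_zero, Pi.zero_apply, _root_.map_zero, sub_zero]
          exact Pool.Agent.Helper9.FJ.ge_zero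
      add_mem' := by
        rintro w w' ⟨s, hs, h1, h2⟩ ⟨s', hs', h1', h2'⟩
        refine ⟨s + s', isSecM_add hs hs', ?_, fun x => ?_⟩
        · rw [hTadd, coeff_add, Pi.add_apply, map_add]
          have := ge_add h1 h1'
          convert this using 1
          ring
        · rw [hTadd, coeff_add, Pi.add_apply, map_add]
          have := ge_add (h2 x) (h2' x)
          convert this using 1
          ring
      smul_mem' := by
        rintro c w ⟨s, hs, h1, h2⟩
        have hc : Ge P 0 (algebraMap ℂ K c) := P.reg_const c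
        refine ⟨C (algebraMap ℂ K c) * s, isSecM_smul hs c, ?_, fun x => ?_⟩
        · rw [hTsmul, coeff_C_mul, Pi.smul_apply, smul_eq_mul, (algebraMap ℂ K).map_mul]
          have := ge_mul hc h1
          rw [zero_add] at this
          convert this using 1
          ring
        · rw [hTsmul, coeff_C_mul, Pi.smul_apply, smul_eq_mul, (algebraMap ℂ K).map_mul]
          have := ge_mul hc (h2 x)
          rw [zero_add] at this
          convert this using 1
          ring }
  have hW : W = ⊤ := by
    by_contra hne
    obtain ⟨φ, hφ0, hφ⟩ := Submodule.exists_le_ker_of_lt_top W (lt_top_iff_ne_top.2 hne)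
    obtain ⟨τ, hτd⟩ : ∃ τ : Option (FrF k blk) → ℂ, τ = fun k => φ (fun j => if k = j then 1 else 0) :=
      ⟨_, rfl⟩
    have hφτ : ∀ w, φ w = ∑ k, w k * τ k := fun w => by
      rw [hτd]
      exact LinearMap.pi_apply_eq_sum_univ φ w
    have hτ : ∃ k, τ k ≠ 0 := by
      by_contra hc
      push Not at hc
      apply hφ0
      refine LinearMap.ext fun w => ?_
      rw [hφτ, LinearMap.zero_apply]
      exact Finset.sum_eq_zero fun k _ => by rw [hc, mul_zero]
    -- the functional kills the jets
    have key : ∀ s (F : MvPolynomial (Vr (fun j => Rk (k j) r)) P.O),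
        IsSecM (fun j => wedge (k j) E) a N s →
        MvPolynomial.map (io P) F = C (t ^ N P) * locM (fun j => wedge (k j) E) P s →
        ∀ b, coeff 0 (aeval G F) = tO P t ht * b →
        theta P b * τ none + ∑ y : FrF k blk, τ (some y) *
          theta P (coeff (Finsupp.single y 1) (aeval G F)) = 0 := by
      intro s F hs hF b hb
      obtain ⟨w, hwd⟩ : ∃ w : Option (FrF k blk) → ℂ, w = fun k => k.elim (theta P b)
        (fun y => theta P (coeff (Finsupp.single y 1) (aeval G F))) := ⟨_, rfl⟩
      have hw0 : w none = theta P b := by rw [hwd]; rfl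
      have hw1 : ∀ y, w (some y) = theta P (coeff (Finsupp.single y 1) (aeval G F)) := by
        intro y; rw [hwd]; rfl
      have hw : w ∈ W := by
        refine ⟨s, hs, ?_, fun x => ?_⟩
        · rw [hc s F _ hF, hb]
          have h1 : theta P (b - cst P (theta P b)) = 0 := by
            rw [map_sub, theta_cst, sub_self]
          obtain ⟨b', hb'⟩ := div_t ht h1
          have h2 : io P (tO P t ht * b) - algebraMap ℂ K (w none) * t =
              io P (tO P t ht ^ 2 * b') := by
            rw [hw0, pow_two, mul_assoc, ← hb', _root_.map_mul, _root_.map_mul, map_sub]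
            change t * io P b - algebraMap ℂ K (theta P b) * t =
              t * (io P b - algebraMap ℂ K (theta P b))
            ring
          rw [h2]
          exact ge_t2_mul ht b'
        · rw [hc s F _ hF, hw1]
          have h1 : theta P (coeff (Finsupp.single x 1) (aeval G F) -
              cst P (theta P (coeff (Finsupp.single x 1) (aeval G F)))) = 0 := by
            rw [map_sub, theta_cst, sub_self]
          rw [theta_eq_zero, map_sub] at h1
          exact h1
      have h1 := hφ hw
      rw [LinearMap.mem_ker, hφτ, Fintype.sum_option, hw0] at h1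
      rw [← h1]
      congr 1
      refine Finset.sum_congr rfl fun y _ => ?_
      rw [hw1, mul_comm]
    by_cases h0 : τ none = 0
    · -- a vertical tangent vector
      obtain ⟨k0, hk0⟩ := hτ
      obtain ⟨x0, rfl⟩ : ∃ x0 : FrF k blk, k0 = some x0 := by
        rcases k0 with _ | x0
        · exact absurd h0 hk0
        · exact ⟨x0, rfl⟩
      obtain ⟨⟨⟨a0, b0⟩, hab0⟩, hx0⟩ : ∃ y, y = x0 := ⟨x0, rfl⟩
      obtain ⟨j, hj1, hj2⟩ := hab0.2
      simp only at hj1 hj2
      have hE : Em k blk (fun y => τ (some y)) a0 b0 ≠ 0 := by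
        unfold Em
        rw [Matrix.of_apply, dif_pos hab0, hx0]
        exact hk0
      obtain ⟨s, hs, h1, h2⟩ := hVA.2.2.2 P Yb (Yb * Em k blk fun y => τ (some y)) hdet ⟨j, by
        rintro ⟨g, hg⟩
        apply hE
        have h3 : fc (k j) (Em k blk fun y => τ (some y)) =
            fc (k j) (1 : Matrix (Fin r) (Fin r) ℂ) * g := by
          have h4 : UO.map (theta P) * Yb = 1 := mul_eq_one_comm.1 hYbU
          have h5 := congrArg (fun M => UO.map (theta P) * M) hg
          rw [fc_mul, ← Matrix.mul_assoc, h4, Matrix.one_mul] at h5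
          rw [h5, ← Matrix.mul_assoc, ← fc_mul, h4]
        have h4 := congrFun (congrFun h3 a0) ⟨b0, hj1⟩
        have h5 : fc (k j) (Em k blk fun y => τ (some y)) a0 ⟨b0, hj1⟩ =
            Em k blk (fun y => τ (some y)) a0 b0 := by
          change (if h : (b0 : ℕ) < r then _ else _) = _
          rw [dif_pos b0.2]
        rw [← h5, h4, Matrix.mul_apply]
        refine Finset.sum_eq_zero fun c _ => ?_
        have h6 : fc (k j) (1 : Matrix (Fin r) (Fin r) ℂ) a0 c = 0 := by
          change (if h : (c : ℕ) < r then (1 : Matrix (Fin r) (Fin r) ℂ) a0 ⟨c, h⟩ else 0) = 0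
          split_ifs with h
          · rw [Matrix.one_apply_ne]
            intro h7
            have := congrArg Fin.val h7
            simp only at this
            have := c.2
            omega
          · rfl
        rw [h6, zero_mul]⟩
      obtain ⟨F, hF⟩ := hlift s hs
      rw [hval0 s F hF] at h1
      obtain ⟨b, hb⟩ := div_t ht h1
      have h3 := key s F hs hF b hb
      rw [h0, mul_zero, zero_add] at h3
      have e4 : ∑ y : FrF k blk, τ (some y) * theta P (coeff (Finsupp.single y 1) (aeval G F)) =
          ∑ y : FrF k blk, τ (some y) *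
            coeff (Finsupp.single y 1) (MvPolynomial.map (theta P) (aeval G F)) :=
        Finset.sum_congr rfl fun y _ => by rw [coeff_map]
      rw [e4, ← ln_coeff_one (fun y => τ (some y)), hTθ] at h3
      have h5 : ln (fun y => τ (some y)) (aeval (gp k blk Yb) (MvPolynomial.map (theta P) F)) =
          aeval (fun x => ln (fun y => τ (some y)) (gp k blk Yb x)) (MvPolynomial.map (theta P) F) := by
        have h6 : (ln (fun y : FrF k blk => τ (some y))).comp (aeval (gp k blk Yb)) =
            aeval (fun x => ln (fun y => τ (some y)) (gp k blk Yb x)) := by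
          apply MvPolynomial.algHom_ext
          intro x
          rw [AlgHom.comp_apply, aeval_X, aeval_X]
        exact AlgHom.congr_fun h6 _
      have e5 : (fun x : Vr (fun j => Rk (k j) r) =>
          (ln (fun y => τ (some y)) (gp k blk Yb x)).coeff 0) =
          fun x => plu (fc (k x.1) Yb) x.2 :=
        funext fun x => (ln_gp k blk _ Yb x).1
      have e6 : (fun x : Vr (fun j => Rk (k j) r) =>
          (ln (fun y => τ (some y)) (gp k blk Yb x)).coeff 1) =
          fun x => dplu (fc (k x.1) Yb) (fc (k x.1) (Yb * Em k blk fun y => τ (some y))) x.2 :=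
        funext fun x => (ln_gp k blk _ Yb x).2
      rw [h5, coeff_one_aeval, e5, e6] at h3
      apply h2
      change Ge P (1 - N P) (dd (plF k E P (Yb.map (algebraMap ℂ K)))
        (ptM (fun j => wedge (k j) E) P fun j => dplu (fc (k j) Yb)
          (fc (k j) (Yb * Em k blk fun y => τ (some y)))) s)
      rw [ge_scale ht]
      have h4 : t ^ N P * dd (plF k E P (Yb.map (algebraMap ℂ K)))
          (ptM (fun j => wedge (k j) E) P fun j => dplu (fc (k j) Yb)
          (fc (k j) (Yb * Em k blk fun y => τ (some y)))) s =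
          io P (dd (fun x => plu (fc (k x.1) (Yb.map (cst P))) x.2) (fun x => cst P (dplu (fc (k x.1) Yb)
          (fc (k x.1) (Yb * Em k blk fun y => τ (some y))) x.2)) F) := by
        rw [dd_map, hF, dd_mul, dd_C, zero_mul, zero_add, eval_C, locM_eq, dd_ps, ← hca, hplF, ptM_eq]
        rfl
      rw [h4, ← theta_eq_zero, dd_map]
      simp only [theta_cst, plu_fc_map, hct]
      exact h3
    · -- a transversal tangent vector
      obtain ⟨τ', hτ'⟩ : ∃ τ' : FrF k blk → ℂ, τ' = fun y => (τ none)⁻¹ * τ (some y) := ⟨_, rfl⟩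
      have h1 : ∀ i j, ∃ y, YO i j - cst P (Yb i j) = tO P t ht * y := by
        intro i j
        apply div_t ht
        rw [map_sub, theta_cst, sub_eq_zero, hYb]
        rfl
      choose y1 hy1 using h1
      have h2 : ∀ i j, ∃ z, y1 i j - cst P (theta P (y1 i j)) = tO P t ht * z := by
        intro i j
        apply div_t ht
        rw [map_sub, theta_cst, sub_self]
      choose z1 hz1 using h2
      obtain ⟨Y1, hY1⟩ : ∃ Y1 : Matrix (Fin r) (Fin r) P.O, Y1 = Matrix.of y1 := ⟨_, rfl⟩
      obtain ⟨Z1, hZ1⟩ : ∃ Z1 : Matrix (Fin r) (Fin r) P.O, Z1 = Matrix.of z1 := ⟨_, rfl⟩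
      have e1 : YO = Yb.map (cst P) + tO P t ht • Y1 := by
        ext1 i j
        rw [Matrix.add_apply, Matrix.smul_apply, smul_eq_mul, hY1, Matrix.of_apply, ← hy1,
          Matrix.map_apply]
        ring
      have e2 : Y1 = (Y1.map (theta P)).map (cst P) + tO P t ht • Z1 := by
        ext1 i j
        rw [Matrix.add_apply, Matrix.smul_apply, smul_eq_mul, hZ1, Matrix.of_apply, ← hz1,
          Matrix.map_apply, Matrix.map_apply, hY1, Matrix.of_apply]
        ring
      obtain ⟨H, hH⟩ : ∃ H, H = Y1.map (theta P) + Yb * Em k blk τ' := ⟨_, rfl⟩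
      have e3 : H.map (cst P) = (Y1.map (theta P)).map (cst P) +
          Yb.map (cst P) * Em k blk (fun y => cst P (τ' y)) := by
        rw [hH, Matrix.map_add _ (map_add (cst P)), Matrix.map_mul, Em_map]
      obtain ⟨s, hs, h3, h4⟩ := hVA.2.2.1 P t Yb H ht hdet
      obtain ⟨F, hF⟩ := hlift s hs
      rw [hval0 s F hF] at h3
      obtain ⟨b, hb⟩ := div_t ht h3
      have h5 := key s F hs hF b hb
      apply h4
      rw [ge_scale ht]
      have h6 : Yb.map (algebraMap ℂ K) + t • H.map (algebraMap ℂ K) =
          (Yb.map (cst P) + tO P t ht • H.map (cst P)).map (io P) := by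
        ext i j
        rfl
      rw [h6, hval s F _ hF]
      have h7 : YO * (1 + Em k blk fun y => cst P (τ' y) * tO P t ht) =
          (Yb.map (cst P) + tO P t ht • H.map (cst P)) +
            (tO P t ht ^ 2) • (Z1 + Y1 * Em k blk fun y => cst P (τ' y)) := by
        have h8 : (Em k blk fun y => cst P (τ' y) * tO P t ht) =
            tO P t ht • Em k blk fun y => cst P (τ' y) := by
          rw [← Em_mul]
          congr 1
          funext y
          ring
        rw [h8, Matrix.mul_add, Matrix.mul_one, Matrix.mul_smul, e3]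
        generalize hEE : (Em k blk fun y => cst P (τ' y)) = EE
        have h9 : YO * EE = Yb.map (cst P) * EE + tO P t ht • (Y1 * EE) := by
          conv_lhs => rw [e1]
          rw [Matrix.add_mul, Matrix.smul_mul]
        have h10 : YO = Yb.map (cst P) + tO P t ht • ((Y1.map (theta P)).map (cst P)) +
            (tO P t ht ^ 2) • Z1 := by
          conv_lhs => rw [e1, e2]
          rw [smul_add, smul_smul, pow_two, add_assoc]
        rw [h9]
        conv_lhs => rw [h10]
        rw [smul_add, smul_add, smul_add, smul_smul, ← pow_two]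
        abel
      obtain ⟨d, hd⟩ := plu_congr k (tO P t ht ^ 2) _ _ _ h7 F
      obtain ⟨c2, hc2⟩ := taylor_line (fun y => cst P (τ' y)) (tO P t ht) (aeval G F)
      rw [eval_aeval, hG] at hc2
      simp only [gp_eval] at hc2
      rw [hd, ← hG, hb] at hc2
      have h8 : theta P (b + ∑ y, cst P (τ' y) * coeff (Finsupp.single y 1) (aeval G F)) = 0 := by
        rw [map_add, map_sum]
        simp only [_root_.map_mul, theta_cst]
        have h9 : ∑ y, τ' y * theta P (coeff (Finsupp.single y 1) (aeval G F)) =
            (τ none)⁻¹ * ∑ y : FrF k blk, τ (some y) *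
              theta P (coeff (Finsupp.single y 1) (aeval G F)) := by
          rw [Finset.mul_sum, hτ']
          exact Finset.sum_congr rfl fun k _ => mul_assoc _ _ _
        rw [h9]
        field_simp
        linear_combination h5
      obtain ⟨b2, hb2⟩ := div_t ht h8
      have h10 : eval (fun x : Vr (fun j => Rk (k j) r) =>
          plu (fc (k x.1) (Yb.map (cst P) + tO P t ht • H.map (cst P))) x.2) F =
          tO P t ht ^ 2 * (b2 + c2 - d) := by
        linear_combination hc2 + tO P t ht * hb2
      rw [h10]
      exact ge_t2_mul ht _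
  -- the end
  obtain ⟨s0, hs0, hs0'⟩ := hVA.1 P Yb hdet
  obtain ⟨F0, hF0⟩ := hlift s0 hs0
  rw [hval0 s0 F0 hF0] at hs0'
  have hmem : ∀ k0 : Option (FrF k blk), (Pi.single k0 1 : Option (FrF k blk) → ℂ) ∈ W := by
    intro k0
    rw [hW]
    exact Submodule.mem_top
  choose s hs h1 h2 using hmem
  refine ⟨C (algebraMap ℂ K (theta P (coeff 0 (aeval G F0)))⁻¹) * s0, s, isSecM_smul hs0 _, hs,
    ?_⟩
  have hTT : ∀ s, C (t ^ N P) * sl k blk E P Y s = T s := by
    intro s
    rw [hTd]
  simp only [hTT]
  refine ⟨?_, ⟨?_, fun x => ?_⟩, fun y => ⟨?_, fun x => ?_⟩⟩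
  · rw [hTsmul, coeff_C_mul, hc s0 F0 _ hF0]
    have h3 : theta P (cst P (theta P (coeff 0 (aeval G F0)))⁻¹ *
        coeff 0 (aeval G F0) - 1) = 0 := by
      rw [map_sub, _root_.map_mul, theta_cst, _root_.map_one, inv_mul_cancel₀ hs0', sub_self]
    rw [theta_eq_zero, map_sub, _root_.map_mul, _root_.map_one] at h3
    exact h3
  · have := h1 none
    rw [Pi.single_eq_same, _root_.map_one, one_mul] at this
    exact this
  · have := h2 none x
    rw [Pi.single_eq_of_ne (by simp), _root_.map_zero, sub_zero] at this
    exact this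
  · have := h1 (some y)
    rw [Pi.single_eq_of_ne (by simp), _root_.map_zero, zero_mul, sub_zero] at this
    exact this
  · have := h2 (some y) x
    by_cases hxy : x = y
    · subst hxy
      rw [Pi.single_eq_same, _root_.map_one] at this
      rw [if_pos rfl]
      exact this
    · rw [Pi.single_eq_of_ne (by simpa using hxy), _root_.map_zero] at this
      rw [if_neg hxy]
      exact this

end Pool.Agent.Helper92.FLJ
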