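import Pool.Agent.Helper92.FL.Grp
import Pool.Agent.Helper92.FL.Defs

/-!
Zariski closed groups with a Zariski dense unitary subgroup.
-/

open Matrix NormedSpace Filter Topology
open scoped ComplexConjugate ComplexOrder

set_option linter.unusedSectionVars false

namespace Pool.Agent.Helper92.FL

variable {n : ℕ}

/-- the character `λ ↦ (z ↦ e^(z λ))` -/
noncomputable def chr : Multiplicative ℝ →* (ℂ → ℂ) where
  toFun l z := Complex.exp (z * (Multiplicative.toAdd l : ℝ))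
  map_one' := by
    funext z
    simp
  map_mul' a b := by
    funext z
    simp only [Pi.mul_apply, toAdd_mul]
    rw [← Complex.exp_add]
    congr 1
    push_cast
    ring

/-- linear combinations of exponentials -/
noncomputable def ExpAlg : Subalgebra ℂ (ℂ → ℂ) :=
  (AddMonoidAlgebra.lift ℂ (ℂ → ℂ) ℝ chr).range

lemma exp_mem (l : ℝ) : (fun z : ℂ => Complex.exp (z * l)) ∈ ExpAlg := by
  refine ⟨AddMonoidAlgebra.single l 1, ?_⟩
  show (AddMonoidAlgebra.lift ℂ (ℂ → ℂ) ℝ chr) (AddMonoidAlgebra.single l 1) = _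
  rw [AddMonoidAlgebra.lift_single, one_smul]
  rfl

/-- the restriction to the natural numbers -/
noncomputable def chrN (l : ℝ) : Multiplicative ℕ →* ℂ where
  toFun k := Complex.exp ((Multiplicative.toAdd k : ℕ) * (l : ℂ))
  map_one' := by simp
  map_mul' a b := by
    rw [toAdd_mul, ← Complex.exp_add]
    congr 1
    push_cast
    ring

lemma chrN_inj : Function.Injective chrN := by
  intro a b h
  have h1 := congrArg (fun f : Multiplicative ℕ →* ℂ => f (Multiplicative.ofAdd 1)) h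
  have h2 : Complex.exp (((1 : ℕ) : ℂ) * (a : ℂ)) = Complex.exp (((1 : ℕ) : ℂ) * (b : ℂ)) := h1
  rw [Nat.cast_one, one_mul, one_mul, ← Complex.ofReal_exp, ← Complex.ofReal_exp] at h2
  exact Real.exp_injective (by exact_mod_cast h2)

lemma expAlg_zero {φ : ℂ → ℂ} (h : φ ∈ ExpAlg) (h0 : ∀ k : ℕ, φ k = 0) : φ = 0 := by
  obtain ⟨c, rfl⟩ := h
  have hli : LinearIndependent ℂ
      (fun l : ℝ => ((chrN l : Multiplicative ℕ →* ℂ) : Multiplicative ℕ → ℂ)) :=
    (linearIndependent_monoidHom (Multiplicative ℕ) ℂ).comp chrN chrN_inj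
  have hc : c.coeff = 0 := by
    apply linearIndependent_iff.1 hli
    funext k
    have h1 := h0 (Multiplicative.toAdd k)
    change (AddMonoidAlgebra.lift ℂ (ℂ → ℂ) ℝ chr) c _ = 0 at h1
    rw [AddMonoidAlgebra.lift_apply] at h1
    rw [Finsupp.linearCombination_apply, Finsupp.sum, Finset.sum_apply]
    rw [Finsupp.sum, Finset.sum_apply] at h1
    exact h1
  have hc' : c = 0 := by
    ext l
    rw [hc]
    rfl
  rw [hc', map_zero]

/-! ### polynomial functions -/

lemma pev_C (a : ℂ) (A : M n) : pev (MvPolynomial.C a) A = a := by simp [pev]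

lemma pev_add (f g : MvPolynomial (Fin n × Fin n) ℂ) (A : M n) :
    pev (f + g) A = pev f A + pev g A := by simp [pev]

lemma pev_mul (f g : MvPolynomial (Fin n × Fin n) ℂ) (A : M n) :
    pev (f * g) A = pev f A * pev g A := by simp [pev]

lemma pev_X (p : Fin n × Fin n) (A : M n) : pev (MvPolynomial.X p) A = A p.1 p.2 := by simp [pev]

lemma pev_continuous (f : MvPolynomial (Fin n × Fin n) ℂ) : Continuous (pev f) := by
  induction f using MvPolynomial.induction_on with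
  | C a => simp only [funext (pev_C a)]; exact continuous_const
  | add f g hf hg => simp only [funext (pev_add f g)]; exact hf.add hg
  | mul_X f p hf =>
    simp only [funext (pev_mul f _), pev_X]
    exact hf.mul (continuous_id.matrix_elem _ _)

def PolyFn (φ : M n → ℂ) : Prop := ∃ f : MvPolynomial (Fin n × Fin n) ℂ, ∀ A, φ A = pev f A

lemma PolyFn.const (a : ℂ) : PolyFn (fun _ : M n => a) := ⟨MvPolynomial.C a, fun A => (pev_C a A).symm⟩

lemma PolyFn.entry (i j : Fin n) : PolyFn (fun A : M n => A i j) :=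
  ⟨MvPolynomial.X (i, j), fun A => (pev_X (i, j) A).symm⟩

lemma PolyFn.add {φ ψ : M n → ℂ} (hφ : PolyFn φ) (hψ : PolyFn ψ) : PolyFn (fun A => φ A + ψ A) := by
  obtain ⟨f, hf⟩ := hφ
  obtain ⟨g, hg⟩ := hψ
  exact ⟨f + g, fun A => by
    show φ A + ψ A = _
    rw [pev_add, hf, hg]⟩

lemma PolyFn.mul {φ ψ : M n → ℂ} (hφ : PolyFn φ) (hψ : PolyFn ψ) : PolyFn (fun A => φ A * ψ A) := by
  obtain ⟨f, hf⟩ := hφ
  obtain ⟨g, hg⟩ := hψ
  exact ⟨f * g, fun A => by
    show φ A * ψ A = _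
    rw [pev_mul, hf, hg]⟩

lemma PolyFn.sum {κ : Type} (s : Finset κ) {φ : κ → M n → ℂ} (h : ∀ i ∈ s, PolyFn (φ i)) :
    PolyFn (fun A => ∑ i ∈ s, φ i A) := by
  classical
  induction s using Finset.induction_on with
  | empty => simpa using PolyFn.const 0
  | insert a s ha ih =>
    simp only [Finset.sum_insert ha]
    exact (h a (Finset.mem_insert_self a s)).add (ih fun i hi => h i (Finset.mem_insert_of_mem hi))

lemma polyFn_conj (f : MvPolynomial (Fin n × Fin n) ℂ) (B C : M n) :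
    PolyFn (fun A => conj (pev f (B * Aᴴ * C))) := by
  induction f using MvPolynomial.induction_on with
  | C a => simpa only [pev_C] using PolyFn.const (conj a)
  | add f g hf hg => simpa only [pev_add, map_add] using hf.add hg
  | mul_X f p hf =>
    simp only [pev_mul, pev_X, map_mul]
    apply hf.mul
    have : ∀ A : M n, conj ((B * Aᴴ * C) p.1 p.2) =
        ∑ l, (∑ k, conj (B p.1 k) * A l k) * conj (C l p.2) := by
      intro A
      rw [mul_apply, map_sum]
      refine Finset.sum_congr rfl fun l _ => ?_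
      rw [map_mul, mul_apply, map_sum]
      congr 1
      refine Finset.sum_congr rfl fun k _ => ?_
      rw [map_mul, conjTranspose_apply, Complex.star_def, Complex.conj_conj]
    simp only [this]
    exact PolyFn.sum _ fun l _ => (PolyFn.sum _ fun k _ => (PolyFn.const _).mul (PolyFn.entry _ _)).mul
      (PolyFn.const _)

lemma expAlg_pev (f : MvPolynomial (Fin n × Fin n) ℂ) {Φ : ℂ → M n}
    (hΦ : ∀ i j, (fun z => Φ z i j) ∈ ExpAlg) : (fun z => pev f (Φ z)) ∈ ExpAlg := by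
  induction f using MvPolynomial.induction_on with
  | C a =>
    simp only [pev_C]
    exact ExpAlg.algebraMap_mem a
  | add f g hf hg => simp only [pev_add]; exact ExpAlg.add_mem hf hg
  | mul_X f p hf => simp only [pev_mul, pev_X]; exact ExpAlg.mul_mem hf (hΦ _ _)

lemma expAlg_entry {X : M n} (hX : X.IsHermitian) (B C : M n) (i j : Fin n) :
    (fun z : ℂ => (B * exp (z • X) * C) i j) ∈ ExpAlg := by
  obtain ⟨U, x, hU, rfl⟩ := diag_rep hX
  have : ∀ z : ℂ, (B * exp (z • (U * dg x * Uᴴ)) * C) i j =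
      ∑ p, ((B * U) i p * (Uᴴ * C) p j) * Complex.exp (z * x p) := by
    intro z
    rw [exp_smul_rep hU]
    have h1 : B * (U * diagonal (fun i => Complex.exp (z * x i)) * Uᴴ) * C =
        ((B * U) * diagonal (fun i => Complex.exp (z * x i))) * (Uᴴ * C) := by
      simp only [Matrix.mul_assoc]
    rw [h1, mul_apply]
    refine Finset.sum_congr rfl fun p _ => ?_
    rw [mul_diagonal]
    ring
  simp only [this]
  have h2 : (fun z : ℂ => ∑ p, ((B * U) i p * (Uᴴ * C) p j) * Complex.exp (z * x p)) =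
      ∑ p, (((B * U) i p * (Uᴴ * C) p j) • fun z : ℂ => Complex.exp (z * x p)) := by
    funext z
    simp
  rw [h2]
  exact ExpAlg.sum_mem fun p _ => ExpAlg.smul_mem (exp_mem _) _

/-- the conjugate of `G` by `h` -/
def cset (G : Subgroup (GL (Fin n) ℂ)) (h : GL (Fin n) ℂ) : Set (M n) :=
  {A | ∃ g ∈ G, A = h.1 * g.1 * (h⁻¹).1}

lemma gl_mul_inv (h : GL (Fin n) ℂ) : h.1 * (h⁻¹).1 = 1 := h.mul_inv

lemma gl_inv_mul (h : GL (Fin n) ℂ) : (h⁻¹).1 * h.1 = 1 := h.inv_mul

lemma gl_inv (h : GL (Fin n) ℂ) : (h.1)⁻¹ = (h⁻¹).1 := inv_eq_right_inv (gl_mul_inv h)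

lemma mem_cset {G : Subgroup (GL (Fin n) ℂ)} {h : GL (Fin n) ℂ} {A : M n} (hA : IsUnit A.det) :
    A ∈ cset G h ↔ ∃ g ∈ G, g.1 = (h⁻¹).1 * A * h.1 := by
  constructor
  · rintro ⟨g, hg, rfl⟩
    refine ⟨g, hg, ?_⟩
    calc g.1 = ((h⁻¹).1 * h.1) * g.1 * ((h⁻¹).1 * h.1) := by
          rw [gl_inv_mul, Matrix.one_mul, Matrix.mul_one]
      _ = _ := by simp only [Matrix.mul_assoc]
  · rintro ⟨g, hg, hgA⟩
    refine ⟨g, hg, ?_⟩
    rw [hgA]
    calc A = (h.1 * (h⁻¹).1) * A * (h.1 * (h⁻¹).1) := by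
          rw [gl_mul_inv, Matrix.one_mul, Matrix.mul_one]
      _ = _ := by simp only [Matrix.mul_assoc]

lemma det_conj_unit (h : GL (Fin n) ℂ) {A : M n} (hA : IsUnit A.det) :
    IsUnit ((h⁻¹).1 * A * h.1).det := by
  rw [det_mul, det_mul]
  have h1 : IsUnit (h.1).det := (Matrix.isUnit_iff_isUnit_det _).1 h.isUnit
  have h2 : IsUnit ((h⁻¹).1).det := (Matrix.isUnit_iff_isUnit_det _).1 (h⁻¹).isUnit
  exact (h2.mul hA).mul h1

section Grp

variable {G : Subgroup (GL (Fin n) ℂ)} {I : Set (MvPolynomial (Fin n × Fin n) ℂ)}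
  (hI : ∀ g : GL (Fin n) ℂ, g ∈ (G : Set (GL (Fin n) ℂ)) ↔ ∀ f ∈ I, pev f g.1 = 0)
  {K₀ : Subgroup (GL (Fin n) ℂ)} (hd : ZariskiDense (K₀ : Set (GL (Fin n) ℂ)) (G : Set (GL (Fin n) ℂ)))
  {h : GL (Fin n) ℂ} (hu : ∀ k ∈ K₀, Uni (h.1 * k.1 * (h⁻¹).1))

include hI in
lemma mem_cset_iff {A : M n} (hA : IsUnit A.det) :
    A ∈ cset G h ↔ ∀ f ∈ I, pev f ((h⁻¹).1 * A * h.1) = 0 := by
  rw [mem_cset hA]
  constructor
  · rintro ⟨g, hg, hgA⟩ f hf
    rw [← hgA]
    exact (hI g).1 hg f hf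
  · intro hf
    obtain ⟨g, hg⟩ := (Matrix.isUnit_iff_isUnit_det _).2 (det_conj_unit h hA)
    refine ⟨g, (hI g).2 fun f hf' => ?_, hg⟩
    rw [hg]
    exact hf f hf'

lemma cset_unit {A : M n} (hA : A ∈ cset G h) : IsUnit A.det := by
  obtain ⟨g, _, rfl⟩ := hA
  rw [det_mul, det_mul]
  have h1 : IsUnit (h.1).det := (Matrix.isUnit_iff_isUnit_det _).1 h.isUnit
  have h2 : IsUnit ((h⁻¹).1).det := (Matrix.isUnit_iff_isUnit_det _).1 (h⁻¹).isUnit
  have h3 : IsUnit (g.1).det := (Matrix.isUnit_iff_isUnit_det _).1 g.isUnit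
  exact (h1.mul h3).mul h2

lemma cset_one : (1 : M n) ∈ cset G h := by
  refine ⟨1, G.one_mem, ?_⟩
  rw [Units.val_one, Matrix.mul_one, gl_mul_inv]

lemma cset_mul {A B : M n} (hA : A ∈ cset G h) (hB : B ∈ cset G h) : A * B ∈ cset G h := by
  obtain ⟨g, hg, rfl⟩ := hA
  obtain ⟨g', hg', rfl⟩ := hB
  refine ⟨g * g', G.mul_mem hg hg', ?_⟩
  rw [Units.val_mul]
  calc _ = h.1 * g.1 * ((h⁻¹).1 * h.1) * g'.1 * (h⁻¹).1 := by simp only [Matrix.mul_assoc]
    _ = _ := by rw [gl_inv_mul, Matrix.mul_one]; simp only [Matrix.mul_assoc]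

lemma cset_inv {A : M n} (hA : A ∈ cset G h) : A⁻¹ ∈ cset G h := by
  obtain ⟨g, hg, rfl⟩ := hA
  refine ⟨g⁻¹, G.inv_mem hg, ?_⟩
  rw [Matrix.mul_inv_rev, Matrix.mul_inv_rev, gl_inv, gl_inv, gl_inv, inv_inv, Matrix.mul_assoc]

lemma cset_pow {A : M n} (hA : A ∈ cset G h) (k : ℕ) : A ^ k ∈ cset G h := by
  induction k with
  | zero => rw [pow_zero]; exact cset_one
  | succ k ih => rw [pow_succ]; exact cset_mul ih hA

include hI in
lemma cset_closed {A : M n} (hA : A ∈ closure (cset G h)) (hA' : IsUnit A.det) : A ∈ cset G h := by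
  rw [mem_cset_iff hI hA']
  intro f hf
  have hc : IsClosed {B : M n | pev f ((h⁻¹).1 * B * h.1) = 0} :=
    isClosed_eq ((pev_continuous f).comp
      ((continuous_const.matrix_mul continuous_id).matrix_mul continuous_const)) continuous_const
  refine closure_minimal ?_ hc hA
  intro B hB
  exact (mem_cset_iff hI (cset_unit hB)).1 hB f hf

include hI hd hu in
lemma cset_star {A : M n} (hA : A ∈ cset G h) : Aᴴ ∈ cset G h := by
  have hAu := cset_unit hA
  rw [mem_cset_iff hI (by rw [det_conjTranspose]; exact hAu.star)]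
  intro f hf
  obtain ⟨g, hg, rfl⟩ := hA
  obtain ⟨F, hF⟩ := polyFn_conj f ((h⁻¹).1 * ((h⁻¹).1)ᴴ) ((h.1)ᴴ * h.1)
  have e : ∀ B : M n, (h⁻¹).1 * (h.1 * B * (h⁻¹).1)ᴴ * h.1 =
      (h⁻¹).1 * ((h⁻¹).1)ᴴ * Bᴴ * ((h.1)ᴴ * h.1) := by
    intro B
    rw [conjTranspose_mul, conjTranspose_mul]
    simp only [Matrix.mul_assoc]
  have h1 := hd.2 F (by
    intro k hk
    have h2 : pev f ((h⁻¹).1 * (h.1 * k.1 * (h⁻¹).1)ᴴ * h.1) = 0 := by
      have h3 := hu k hk
      have h4 : (h.1 * k.1 * (h⁻¹).1)ᴴ = h.1 * (k⁻¹).1 * (h⁻¹).1 := by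
        rw [← h3.inv, Matrix.mul_inv_rev, Matrix.mul_inv_rev, gl_inv, gl_inv, gl_inv, inv_inv,
          Matrix.mul_assoc]
      have h5 : (h⁻¹).1 * (h.1 * (k⁻¹).1 * (h⁻¹).1) * h.1 = (k⁻¹).1 := by
        calc _ = ((h⁻¹).1 * h.1) * (k⁻¹).1 * ((h⁻¹).1 * h.1) := by simp only [Matrix.mul_assoc]
          _ = _ := by rw [gl_inv_mul, Matrix.one_mul, Matrix.mul_one]
      rw [h4, h5]
      exact (hI k⁻¹).1 (hd.1 (K₀.inv_mem hk)) f hf
    rw [e] at h2
    rw [← hF]
    show conj (pev f ((h⁻¹).1 * ((h⁻¹).1)ᴴ * (k.1)ᴴ * ((h.1)ᴴ * h.1))) = 0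
    rw [h2, map_zero]) g hg
  rw [← hF, map_eq_zero] at h1
  rw [e]
  exact h1

include hI in
lemma cset_expo {X : M n} (hX : X.IsHermitian) (hXS : exp X ∈ cset G h) (z : ℂ) :
    exp (z • X) ∈ cset G h := by
  rw [mem_cset_iff hI (exp_det_unit _)]
  intro f hf
  have h1 : (fun z : ℂ => pev f ((h⁻¹).1 * exp (z • X) * h.1)) ∈ ExpAlg :=
    expAlg_pev f fun i j => expAlg_entry hX _ _ i j
  have h2 := expAlg_zero h1 (by
    intro k
    have h3 : exp (((k : ℕ) : ℂ) • X) = exp X ^ k := by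
      rw [← Matrix.exp_nsmul, Nat.cast_smul_eq_nsmul]
    show pev f ((h⁻¹).1 * exp (((k : ℕ) : ℂ) • X) * h.1) = 0
    rw [h3]
    exact (mem_cset_iff hI (by rw [det_pow]; exact (exp_det_unit X).pow k)).1 (cset_pow hXS k) f hf)
  exact congrFun h2 z

/-- the group of matrices -/
def grpOf : Grp n where
  S := cset G h
  one := cset_one
  mul _ hg _ hh := cset_mul hg hh
  inv _ hg := cset_inv hg
  unit _ hg := cset_unit hg
  closed _ hg hg' := cset_closed hI hg hg'
  star _ hg := cset_star hI hd hu hg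
  expo _ hX hXS z := cset_expo hI hX hXS z

end Grp

/-- all invertible matrices -/
def glGrp (n : ℕ) : Grp n where
  S := {g | IsUnit g.det}
  one := by show IsUnit (1 : M n).det; rw [det_one]; exact isUnit_one
  mul _ hg _ hh := by show IsUnit (_ * _ : M n).det; rw [det_mul]; exact hg.mul hh
  inv g hg := by
    show IsUnit (g⁻¹).det
    exact (Matrix.isUnit_nonsing_inv_det_iff).2 hg
  unit _ hg := hg
  closed _ _ hg' := hg'
  star g hg := by
    show IsUnit (gᴴ).det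
    rw [det_conjTranspose]
    exact IsUnit.star hg
  expo X _ _ z := exp_det_unit _

end Pool.Agent.Helper92.FL
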