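import Pool.Agent.Helper92.FL.Top
import Pool.Agent.Helper92.FL.Zar
import Pool.Agent.Helper92.FL.Cart

/-!
The generalized torus knot groups are flawed.
-/

open Matrix NormedSpace Filter Topology
open scoped ComplexConjugate ComplexOrder

set_option linter.unusedSectionVars false

namespace Pool.Agent.Helper92.FL

variable {n : ℕ}

/-- the invertible matrix `exp (-t Y)` -/
noncomputable def expU (Y : M n) (t : ℝ) : GL (Fin n) ℂ :=
  ⟨exp (((-t : ℝ) : ℂ) • Y), exp ((t : ℂ) • Y), exp_neg_smul_inv Y t, exp_smul_neg_inv Y t⟩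

/-- unitarization -/
lemma unitarize {Y : M n} (hY : Y.IsHermitian) {A : M n} (hA : A * exp Y * Aᴴ = exp Y) :
    Uni ((expU Y (1 / 2)).1 * A * ((expU Y (1 / 2))⁻¹).1) := by
  have e0 : (expU Y (1 / 2)).1 = exp (((-(1 / 2) : ℝ) : ℂ) • Y) := rfl
  have e0' : ((expU Y (1 / 2))⁻¹).1 = exp (((1 / 2 : ℝ) : ℂ) • Y) := rfl
  have e1 : (exp (((-(1 / 2) : ℝ) : ℂ) • Y))ᴴ = exp (((-(1 / 2) : ℝ) : ℂ) • Y) :=
    (herm_smul hY _).exp.eq
  have e2 : (exp (((1 / 2 : ℝ) : ℂ) • Y))ᴴ = exp (((1 / 2 : ℝ) : ℂ) • Y) :=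
    (herm_smul hY _).exp.eq
  have e3 : exp (((1 / 2 : ℝ) : ℂ) • Y) * exp (((1 / 2 : ℝ) : ℂ) • Y) = exp Y := by
    rw [exp_sq, smul_smul, ← Complex.ofReal_mul]
    norm_num
  unfold Uni
  rw [e0, e0', conjTranspose_mul, conjTranspose_mul, e1, e2]
  calc _ = exp (((-(1 / 2) : ℝ) : ℂ) • Y) * (A * (exp (((1 / 2 : ℝ) : ℂ) • Y) *
        exp (((1 / 2 : ℝ) : ℂ) • Y)) * Aᴴ) * exp (((-(1 / 2) : ℝ) : ℂ) • Y) := by
        simp only [Matrix.mul_assoc]
    _ = (exp (((-(1 / 2) : ℝ) : ℂ) • Y) * exp (((1 / 2 : ℝ) : ℂ) • Y)) *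
        (exp (((1 / 2 : ℝ) : ℂ) • Y) * exp (((-(1 / 2) : ℝ) : ℂ) • Y)) := by
        rw [e3, hA, ← e3]
        simp only [Matrix.mul_assoc]
    _ = 1 := by rw [exp_neg_smul_inv, exp_smul_neg_inv, Matrix.one_mul]

lemma val_embedding : IsEmbedding (Units.val : (M n)ˣ → M n) := by
  apply Units.isEmbedding_val_mk' (f := fun A : M n => A⁻¹)
  · intro A hA
    exact inv_tendsto (F := 𝓝[{x : M n | IsUnit x}] A) (g := id) (h := A)
      (tendsto_id.mono_left nhdsWithin_le_nhds) ((Matrix.isUnit_iff_isUnit_det _).1 hA)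
  · intro u
    exact gl_inv u

/-- conjugation by `h`, to matrices -/
noncomputable def conjHom (h : GL (Fin n) ℂ) : GL (Fin n) ℂ →* M n :=
  (Units.coeHom (M n)).comp (MulAut.conj h).toMonoidHom

lemma conjHom_apply (h g : GL (Fin n) ℂ) : conjHom h g = h.1 * g.1 * (h⁻¹).1 := rfl

lemma conjHom_embedding (h : GL (Fin n) ℂ) : IsEmbedding (conjHom h) :=
  val_embedding.comp ((Homeomorph.mulRight h⁻¹).isEmbedding.comp (Homeomorph.mulLeft h).isEmbedding)

lemma Uni.of_mul {A B : M n} (hA : Uni A) (hB : Uni B) : Uni (A * B) := hA.mul hB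

/-- groups presented by the relations are flawed -/
theorem flawed_of_pres {ι : Type} [Fintype ι] {m : ι → ℕ} (hm' : ∀ i, 0 < m i) (i₀ : ι)
    {Γ : Type} [Group Γ] (P : Pres m Γ) : Flawed Γ := by
  intro q s hs N G hG K hK
  obtain ⟨I, hI⟩ := hG.closed
  obtain ⟨K₀, hK₀, hd⟩ := hG.compact
  -- the first conjugation
  have : CompactSpace K₀ := isCompact_iff_compactSpace.1 hK₀
  let _ : MeasurableSpace K₀ := borel K₀
  have : BorelSpace K₀ := ⟨rfl⟩
  obtain ⟨Y₀, hY₀, hY₀'⟩ := cartan (Gr := glGrp N) (H := K₀)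
    ((Units.coeHom (M N)).comp K₀.subtype) (Units.continuous_val.comp continuous_subtype_val)
    (fun k => (Matrix.isUnit_iff_isUnit_det _).1 (k : GL (Fin N) ℂ).isUnit)
  set h₀ := expU Y₀ (1 / 2) with hh₀
  have hu : ∀ k ∈ K₀, Uni (h₀.1 * k.1 * (h₀⁻¹).1) := fun k hk =>
    unitarize hY₀.1 (hY₀' ⟨k, hk⟩)
  set Gr : Grp N := grpOf hI hd hu with hGr
  have hGrS : Gr.S = cset G h₀ := rfl
  -- the second conjugation
  have : CompactSpace K := isCompact_iff_compactSpace.1 hK.compact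
  let _ : MeasurableSpace K := borel K
  have : BorelSpace K := ⟨rfl⟩
  obtain ⟨Y, hY, hY'⟩ := cartan (Gr := Gr) (H := K) ((conjHom h₀).comp (G.subtype.comp K.subtype))
    ((conjHom_embedding h₀).continuous.comp (continuous_subtype_val.comp continuous_subtype_val))
    (fun k => ⟨((k : G) : GL (Fin N) ℂ), (k : G).2, rfl⟩)
  set h₁ := expU Y (1 / 2) with hh₁
  have hh₁S : h₁.1 ∈ Gr.S := Grp.exp_p hY _
  have hh₁S' : (h₁⁻¹).1 ∈ Gr.S := Grp.exp_p hY _
  have hconj : ∀ g : GL (Fin N) ℂ, conjHom (h₁ * h₀) g = h₁.1 * (h₀.1 * g.1 * (h₀⁻¹).1) * (h₁⁻¹).1 := by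
    intro g
    rw [conjHom_apply, _root_.mul_inv_rev, Units.val_mul, Units.val_mul]
    simp only [Matrix.mul_assoc]
  -- the embedding
  let E : Emb Gr G :=
    { e := (conjHom (h₁ * h₀)).comp G.subtype
      emb := (conjHom_embedding _).comp IsEmbedding.subtypeVal
      range := by
        ext A
        constructor
        · rintro ⟨g, rfl⟩
          show conjHom (h₁ * h₀) (g : GL (Fin N) ℂ) ∈ Gr.S
          rw [hconj]
          exact Gr.mul _ (Gr.mul _ hh₁S _ ⟨g, g.2, rfl⟩) _ hh₁S'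
        · intro hA
          obtain ⟨g, hg, hgA⟩ := Gr.mul _ (Gr.mul _ hh₁S' _ hA) _ hh₁S
          refine ⟨⟨g, hg⟩, ?_⟩
          show conjHom (h₁ * h₀) g = A
          rw [hconj, ← hgA]
          calc h₁.1 * ((h₁⁻¹).1 * A * h₁.1) * (h₁⁻¹).1 =
                (h₁.1 * (h₁⁻¹).1) * A * (h₁.1 * (h₁⁻¹).1) := by simp only [Matrix.mul_assoc]
            _ = A := by rw [gl_mul_inv, Matrix.one_mul, Matrix.mul_one] }
  have hE : ∀ g : G, E.e g = h₁.1 * (h₀.1 * g.1.1 * (h₀⁻¹).1) * (h₁⁻¹).1 := fun g => hconj g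
  -- the maximal compact subgroup
  let K₁ : Subgroup G :=
    { carrier := {g | Uni (E.e g)}
      mul_mem' := by
        intro a b ha hb
        show Uni (E.e (a * b))
        rw [map_mul]
        exact Uni.of_mul ha hb
      one_mem' := by
        show Uni (E.e 1)
        rw [map_one]
        exact Uni.one
      inv_mem' := by
        intro a ha
        show Uni (E.e a⁻¹)
        rw [E.inv, Uni.inv ha]
        exact Uni.star ha }
  have hK₁c : IsCompact (K₁ : Set G) := by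
    rw [E.emb.isCompact_iff]
    have h1 : E.e '' (K₁ : Set G) = Gr.K := by
      ext A
      constructor
      · rintro ⟨g, hg, rfl⟩
        exact ⟨E.mem g, hg⟩
      · rintro ⟨hA, hA'⟩
        obtain ⟨g, rfl⟩ := E.exists_eq hA
        exact ⟨g, hA', rfl⟩
    rw [h1]
    exact Grp.K_compact
  have hKK₁ : K ≤ K₁ := by
    intro g hg
    show Uni (E.e g)
    rw [hE]
    exact unitarize hY.1 (hY' ⟨g, hg⟩)
  have hK₁ := hK.maximal K₁ hK₁c hKK₁
  have hK' : ∀ g, g ∈ K ↔ Uni (E.e g) := by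
    intro g
    rw [← hK₁]
    exact Iff.rfl
  exact main_sdr P E s hs hm' i₀ K hK'

/-- the generalized torus knot groups -/
noncomputable def torusPres {r : ℕ} (m : Fin r → ℕ) : Pres m (TorusKnotGroup m) where
  gen := PresentedGroup.of
  rel i j := by
    have h := PresentedGroup.one_of_mem (rels := relators m) (x :=
      FreeGroup.of i ^ m i * (FreeGroup.of j ^ m j)⁻¹) ⟨i, j, rfl⟩
    rw [map_mul, map_inv, map_pow, map_pow, mul_inv_eq_one] at h
    exact h
  closure := PresentedGroup.closure_range_of _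
  lift a ha := by
    refine ⟨PresentedGroup.toGroup (f := a) (rels := relators m) ?_, fun i =>
      PresentedGroup.toGroup.of _⟩
    rintro _ ⟨i, j, rfl⟩
    rw [map_mul, map_inv, map_pow, map_pow, FreeGroup.lift_apply_of, FreeGroup.lift_apply_of,
      mul_inv_eq_one]
    exact ha i j

/-- every generalized torus knot group is flawed -/
theorem torus_flawed (r : ℕ) (hr : 1 ≤ r) (m : Fin r → ℕ) (hm' : ∀ i, 1 ≤ m i) :
    Flawed (TorusKnotGroup m) :=
  flawed_of_pres hm' ⟨0, hr⟩ (torusPres m)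

end Pool.Agent.Helper92.FL
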