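import Pool.Agent.Helper92.FL.Lin

/-!
Self-adjoint groups of matrices, polar decomposition, minimal tuples.
-/

open Matrix NormedSpace Filter Topology
open scoped ComplexConjugate ComplexOrder

set_option linter.unusedSectionVars false

namespace Pool.Agent.Helper92.FL

variable {n : ℕ}

/-- the properties of a self-adjoint algebraic group of matrices which are used -/
structure Grp (n : ℕ) where
  S : Set (M n)
  one : 1 ∈ S
  mul : ∀ g ∈ S, ∀ h ∈ S, g * h ∈ S
  inv : ∀ g ∈ S, g⁻¹ ∈ S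
  unit : ∀ g ∈ S, IsUnit g.det
  closed : ∀ g ∈ closure S, IsUnit g.det → g ∈ S
  star : ∀ g ∈ S, gᴴ ∈ S
  expo : ∀ X : M n, X.IsHermitian → exp X ∈ S → ∀ z : ℂ, exp (z • X) ∈ S

namespace Grp

variable (G : Grp n)

/-- the maximal compact subgroup -/
def K : Set (M n) := {k | k ∈ G.S ∧ Uni k}

/-- the Hermitian part of the Lie algebra -/
def p : Set (M n) := {X | X.IsHermitian ∧ exp X ∈ G.S}

variable {G}

lemma K_one : (1 : M n) ∈ G.K := ⟨G.one, Uni.one⟩

lemma K_mul {k l : M n} (hk : k ∈ G.K) (hl : l ∈ G.K) : k * l ∈ G.K :=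
  ⟨G.mul _ hk.1 _ hl.1, hk.2.mul hl.2⟩

lemma K_star {k : M n} (hk : k ∈ G.K) : kᴴ ∈ G.K := ⟨G.star _ hk.1, hk.2.star⟩

lemma K_inv {k : M n} (hk : k ∈ G.K) : k⁻¹ ∈ G.K := by rw [hk.2.inv]; exact K_star hk

lemma p_smul {X : M n} (hX : X ∈ G.p) (t : ℝ) : (t : ℂ) • X ∈ G.p := by
  refine ⟨?_, G.expo X hX.1 hX.2 t⟩
  unfold IsHermitian
  rw [conjTranspose_smul, hX.1.eq]
  simp

lemma exp_p {X : M n} (hX : X ∈ G.p) (z : ℂ) : exp (z • X) ∈ G.S := G.expo X hX.1 hX.2 z

lemma expI {X : M n} (hX : X ∈ G.p) (s : ℝ) : exp (((s : ℂ) * Complex.I) • X) ∈ G.K := by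
  refine ⟨exp_p hX _, ?_⟩
  unfold Uni
  rw [← Matrix.exp_conjTranspose, conjTranspose_smul, hX.1.eq, ← Matrix.exp_add_of_commute]
  · rw [← add_smul]
    simp
  · exact ((Commute.refl X).smul_left _).smul_right _

lemma p_closed : IsClosed G.p := by
  rw [isClosed_iff_ultrafilter]
  intro X u hu hX
  have h1 : Tendsto id (u : Filter (M n)) (𝓝 X) := hu
  have h2 : X.IsHermitian := by
    apply isClosed_herm.mem_of_tendsto h1
    filter_upwards [hX] with Y hY using hY.1
  refine ⟨h2, G.closed _ ?_ (exp_det_unit X)⟩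
  apply mem_closure_of_tendsto ((exp_cont.tendsto X).comp h1)
  filter_upwards [hX] with Y hY using hY.2

lemma p_conj {X k : M n} (hX : X ∈ G.p) (hk : k ∈ G.K) : k * X * kᴴ ∈ G.p := by
  refine ⟨?_, ?_⟩
  · unfold IsHermitian
    rw [conjTranspose_mul, conjTranspose_mul, conjTranspose_conjTranspose, hX.1.eq, Matrix.mul_assoc]
  · rw [← hk.2.inv, Matrix.exp_conj _ _ hk.2.isUnit]
    exact G.mul _ (G.mul _ hk.1 _ hX.2) _ (G.inv _ hk.1)

lemma exp_conj_K {X k : M n} (hk : k ∈ G.K) : exp (k * X * kᴴ) = k * exp X * kᴴ := by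
  rw [← hk.2.inv, Matrix.exp_conj _ _ hk.2.isUnit]

lemma polar {g : M n} (hg : g ∈ G.S) : ∃ k ∈ G.K, ∃ X ∈ G.p, g = k * exp X := by
  obtain ⟨Y, hY, hY'⟩ := exists_log (G.unit g hg)
  have h1 : Y ∈ G.p := ⟨hY, by rw [hY']; exact G.mul _ (G.star _ hg) _ hg⟩
  have h2 := p_smul h1 (1 / 2)
  set X := ((1 / 2 : ℝ) : ℂ) • Y with hX
  have h3 : exp X * exp X = gᴴ * g := by
    rw [← Matrix.exp_add_of_commute _ _ (Commute.refl X), ← hY', hX, ← add_smul]
    congr 1
    push_cast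
    norm_num
  have h4 : (exp X)ᴴ = exp X := h2.1.exp.eq
  have hu := exp_det_unit X
  refine ⟨g * (exp X)⁻¹, ⟨G.mul _ hg _ (G.inv _ h2.2), ?_⟩, X, h2, ?_⟩
  · apply mul_eq_one_comm.1
    rw [conjTranspose_mul, conjTranspose_nonsing_inv, h4]
    calc (exp X)⁻¹ * gᴴ * (g * (exp X)⁻¹) = (exp X)⁻¹ * (gᴴ * g) * (exp X)⁻¹ := by
          simp only [Matrix.mul_assoc]
      _ = ((exp X)⁻¹ * exp X) * (exp X * (exp X)⁻¹) := by rw [← h3]; simp only [Matrix.mul_assoc]
      _ = 1 := by rw [Matrix.nonsing_inv_mul _ hu, Matrix.mul_nonsing_inv _ hu, Matrix.one_mul]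
  · rw [Matrix.mul_assoc, Matrix.nonsing_inv_mul _ hu, Matrix.mul_one]

lemma K_entry {k : M n} (hk : Uni k) (j l : Fin n) : ‖k j l‖ ≤ 1 := by
  have h := congrFun (congrFun hk j) j
  rw [mul_apply, Matrix.one_apply_eq] at h
  have h1 : ∑ l, ‖k j l‖ ^ 2 = 1 := by
    have h2 := congrArg Complex.re h
    rw [Complex.re_sum, Complex.one_re] at h2
    rw [← h2]
    refine Finset.sum_congr rfl fun l _ => ?_
    rw [conjTranspose_apply, Complex.star_def, Complex.mul_conj, Complex.ofReal_re,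
      Complex.normSq_eq_norm_sq]
  have h3 : ‖k j l‖ ^ 2 ≤ 1 := by
    rw [← h1]
    exact Finset.single_le_sum (f := fun l => ‖k j l‖ ^ 2) (fun _ _ => by positivity)
      (Finset.mem_univ l)
  nlinarith [norm_nonneg (k j l)]

lemma uni_det {k : M n} (hk : Uni k) : IsUnit k.det := (Matrix.isUnit_iff_isUnit_det _).1 hk.isUnit

lemma isClosed_uni : IsClosed {k : M n | Uni k} := by
  have h : Continuous fun k : M n => k * kᴴ :=
    continuous_id.matrix_mul continuous_id.matrix_conjTranspose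
  exact isClosed_eq h continuous_const

lemma K_closed : IsClosed G.K := by
  rw [isClosed_iff_ultrafilter]
  intro X u hu hX
  have h1 : Tendsto id (u : Filter (M n)) (𝓝 X) := hu
  have h2 : Uni X := by
    apply isClosed_uni.mem_of_tendsto h1
    filter_upwards [hX] with Y hY using hY.2
  refine ⟨G.closed _ ?_ (uni_det h2), h2⟩
  apply mem_closure_of_tendsto h1
  filter_upwards [hX] with Y hY using hY.1

lemma K_compact : IsCompact G.K :=
  (isCompact_entries 1).of_isClosed_subset K_closed fun _ hk j l => K_entry hk.2 j l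

/-- two commuting elements of `p` -/
lemma p_add {X Y : M n} (hX : X ∈ G.p) (hY : Y ∈ G.p) (h : X * Y = Y * X) : X + Y ∈ G.p := by
  refine ⟨hX.1.add hY.1, ?_⟩
  rw [Matrix.exp_add_of_commute _ _ h]
  exact G.mul _ hX.2 _ hY.2

variable {ι : Type} [Fintype ι] (G)

/-- minimal tuples -/
def KN (a : ι → M n) : Prop := (∀ i, a i ∈ G.S) ∧ ∀ g ∈ G.S, N a ≤ N (act g a)

variable {G}

lemma act_mem {g : M n} (hg : g ∈ G.S) {a : ι → M n} (ha : ∀ i, a i ∈ G.S) (i : ι) :
    act g a i ∈ G.S := G.mul _ (G.mul _ hg _ (ha i)) _ (G.inv _ hg)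

lemma KN_act {a : ι → M n} (ha : G.KN a) {k : M n} (hk : k ∈ G.K) : G.KN (act k a) := by
  refine ⟨fun i => act_mem hk.1 ha.1 i, fun g hg => ?_⟩
  rw [N_act_uni hk.2, ← act_mul]
  exact ha.2 _ (G.mul _ hg _ hk.1)

lemma crit {a : ι → M n} (ha : G.KN a) {U : M n} (hU : Uni U) {x : Fin n → ℝ}
    (hx : U * dg x * Uᴴ ∈ G.p) : D U x a = 0 := by
  set f : ℝ → ℝ := fun t => ∑ j, ∑ l, Real.exp (t * (x j - x l)) ^ 2 * w U a j l with hf
  have hf' : ∀ t : ℝ, f t = N (act (exp ((t : ℂ) • (U * dg x * Uᴴ))) a) := by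
    intro t
    have h1 : (t : ℂ) • (U * dg x * Uᴴ) = U * dg (fun i => t * x i) * Uᴴ := by
      rw [← Matrix.smul_mul, ← Matrix.mul_smul]
      congr 2
      unfold dg
      ext i j
      rcases eq_or_ne i j with rfl | h
      · simp
      · simp [diagonal_apply_ne _ h]
    rw [h1, N_eq_w hU, hf]
    refine Finset.sum_congr rfl fun j _ => Finset.sum_congr rfl fun l _ => ?_
    rw [w_act_exp hU, mul_sub]
  have hf0 : f 0 = N a := by
    rw [N_eq_w hU]
    simp only [hf, zero_mul, Real.exp_zero, one_pow, one_mul]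
  have hmin : IsLocalMin f 0 := by
    apply Filter.Eventually.of_forall
    intro t
    show f 0 ≤ f t
    rw [hf0, hf']
    exact ha.2 _ (exp_p hx _)
  have hder : HasDerivAt f (2 * D U x a) 0 := by
    have h1 : ∀ j l, HasDerivAt (fun t : ℝ => Real.exp (t * (x j - x l)) ^ 2 * w U a j l)
        (2 * ((x j - x l) * w U a j l)) 0 := by
      intro j l
      have h2 : HasDerivAt (fun t : ℝ => t * (x j - x l)) (x j - x l) 0 := by
        simpa using (hasDerivAt_id (0 : ℝ)).mul_const (x j - x l)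
      have h3 : HasDerivAt (fun t : ℝ => Real.exp (t * (x j - x l)) ^ 2 * w U a j l)
          (((2 : ℕ) * Real.exp (0 * (x j - x l)) ^ (2 - 1) *
            (Real.exp (0 * (x j - x l)) * (x j - x l))) * w U a j l) 0 :=
        ((h2.exp).fun_pow 2).mul_const (w U a j l)
      refine h3.congr_deriv ?_
      simp
      ring
    have h2 := HasDerivAt.fun_sum (u := Finset.univ) fun j (_ : j ∈ Finset.univ) =>
      HasDerivAt.fun_sum (u := Finset.univ) fun l (_ : l ∈ Finset.univ) => h1 j l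
    rw [D, Finset.mul_sum]
    simp_rw [Finset.mul_sum]
    exact h2
  have := hmin.hasDerivAt_eq_zero hder
  linarith

/-- criticality implies minimality -/
lemma KN_of_crit {a : ι → M n} (ha : ∀ i, a i ∈ G.S)
    (h : ∀ (U : M n) (x : Fin n → ℝ), Uni U → U * dg x * Uᴴ ∈ G.p → 0 ≤ D U x a) : G.KN a := by
  refine ⟨ha, fun g hg => ?_⟩
  obtain ⟨k, hk, X, hX, rfl⟩ := polar hg
  obtain ⟨U, x, hU, rfl⟩ := diag_rep hX.1
  rw [act_mul, N_act_uni hk.2]
  have := N_act_exp_ge hU x a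
  have h2 := N_nonneg (act (exp (U * dg x * Uᴴ)) a - a)
  have h3 := h U x hU hX
  linarith

/-- stabilizers of minimal tuples -/
lemma stab {a : ι → M n} (ha : G.KN a) {k X : M n} (hk : k ∈ G.K) (hX : X ∈ G.p)
    (h : act (k * exp X) a = a) :
    (∀ i, X * a i = a i * X) ∧ ∀ i, k * a i = a i * k := by
  obtain ⟨U, x, hU, hx⟩ := diag_rep hX.1
  have h1 : N (act (exp X) a) = N a := by
    have := congrArg N h
    rwa [act_mul, N_act_uni hk.2] at this
  have h2 : D U x a = 0 := crit ha hU (by rw [← hx]; exact hX)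
  have h3 : act (exp X) a = a := by
    have h4 := N_act_exp_ge hU x a
    rw [← hx, h1, h2] at h4
    have h5 : N (act (exp X) a - a) = 0 := le_antisymm (by linarith) (N_nonneg _)
    exact sub_eq_zero.1 (N_eq_zero h5)
  have h4 : ∀ i, exp X * a i = a i * exp X := by
    intro i
    have h5 := congrFun h3 i
    have hu := exp_det_unit X
    calc exp X * a i = exp X * a i * ((exp X)⁻¹ * exp X) := by
          rw [Matrix.nonsing_inv_mul _ hu, Matrix.mul_one]
      _ = (exp X * a i * (exp X)⁻¹) * exp X := by simp only [Matrix.mul_assoc]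
      _ = a i * exp X := by rw [show exp X * a i * (exp X)⁻¹ = a i from h5]
  refine ⟨fun i => comm_of_comm_exp hX.1 (h4 i), fun i => ?_⟩
  have h5 : act k a = a := by
    rw [act_mul, h3] at h
    exact h
  have h6 := congrFun h5 i
  have hu := uni_det hk.2
  calc k * a i = k * a i * (k⁻¹ * k) := by rw [Matrix.nonsing_inv_mul _ hu, Matrix.mul_one]
    _ = (k * a i * k⁻¹) * k := by simp only [Matrix.mul_assoc]
    _ = a i * k := by rw [show k * a i * k⁻¹ = a i from h6]

end Grp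

end Pool.Agent.Helper92.FL
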