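import Pool.Agent.Helper92.FL.Star

/-!
The minimal tuples in the closure of an orbit.
-/

open Matrix NormedSpace Filter Topology
open scoped ComplexConjugate ComplexOrder

set_option linter.unusedSectionVars false

namespace Pool.Agent.Helper92.FL

variable {n : ℕ} {ι : Type} [Fintype ι] {G : Grp n} {β : Type*}

lemma N_zero : N (0 : ι → M n) = 0 := by
  unfold N
  simp

lemma N_sub_comm (a b : ι → M n) : N (a - b) = N (b - a) := by
  unfold N
  refine Finset.sum_congr rfl fun i _ => Finset.sum_congr rfl fun j _ =>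
    Finset.sum_congr rfl fun l _ => ?_
  have : (a - b) i j l = -((b - a) i j l) := by
    simp only [Pi.sub_apply, Matrix.sub_apply]
    ring
  rw [this, norm_neg]

lemma exists_seq {A : Set (ι → M n)} {w : ι → M n} (h : w ∈ closure A) :
    ∃ u : ℕ → ι → M n, (∀ m, u m ∈ A) ∧ Tendsto u atTop (𝓝 w) := by
  have h1 : ∀ m : ℕ, ∃ b ∈ A, N (b - w) < 1 / ((m : ℝ) + 1) := by
    intro m
    have ho : IsOpen {b : ι → M n | N (b - w) < 1 / ((m : ℝ) + 1)} :=
      isOpen_lt (N_continuous.comp (continuous_id.sub continuous_const)) continuous_const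
    obtain ⟨b, hb, hb'⟩ := mem_closure_iff.1 h _ ho (by
      show N (w - w) < _
      rw [sub_self, N_zero]
      positivity)
    exact ⟨b, hb', hb⟩
  choose u hu hu' using h1
  refine ⟨u, hu, ?_⟩
  rw [tendsto_iff_N]
  exact squeeze_zero (fun m => N_nonneg _) (fun m => (hu' m).le)
    tendsto_one_div_add_atTop_nhds_zero_nat

lemma act_cont (g : M n) : Continuous (act g : (ι → M n) → ι → M n) := by
  refine continuous_pi fun i => ?_
  exact (continuous_const.matrix_mul (continuous_apply i)).matrix_mul continuous_const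

lemma isCompact_N (C : ℝ) : IsCompact {a : ι → M n | N a ≤ C} := by
  have h1 : IsCompact (Set.univ.pi fun _ : ι => {A : M n | ∀ j l, ‖A j l‖ ≤ √C}) :=
    isCompact_univ_pi fun _ => isCompact_entries _
  refine h1.of_isClosed_subset (isClosed_le N_continuous continuous_const) ?_
  intro a ha i _ j l
  apply Real.le_sqrt_of_sq_le
  exact (entry_le_N a i j l).trans ha

/-- the orbit -/
def orb (G : Grp n) (a : ι → M n) : Set (ι → M n) := {b | ∃ g ∈ G.S, b = act g a}

lemma mem_orb (a : ι → M n) : a ∈ orb G a := ⟨1, G.one, (act_one a).symm⟩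

lemma act_inv_act {g : M n} (hg : g ∈ G.S) (a : ι → M n) : act g⁻¹ (act g a) = a := by
  rw [← act_mul, Matrix.nonsing_inv_mul _ (G.unit g hg), act_one]

lemma orb_act {g : M n} (hg : g ∈ G.S) (a : ι → M n) : orb G (act g a) = orb G a := by
  ext b
  constructor
  · rintro ⟨h, hh, rfl⟩
    exact ⟨h * g, G.mul _ hh _ hg, by rw [act_mul]⟩
  · rintro ⟨h, hh, rfl⟩
    exact ⟨h * g⁻¹, G.mul _ hh _ (G.inv _ hg), by rw [act_mul, act_inv_act hg]⟩

lemma clo_mem {a : ι → M n} (ha : ∀ i, a i ∈ G.S) {b : ι → M n} (hb : b ∈ closure (orb G a)) :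
    ∀ i, b i ∈ G.S := by
  intro i
  have h1 : orb G a ⊆ {b | (b i).det = (a i).det} := by
    rintro _ ⟨g, hg, rfl⟩
    show (act g a i).det = _
    have hu := G.unit g hg
    rw [act, det_mul, det_mul, det_nonsing_inv, mul_comm, ← mul_assoc,
      Ring.inverse_mul_cancel _ hu, one_mul]
  have h2 : IsClosed {b : ι → M n | (b i).det = (a i).det} :=
    isClosed_eq ((continuous_id.matrix_det).comp (continuous_apply i)) continuous_const
  have h3 : (b i).det = (a i).det := closure_minimal h1 h2 hb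
  have h4 : orb G a ⊆ {b | b i ∈ closure G.S} := by
    rintro _ ⟨g, hg, rfl⟩
    exact subset_closure (Grp.act_mem hg ha i)
  have h5 : IsClosed {b : ι → M n | b i ∈ closure G.S} :=
    isClosed_closure.preimage (continuous_apply i)
  exact G.closed _ (closure_minimal h4 h5 hb) (by rw [h3]; exact G.unit _ (ha i))

lemma clo_act {a b : ι → M n} {g : M n} (hg : g ∈ G.S) (hb : b ∈ closure (orb G a)) :
    act g b ∈ closure (orb G a) := by
  have h1 : Set.MapsTo (act g) (orb G a) (orb G a) := by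
    rintro _ ⟨h, hh, rfl⟩
    exact ⟨g * h, G.mul _ hg _ hh, by rw [act_mul]⟩
  exact h1.closure (act_cont g) hb

lemma exists_min {a : ι → M n} (ha : ∀ i, a i ∈ G.S) :
    ∃ b, G.KN b ∧ b ∈ closure (orb G a) := by
  have hc : IsCompact (closure (orb G a) ∩ {b | N b ≤ N a}) :=
    (isCompact_N (N a)).inter_left isClosed_closure
  obtain ⟨b, hb, hmin⟩ := hc.exists_isMinOn ⟨a, subset_closure (mem_orb a), le_refl (N a)⟩
    (N_continuous (ι := ι) (n := n)).continuousOn
  refine ⟨b, ⟨clo_mem ha hb.1, fun g hg => ?_⟩, hb.1⟩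
  by_cases h : N (act g b) ≤ N a
  · exact hmin ⟨clo_act hg hb.1, h⟩
  · push Not at h
    exact le_trans hb.2 h.le

lemma min_le {v w : ι → M n} (hw : G.KN w)
    (h : w ∈ closure (orb G v)) : N w ≤ N v := by
  by_contra hlt
  push Not at hlt
  obtain ⟨u, hu, hu'⟩ := exists_seq h
  choose g hg hg' using hu
  choose k hk X hX hgX using fun m => Grp.polar (G.inv _ (hg m))
  have h1 : ∀ m, N (act (exp (X m)) (u m)) = N v := by
    intro m
    have h2 : act (g m)⁻¹ (u m) = v := by rw [hg', act_inv_act (hg m)]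
    rw [hgX, act_mul] at h2
    have h3 := congrArg N h2
    rwa [N_act_uni (hk m).2] at h3
  have h2 := star hw hu' hX (fun ε hε => Eventually.of_forall fun m => by rw [h1]; linarith)
  have h3 := ((N_continuous (ι := ι) (n := n)).tendsto w).comp h2
  have h4 : Tendsto (fun _ : ℕ => N v) atTop (𝓝 (N w)) := h3.congr h1
  have h5 := tendsto_nhds_unique h4 tendsto_const_nhds
  linarith

lemma local_lemma {w : ι → M n} (hw : G.KN w) {ε : ℝ} (hε : 0 < ε) :
    ∃ δ : ℝ, 0 < δ ∧ ∀ v : ι → M n, (∀ i, v i ∈ G.S) → N (v - w) < δ → ∀ w', G.KN w' →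
      w' ∈ closure (orb G v) → ∃ k ∈ G.K, N (w' - act k w) < ε := by
  by_contra hcon
  push Not at hcon
  have hm : ∀ m : ℕ, (0 : ℝ) < 1 / ((m : ℝ) + 1) := fun m => by positivity
  choose v hvS hv w' hw' hcl hk using fun m : ℕ => hcon (1 / ((m : ℝ) + 1)) (hm m)
  have happ : ∀ m : ℕ, ∃ g ∈ G.S, N (act g (v m) - w' m) < 1 / ((m : ℝ) + 1) ∧
      N (act g (v m)) < N (w' m) + 1 / ((m : ℝ) + 1) := by
    intro m
    have ho : IsOpen {b : ι → M n | N (b - w' m) < 1 / ((m : ℝ) + 1) ∧
        N b < N (w' m) + 1 / ((m : ℝ) + 1)} :=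
      (isOpen_lt (N_continuous.comp (continuous_id.sub continuous_const)) continuous_const).inter
        (isOpen_lt N_continuous continuous_const)
    obtain ⟨b, hb, g, hg, rfl⟩ := mem_closure_iff.1 (hcl m) _ ho (by
      refine ⟨?_, ?_⟩
      · rw [sub_self, N_zero]
        exact hm m
      · have := hm m
        linarith)
    exact ⟨g, hg, hb⟩
  choose g hg hg1 hg2 using happ
  choose k hkK X hX hgX using fun m => Grp.polar (hg m)
  have ht0 : Tendsto (fun m : ℕ => 1 / ((m : ℝ) + 1)) atTop (𝓝 0) :=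
    tendsto_one_div_add_atTop_nhds_zero_nat
  have hvw : Tendsto v atTop (𝓝 w) := by
    rw [tendsto_iff_N]
    exact squeeze_zero (fun m => N_nonneg _) (fun m => (hv m).le) ht0
  have hN : ∀ m, N (act (exp (X m)) (v m)) < N (v m) + 1 / ((m : ℝ) + 1) := by
    intro m
    have h1 := hg2 m
    rw [hgX, act_mul, N_act_uni (hkK m).2] at h1
    have h2 := min_le (hw' m) (hcl m)
    linarith
  have hlim : Tendsto (fun m => N (v m) + 1 / ((m : ℝ) + 1)) atTop (𝓝 (N w + 0)) :=
    ((N_continuous.tendsto w).comp hvw).add ht0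
  rw [add_zero] at hlim
  have hst := star hw hvw hX (fun η hη => by
    filter_upwards [hlim.eventually (gt_mem_nhds (show N w < N w + η by linarith))] with m h1
    exact ((hN m).trans h1).le)
  rw [tendsto_iff_N] at hst
  have h3 : Tendsto (fun m : ℕ => 2 * (1 / ((m : ℝ) + 1)) + 2 * N (act (exp (X m)) (v m) - w))
      atTop (𝓝 0) := by
    simpa using (ht0.const_mul 2).add (hst.const_mul 2)
  obtain ⟨m, hm'⟩ := (h3.eventually (gt_mem_nhds hε)).exists
  have h4 := hk m (k m) (hkK m)
  have h5 : w' m - act (k m) w = (w' m - act (g m) (v m)) + (act (g m) (v m) - act (k m) w) := by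
    abel
  have h6 : N (act (g m) (v m) - act (k m) w) = N (act (exp (X m)) (v m) - w) := by
    rw [hgX, act_mul, N_sub_act_uni (hkK m).2]
  have h7 : N (w' m - act (g m) (v m)) = N (act (g m) (v m) - w' m) := N_sub_comm _ _
  have h8 := N_add_le (w' m - act (g m) (v m)) (act (g m) (v m) - act (k m) w)
  rw [← h5, h6, h7] at h8
  have h9 := hg1 m
  linarith

/-- convergence of minimal tuples, up to `K` -/
lemma tendsto_min {F : Filter β} {v : β → ι → M n} {v₀ : ι → M n} (hvS : ∀ i j, v i j ∈ G.S)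
    (hv : Tendsto v F (𝓝 v₀)) {w : β → ι → M n} {w₀ : ι → M n}
    (hw : ∀ i, G.KN (w i)) (hwc : ∀ i, w i ∈ closure (orb G (v i))) (hw₀ : G.KN w₀)
    (hw₀c : w₀ ∈ closure (orb G v₀)) :
    ∃ k : β → M n, (∀ i, k i ∈ G.K) ∧ Tendsto (fun i => act (k i) (w i)) F (𝓝 w₀) := by
  have hev : ∀ ε : ℝ, 0 < ε → ∀ᶠ i in F, ∃ k ∈ G.K, N (w i - act k w₀) < ε := by
    intro ε hε
    obtain ⟨δ, hδ, hloc⟩ := local_lemma hw₀ hε
    have ho : IsOpen {b : ι → M n | N (b - w₀) < δ} :=
      isOpen_lt (N_continuous.comp (continuous_id.sub continuous_const)) continuous_const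
    obtain ⟨b, hb, g, hg, rfl⟩ := mem_closure_iff.1 hw₀c _ ho (by
      show N (w₀ - w₀) < δ
      rw [sub_self, N_zero]
      exact hδ)
    have h1 : ∀ᶠ i in F, N (act g (v i) - w₀) < δ :=
      (((act_cont g).tendsto v₀).comp hv).eventually (ho.mem_nhds hb)
    filter_upwards [h1] with i hi
    exact hloc _ (fun j => Grp.act_mem hg (hvS i) j) hi _ (hw i) (by rw [orb_act hg]; exact hwc i)
  have hmin : ∀ i, ∃ k ∈ G.K, ∀ k' ∈ G.K, N (w i - act k w₀) ≤ N (w i - act k' w₀) := by
    intro i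
    have hc : ContinuousOn (fun k : M n => N (w i - act k w₀)) G.K := by
      have h1 : Continuous fun k : M n => N (w i - fun i => k * w₀ i * kᴴ) := by
        apply N_continuous.comp
        apply continuous_const.sub
        exact (act_continuous_uni (n := n) (ι := ι)).comp (continuous_id.prodMk continuous_const)
      refine h1.continuousOn.congr fun k hk => ?_
      rw [act_uni hk.2]
    obtain ⟨k, hk, hmin⟩ := (Grp.K_compact (G := G)).exists_isMinOn ⟨1, Grp.K_one⟩ hc
    exact ⟨k, hk, fun k' hk' => hmin hk'⟩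
  choose k hk hkmin using hmin
  refine ⟨fun i => (k i)ᴴ, fun i => Grp.K_star (hk i), ?_⟩
  rw [tendsto_iff_N]
  have e : ∀ i, N (act (k i)ᴴ (w i) - w₀) = N (w i - act (k i) w₀) := by
    intro i
    rw [← N_sub_act_uni (hk i).2, ← act_mul, (hk i).2, act_one]
  simp only [e]
  rw [tendsto_order]
  refine ⟨fun a ha => Eventually.of_forall fun i => lt_of_lt_of_le ha (N_nonneg _), fun a ha => ?_⟩
  filter_upwards [hev a ha] with i hi
  obtain ⟨k', hk', h1⟩ := hi
  exact lt_of_le_of_lt (hkmin i k' hk') h1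

/-- uniqueness of minimal tuples, up to `K` -/
lemma min_unique {v w w' : ι → M n} (hv : ∀ i, v i ∈ G.S) (hw : G.KN w) (hw' : G.KN w')
    (h : w ∈ closure (orb G v)) (h' : w' ∈ closure (orb G v)) : ∃ k ∈ G.K, w' = act k w := by
  obtain ⟨k, hk, ht⟩ := tendsto_min (F := (pure () : Filter Unit)) (v := fun _ => v) (v₀ := v)
    (w := fun _ => w) (w₀ := w') (fun _ => hv) tendsto_const_nhds (fun _ => hw) (fun _ => h) hw' h'
  refine ⟨k (), hk (), ?_⟩
  rw [tendsto_pure_left] at ht
  have := ht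
  by_contra hne
  have hopen : ({act (k ()) w}ᶜ : Set (ι → M n)) ∈ 𝓝 w' := by
    apply isOpen_compl_singleton.mem_nhds
    simp only [Set.mem_compl_iff, Set.mem_singleton_iff]
    exact hne
  exact ht _ hopen rfl

end Pool.Agent.Helper92.FL
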