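import Pool.Agent.Helper92.FL.Kak
import Pool.Agent.Helper92.FL.Min
import Pool.Agent.Helper92.FL.Pi

/-!
The homotopy on minimal tuples which satisfy the relations.
-/

open Matrix NormedSpace Filter Topology
open scoped ComplexConjugate ComplexOrder

set_option linter.unusedSectionVars false

namespace Pool.Agent.Helper92.FL

variable {n : ℕ} {ι : Type} [Fintype ι] {G : Grp n} {β : Type*}

lemma exp_sq (X : M n) : exp X * exp X = exp (((2 : ℝ) : ℂ) • X) := by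
  rw [← Matrix.exp_add_of_commute _ _ (Commute.refl _)]
  congr 1
  push_cast
  rw [two_smul]

lemma herm_smul {X : M n} (hX : X.IsHermitian) (t : ℝ) : ((t : ℂ) • X).IsHermitian := by
  unfold IsHermitian
  rw [conjTranspose_smul, hX.eq]
  simp

lemma half_unique {X Y : M n} (hX : X.IsHermitian) (hY : Y.IsHermitian)
    (h : exp X * exp X = exp Y * exp Y) : X = Y := by
  rw [exp_sq, exp_sq] at h
  have h1 := exp_inj (herm_smul hX 2) (herm_smul hY 2) h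
  exact smul_right_injective _ (show ((2 : ℝ) : ℂ) ≠ 0 by norm_num) h1

open Classical in
/-- the Hermitian matrix `X` with `e²ˣ = gᴴ g` -/
noncomputable def hl (g : M n) : M n :=
  if h : ∃ X : M n, X.IsHermitian ∧ exp X * exp X = gᴴ * g then h.choose else 0

lemma hl_eq {g X : M n} (hX : X.IsHermitian) (h : exp X * exp X = gᴴ * g) : hl g = X := by
  have h1 : ∃ X : M n, X.IsHermitian ∧ exp X * exp X = gᴴ * g := ⟨X, hX, h⟩
  unfold hl
  rw [dif_pos h1]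
  exact half_unique h1.choose_spec.1 hX (h1.choose_spec.2.trans h.symm)

lemma hl_spec {g : M n} (hg : IsUnit g.det) :
    (hl g).IsHermitian ∧ exp (hl g) * exp (hl g) = gᴴ * g := by
  obtain ⟨Y, hY, hY'⟩ := exists_log hg
  have h1 : ∃ X : M n, X.IsHermitian ∧ exp X * exp X = gᴴ * g := by
    refine ⟨((1 / 2 : ℝ) : ℂ) • Y, herm_smul hY _, ?_⟩
    rw [exp_sq, smul_smul, ← Complex.ofReal_mul, ← hY']
    norm_num
  unfold hl
  rw [dif_pos h1]
  exact h1.choose_spec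

lemma hl_polar {k X : M n} (hk : Uni k) (hX : X.IsHermitian) : hl (k * exp X) = X := by
  apply hl_eq hX
  rw [conjTranspose_mul, hX.exp.eq]
  calc exp X * exp X = exp X * 1 * exp X := by rw [Matrix.mul_one]
    _ = exp X * (kᴴ * k) * exp X := by rw [hk.left]
    _ = _ := by simp only [Matrix.mul_assoc]

lemma hl_mem {g : M n} (hg : g ∈ G.S) : hl g ∈ G.p := by
  obtain ⟨k, hk, X, hX, rfl⟩ := Grp.polar hg
  rw [hl_polar hk.2 hX.1]
  exact hX

lemma hl_conj {g k : M n} (hg : IsUnit g.det) (hk : Uni k) :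
    hl (k * g * kᴴ) = k * hl g * kᴴ := by
  have h := hl_spec hg
  have hh : (k * hl g * kᴴ).IsHermitian := by
    unfold IsHermitian
    rw [conjTranspose_mul, conjTranspose_mul, conjTranspose_conjTranspose, h.1.eq, Matrix.mul_assoc]
  apply hl_eq hh
  have h1 : exp (k * hl g * kᴴ) = k * exp (hl g) * kᴴ := by
    rw [← hk.inv, Matrix.exp_conj _ _ hk.isUnit]
  rw [h1]
  have h2 : k * exp (hl g) * kᴴ * (k * exp (hl g) * kᴴ) = k * (exp (hl g) * (kᴴ * k) * exp (hl g)) * kᴴ := by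
    simp only [Matrix.mul_assoc]
  have h3 : (k * g * kᴴ)ᴴ * (k * g * kᴴ) = k * (gᴴ * (kᴴ * k) * g) * kᴴ := by
    rw [conjTranspose_mul, conjTranspose_mul, conjTranspose_conjTranspose]
    simp only [Matrix.mul_assoc]
  rw [h2, h3, hk.left, Matrix.mul_one, Matrix.mul_one, h.2]

lemma hl_uni {k : M n} (hk : Uni k) : hl k = 0 := by
  have := hl_polar hk (X := 0) isHermitian_zero
  rwa [NormedSpace.exp_zero, Matrix.mul_one] at this

lemma hl_tendsto {F : Filter β} {g : β → M n} {g₀ : M n} (hg : ∀ i, IsUnit (g i).det)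
    (hg₀ : IsUnit g₀.det) (h : Tendsto g F (𝓝 g₀)) :
    Tendsto (fun i => hl (g i)) F (𝓝 (hl g₀)) := by
  have h1 : Tendsto (fun i => exp (((2 : ℝ) : ℂ) • hl (g i))) F
      (𝓝 (exp (((2 : ℝ) : ℂ) • hl g₀))) := by
    simp only [← exp_sq, (hl_spec (hg _)).2, (hl_spec hg₀).2]
    have hc : Continuous fun A : M n => Aᴴ * A :=
      continuous_id.matrix_conjTranspose.matrix_mul continuous_id
    exact (hc.tendsto g₀).comp h
  have h2 := log_tendsto (fun i => herm_smul (hl_spec (hg i)).1 2) (herm_smul (hl_spec hg₀).1 2) h1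
  have h3 : ∀ A : M n, A = ((1 / 2 : ℝ) : ℂ) • (((2 : ℝ) : ℂ) • A) := by
    intro A
    rw [smul_smul, ← Complex.ofReal_mul]
    norm_num
  rw [h3 (hl g₀)]
  have h4 := h2.const_smul ((1 / 2 : ℝ) : ℂ)
  exact h4.congr fun i => (h3 (hl (g i))).symm

/-- a central element of the group generated by a minimal tuple -/
lemma central {a : ι → M n} (ha : G.KN a) {c : M n} (hc : c ∈ G.S) (h : ∀ i, c * a i = a i * c) :
    ∃ k ∈ G.K, c = k * exp (hl c) ∧ (∀ i, hl c * a i = a i * hl c) := by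
  obtain ⟨k, hk, X, hX, rfl⟩ := Grp.polar hc
  rw [hl_polar hk.2 hX.1]
  refine ⟨k, hk, rfl, ?_⟩
  have h1 : act (k * exp X) a = a := by
    funext i
    rw [act, h i, Matrix.mul_assoc, Matrix.mul_nonsing_inv _ (G.unit _ hc), Matrix.mul_one]
  exact (Grp.stab ha hk hX h1).1

/-! ### sums over powers -/

noncomputable def Pm (m : ℕ) (b : M n) : M n := ∑ l ∈ Finset.range m, b ^ l * (b ^ l)ᴴ

noncomputable def Qm (m : ℕ) (b : M n) : M n :=
  ∑ l ∈ Finset.range m, ((b ^ l)⁻¹)ᴴ * (b ^ l)⁻¹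

lemma diag_nonneg (A W : M n) (i : Fin n) : 0 ≤ ((Wᴴ * (A * Aᴴ) * W) i i).re := by
  have : Wᴴ * (A * Aᴴ) * W = (Aᴴ * W)ᴴ * (Aᴴ * W) := by
    rw [conjTranspose_mul, conjTranspose_conjTranspose]
    simp only [Matrix.mul_assoc]
  rw [this, col_sum]
  positivity

lemma Big_sum {m : ℕ} (hm : 0 < m) (A : ℕ → M n) (h0 : A 0 = 1) :
    Big (∑ l ∈ Finset.range m, A l * (A l)ᴴ) := by
  intro W i
  have h1 : Wᴴ * (∑ l ∈ Finset.range m, A l * (A l)ᴴ) * W =
      ∑ l ∈ Finset.range m, Wᴴ * (A l * (A l)ᴴ) * W := by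
    rw [Finset.mul_sum, Finset.sum_mul]
  rw [h1, Matrix.sum_apply, Complex.re_sum]
  calc ∑ j, ‖W j i‖ ^ 2 = ((Wᴴ * (A 0 * (A 0)ᴴ) * W) i i).re := by
        rw [h0, conjTranspose_one, Matrix.mul_one, Matrix.mul_one, col_sum]
    _ ≤ _ := Finset.single_le_sum (f := fun l => ((Wᴴ * (A l * (A l)ᴴ) * W) i i).re)
        (fun l _ => diag_nonneg _ _ _) (Finset.mem_range.2 hm)

lemma Big_Pm {m : ℕ} (hm : 0 < m) (b : M n) : Big (Pm m b) :=
  Big_sum hm (fun l => b ^ l) (pow_zero b)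

lemma Big_Qm {m : ℕ} (hm : 0 < m) (b : M n) : Big (Qm m b) := by
  have h := Big_sum hm (fun l => ((b ^ l)⁻¹)ᴴ) (by
    show ((b ^ 0)⁻¹)ᴴ = 1
    rw [pow_zero, inv_one, conjTranspose_one])
  simp only [conjTranspose_conjTranspose] at h
  exact h

lemma shift_sum {m : ℕ} (f : ℕ → M n) (h : f m = f 0) :
    ∑ l ∈ Finset.range m, f (l + 1) = ∑ l ∈ Finset.range m, f l := by
  have h1 := Finset.sum_range_succ' f m
  have h2 := Finset.sum_range_succ f m
  rw [h2, h] at h1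
  exact (add_right_cancel h1).symm

lemma Pm_inv {m : ℕ} {b : M n} (hb : IsUnit b.det) (hk : Uni (b ^ m)) :
    b⁻¹ * Pm m b * (b⁻¹)ᴴ = Pm m b := by
  have h1 : b * Pm m b * bᴴ = Pm m b := by
    unfold Pm
    rw [Finset.mul_sum, Finset.sum_mul]
    have h2 := shift_sum (m := m) (fun l => b ^ l * (b ^ l)ᴴ) (by
      show b ^ m * (b ^ m)ᴴ = b ^ 0 * (b ^ 0)ᴴ
      rw [hk, pow_zero, conjTranspose_one, Matrix.mul_one])
    rw [← h2]
    refine Finset.sum_congr rfl fun l _ => ?_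
    show b * (b ^ l * (b ^ l)ᴴ) * bᴴ = b ^ (l + 1) * (b ^ (l + 1))ᴴ
    rw [pow_succ', conjTranspose_mul]
    simp only [Matrix.mul_assoc]
  conv_lhs => rw [← h1]
  rw [conjTranspose_nonsing_inv]
  calc b⁻¹ * (b * Pm m b * bᴴ) * (bᴴ)⁻¹ = (b⁻¹ * b) * Pm m b * (bᴴ * (bᴴ)⁻¹) := by
        simp only [Matrix.mul_assoc]
    _ = Pm m b := by
        rw [Matrix.nonsing_inv_mul _ hb, Matrix.mul_nonsing_inv _ (by rw [det_conjTranspose]; exact hb.star),
          Matrix.one_mul, Matrix.mul_one]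

lemma Qm_inv {m : ℕ} {b : M n} (hb : IsUnit b.det) (hk : Uni (b ^ m)) :
    bᴴ * Qm m b * b = Qm m b := by
  have h1 : (b⁻¹)ᴴ * Qm m b * b⁻¹ = Qm m b := by
    unfold Qm
    rw [Finset.mul_sum, Finset.sum_mul]
    have h2 := shift_sum (m := m) (fun l => ((b ^ l)⁻¹)ᴴ * (b ^ l)⁻¹) (by
      show ((b ^ m)⁻¹)ᴴ * (b ^ m)⁻¹ = ((b ^ 0)⁻¹)ᴴ * (b ^ 0)⁻¹
      rw [hk.inv, conjTranspose_conjTranspose, hk, pow_zero, inv_one, conjTranspose_one,
        Matrix.mul_one])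
    rw [← h2]
    refine Finset.sum_congr rfl fun l _ => ?_
    show (b⁻¹)ᴴ * (((b ^ l)⁻¹)ᴴ * (b ^ l)⁻¹) * b⁻¹ = ((b ^ (l + 1))⁻¹)ᴴ * (b ^ (l + 1))⁻¹
    rw [pow_succ', Matrix.mul_inv_rev, conjTranspose_mul]
    simp only [Matrix.mul_assoc]
  conv_lhs => rw [← h1]
  rw [conjTranspose_nonsing_inv]
  calc bᴴ * ((bᴴ)⁻¹ * Qm m b * b⁻¹) * b = (bᴴ * (bᴴ)⁻¹) * Qm m b * (b⁻¹ * b) := by
        simp only [Matrix.mul_assoc]
    _ = Qm m b := by
        rw [Matrix.nonsing_inv_mul _ hb, Matrix.mul_nonsing_inv _ (by rw [det_conjTranspose]; exact hb.star),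
          Matrix.one_mul, Matrix.mul_one]

lemma conj_pow_uni {k : M n} (hk : Uni k) (b : M n) (l : ℕ) :
    (k * b * kᴴ) ^ l = k * b ^ l * kᴴ := by
  induction l with
  | zero => rw [pow_zero, pow_zero, Matrix.mul_one, hk]
  | succ l ih =>
    rw [pow_succ, pow_succ, ih]
    calc k * b ^ l * kᴴ * (k * b * kᴴ) = k * b ^ l * (kᴴ * k) * b * kᴴ := by
          simp only [Matrix.mul_assoc]
      _ = _ := by rw [hk.left, Matrix.mul_one]; simp only [Matrix.mul_assoc]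

lemma Pm_conj {k : M n} (hk : Uni k) (b : M n) (m : ℕ) : Pm m (k * b * kᴴ) = k * Pm m b * kᴴ := by
  unfold Pm
  rw [Finset.mul_sum, Finset.sum_mul]
  refine Finset.sum_congr rfl fun l _ => ?_
  rw [conj_pow_uni hk, conjTranspose_mul, conjTranspose_mul, conjTranspose_conjTranspose]
  calc k * b ^ l * kᴴ * (k * ((b ^ l)ᴴ * kᴴ)) = k * b ^ l * (kᴴ * k) * (b ^ l)ᴴ * kᴴ := by
        simp only [Matrix.mul_assoc]
    _ = _ := by rw [hk.left, Matrix.mul_one]; simp only [Matrix.mul_assoc]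

lemma Qm_conj {k : M n} (hk : Uni k) (b : M n) (m : ℕ) : Qm m (k * b * kᴴ) = k * Qm m b * kᴴ := by
  unfold Qm
  rw [Finset.mul_sum, Finset.sum_mul]
  refine Finset.sum_congr rfl fun l _ => ?_
  have h1 : (k * b ^ l * kᴴ)⁻¹ = k * (b ^ l)⁻¹ * kᴴ := by
    rw [← hk.inv, Matrix.mul_inv_rev, Matrix.mul_inv_rev,
      Matrix.nonsing_inv_nonsing_inv _ (Grp.uni_det hk), Matrix.mul_assoc]
  rw [conj_pow_uni hk, h1, conjTranspose_mul, conjTranspose_mul, conjTranspose_conjTranspose]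
  calc k * (((b ^ l)⁻¹)ᴴ * kᴴ) * (k * (b ^ l)⁻¹ * kᴴ) =
        k * ((b ^ l)⁻¹)ᴴ * (kᴴ * k) * (b ^ l)⁻¹ * kᴴ := by
        simp only [Matrix.mul_assoc]
    _ = _ := by rw [hk.left, Matrix.mul_one]; simp only [Matrix.mul_assoc]

lemma Pm_tendsto {F : Filter β} {b : β → M n} {b₀ : M n} (h : Tendsto b F (𝓝 b₀)) (m : ℕ) :
    Tendsto (fun i => Pm m (b i)) F (𝓝 (Pm m b₀)) := by
  unfold Pm
  refine tendsto_finsetSum _ fun l _ => ?_
  have hc : Continuous fun A : M n => Aᴴ := continuous_id.matrix_conjTranspose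
  exact (h.pow l).mul ((hc.tendsto _).comp (h.pow l))

lemma Qm_tendsto {F : Filter β} {b : β → M n} {b₀ : M n} (h : Tendsto b F (𝓝 b₀))
    (hb₀ : IsUnit b₀.det) (m : ℕ) :
    Tendsto (fun i => Qm m (b i)) F (𝓝 (Qm m b₀)) := by
  unfold Qm
  refine tendsto_finsetSum _ fun l _ => ?_
  have hc : Continuous fun A : M n => Aᴴ := continuous_id.matrix_conjTranspose
  have h1 := inv_tendsto (h.pow l) (by rw [det_pow]; exact hb₀.pow l)
  exact ((hc.tendsto _).comp h1).mul h1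

/-! ### the homotopy for one generator -/

noncomputable def bb (m : ℕ) (X a : M n) : M n := exp (((-(1 / m) : ℝ) : ℂ) • X) * a

noncomputable def YY (G : Grp n) (m : ℕ) (X a : M n) : M n :=
  argmin G (Pm m (bb m X a)) (Qm m (bb m X a))

noncomputable def sh (G : Grp n) (m : ℕ) (X a : M n) (t : ℝ) : M n :=
  exp (((-(t / 2) : ℝ) : ℂ) • YY G m X a) * (exp (((-(t / m) : ℝ) : ℂ) • X) * a) *
    exp (((t / 2 : ℝ) : ℂ) • YY G m X a)

lemma exp_smul_pow (X : M n) (z : ℂ) (m : ℕ) : exp (z • X) ^ m = exp ((m * z) • X) := by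
  rw [← Matrix.exp_nsmul, ← Nat.cast_smul_eq_nsmul ℂ, smul_smul]

lemma exp_smul_mul_pow {X a : M n} (h : X * a = a * X) (z : ℂ) (m : ℕ) :
    (exp (z • X) * a) ^ m = exp ((m * z) • X) * a ^ m := by
  rw [← exp_smul_pow]
  have h1 : Commute (exp (z • X)) a := (Commute.smul_left h z).exp_left
  exact h1.mul_pow m

lemma exp_neg_smul_inv (Y : M n) (t : ℝ) :
    exp (((-t : ℝ) : ℂ) • Y) * exp ((t : ℂ) • Y) = 1 := by
  rw [← Matrix.exp_add_of_commute _ _ (((Commute.refl Y).smul_left _).smul_right _), ← add_smul]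
  simp

lemma exp_smul_neg_inv (Y : M n) (t : ℝ) :
    exp ((t : ℂ) • Y) * exp (((-t : ℝ) : ℂ) • Y) = 1 := mul_eq_one_comm.1 (exp_neg_smul_inv Y t)

lemma conj_pow_exp (Y B : M n) (t : ℝ) (m : ℕ) :
    (exp (((-t : ℝ) : ℂ) • Y) * B * exp ((t : ℂ) • Y)) ^ m =
      exp (((-t : ℝ) : ℂ) • Y) * B ^ m * exp ((t : ℂ) • Y) := by
  induction m with
  | zero => rw [pow_zero, pow_zero, Matrix.mul_one, exp_neg_smul_inv]
  | succ m ih =>
    rw [pow_succ, pow_succ, ih]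
    calc _ = exp (((-t : ℝ) : ℂ) • Y) * B ^ m * (exp ((t : ℂ) • Y) * exp (((-t : ℝ) : ℂ) • Y)) * B *
          exp ((t : ℂ) • Y) := by simp only [Matrix.mul_assoc]
      _ = _ := by rw [exp_smul_neg_inv, Matrix.mul_one]; simp only [Matrix.mul_assoc]

/-- the data for one generator -/
structure Dat (G : Grp n) (m : ℕ) (X a : M n) : Prop where
  pos : 0 < m
  mem : a ∈ G.S
  memX : X ∈ G.p
  comm : X * a = a * X
  pol : ∃ k ∈ G.K, a ^ m = k * exp X

namespace Dat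

variable {m : ℕ} {X a : M n}

lemma bb_mem (h : Dat G m X a) : bb m X a ∈ G.S := G.mul _ (Grp.exp_p h.memX _) _ h.mem

lemma bb_pow (h : Dat G m X a) : (bb m X a) ^ m ∈ G.K ∧ a ^ m = (bb m X a) ^ m * exp X := by
  obtain ⟨k, hk, hak⟩ := h.pol
  have hm : (m : ℝ) ≠ 0 := Nat.cast_ne_zero.2 h.pos.ne'
  have h1 : (bb m X a) ^ m = exp (((-1 : ℝ) : ℂ) • X) * a ^ m := by
    unfold bb
    rw [exp_smul_mul_pow h.comm]
    congr 3
    have : (m : ℂ) * ((-(1 / m) : ℝ) : ℂ) = (((m : ℝ) * (-(1 / m)) : ℝ) : ℂ) := by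
      push_cast; ring
    rw [this]
    congr 1
    field_simp
  have h2 : X * k = k * X := by
    have h3 : X * a ^ m = a ^ m * X := (Commute.pow_right h.comm m).eq
    rw [hak] at h3
    have hu := exp_det_unit X
    calc X * k = X * (k * exp X) * (exp X)⁻¹ := by
          rw [Matrix.mul_assoc X, Matrix.mul_assoc k, Matrix.mul_nonsing_inv _ hu, Matrix.mul_one]
      _ = k * (exp X * X) * (exp X)⁻¹ := by rw [h3]; simp only [Matrix.mul_assoc]
      _ = k * (X * exp X) * (exp X)⁻¹ := by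
          have : exp X * X = X * exp X := ((Commute.refl X).exp_left).eq
          rw [this]
      _ = k * X := by
          rw [Matrix.mul_assoc k, Matrix.mul_assoc X, Matrix.mul_nonsing_inv _ hu, Matrix.mul_one]
  have h3 : exp (((-1 : ℝ) : ℂ) • X) * k = k * exp (((-1 : ℝ) : ℂ) • X) := comm_exp_smul' h2 _
  have h4 : (bb m X a) ^ m = k := by
    rw [h1, hak, ← Matrix.mul_assoc, h3, Matrix.mul_assoc]
    have := exp_neg_smul_inv X 1
    rw [Complex.ofReal_one, one_smul] at this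
    rw [this, Matrix.mul_one]
  rw [h4]
  exact ⟨hk, hak⟩
where
  comm_exp_smul' {X B : M n} (h : X * B = B * X) (z : ℂ) :
      exp (z • X) * B = B * exp (z • X) := by
    have h1 : Commute (z • X) B := Commute.smul_left h z
    exact (h1.exp_left).eq

lemma YY_mem (h : Dat G m X a) : YY G m X a ∈ G.p :=
  (argmin_spec (Big_Pm h.pos _) (Big_Qm h.pos _)).1

lemma comm_YY (h : Dat G m X a) {k : M n} (hk : k ∈ G.K) (hc : k * bb m X a = bb m X a * k) :
    k * YY G m X a * kᴴ = YY G m X a := by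
  have h1 : k * bb m X a * kᴴ = bb m X a := by
    rw [hc, Matrix.mul_assoc, hk.2, Matrix.mul_one]
  have hP : k * Pm m (bb m X a) * kᴴ = Pm m (bb m X a) := by rw [← Pm_conj hk.2, h1]
  have hQ : k * Qm m (bb m X a) * kᴴ = Qm m (bb m X a) := by rw [← Qm_conj hk.2, h1]
  have h2 := argmin_conj (Big_Pm h.pos (bb m X a)) (Big_Qm h.pos (bb m X a)) hk
    (by rw [hP]; exact Big_Pm h.pos _) (by rw [hQ]; exact Big_Qm h.pos _)
  rw [hP, hQ] at h2
  exact h2.symm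

lemma YY_comm_pow (h : Dat G m X a) :
    YY G m X a * (bb m X a) ^ m = (bb m X a) ^ m * YY G m X a := by
  have hk := h.bb_pow.1
  have h1 := h.comm_YY hk (Commute.pow_left (Commute.refl _) m).eq
  calc YY G m X a * (bb m X a) ^ m = (bb m X a) ^ m * YY G m X a * ((bb m X a) ^ m)ᴴ *
        (bb m X a) ^ m := by rw [h1]
    _ = _ := by rw [Matrix.mul_assoc, hk.2.left, Matrix.mul_one]

lemma YY_comm_X (h : Dat G m X a) : X * YY G m X a = YY G m X a * X := by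
  obtain ⟨U, x, hU, hx⟩ := diag_rep h.memX.1
  have hcx : ∀ s : ℝ, exp (((s : ℂ) * Complex.I) • X) * YY G m X a *
      (exp (((s : ℂ) * Complex.I) • X))ᴴ = YY G m X a := by
    intro s
    apply h.comm_YY (Grp.expI h.memX s)
    have h1 : Commute X (bb m X a) := by
      unfold bb
      exact (((Commute.refl X).smul_right _).exp_right).mul_right h.comm
    exact ((h1.smul_left _).exp_left).eq
  rw [hx, comm_rep_iff hU]
  intro j l hjl
  have h1 := conj_I_entry hU x (Real.pi / (x j - x l)) (YY G m X a) j l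
  rw [← hx, hcx, div_mul_cancel₀ _ (sub_ne_zero.2 hjl), Complex.exp_pi_mul_I] at h1
  rw [hx] at h1
  linear_combination (1 / 2 : ℂ) * h1

lemma YY_comm_a (h : Dat G m X a) : YY G m X a * a ^ m = a ^ m * YY G m X a := by
  rw [h.bb_pow.2]
  have h1 : Commute (YY G m X a) ((bb m X a) ^ m) := h.YY_comm_pow
  have h2 : Commute (YY G m X a) X := h.YY_comm_X.symm
  exact (h1.mul_right h2.exp_right).eq

/-- the power -/
lemma sh_pow (h : Dat G m X a) (t : ℝ) :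
    (sh G m X a t) ^ m = exp (((-t : ℝ) : ℂ) • X) * a ^ m := by
  have hm : (m : ℝ) ≠ 0 := Nat.cast_ne_zero.2 h.pos.ne'
  unfold sh
  rw [conj_pow_exp, exp_smul_mul_pow h.comm]
  have h0 : (m : ℂ) * ((-(t / m) : ℝ) : ℂ) = ((-t : ℝ) : ℂ) := by
    have : (m : ℂ) * ((-(t / m) : ℝ) : ℂ) = (((m : ℝ) * (-(t / m)) : ℝ) : ℂ) := by
      push_cast; ring
    rw [this]
    congr 1
    field_simp
  rw [h0]
  have h1 : Commute (YY G m X a) (exp (((-t : ℝ) : ℂ) • X) * a ^ m) := by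
    have h2 : Commute (YY G m X a) (a ^ m) := h.YY_comm_a
    have h3 : Commute (YY G m X a) X := h.YY_comm_X.symm
    exact ((h3.smul_right _).exp_right).mul_right h2
  have h2 : exp (((-(t / 2) : ℝ) : ℂ) • YY G m X a) * (exp (((-t : ℝ) : ℂ) • X) * a ^ m) =
      (exp (((-t : ℝ) : ℂ) • X) * a ^ m) * exp (((-(t / 2) : ℝ) : ℂ) • YY G m X a) :=
    ((h1.smul_left _).exp_left).eq
  rw [h2, Matrix.mul_assoc, exp_neg_smul_inv, Matrix.mul_one]

lemma sh_mem (h : Dat G m X a) (t : ℝ) : sh G m X a t ∈ G.S :=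
  G.mul _ (G.mul _ (Grp.exp_p h.YY_mem _) _ (G.mul _ (Grp.exp_p h.memX _) _ h.mem)) _
    (Grp.exp_p h.YY_mem _)

lemma sh_one (h : Dat G m X a) : Uni (sh G m X a 1) := by
  have hb := G.unit _ h.bb_mem
  have hk := h.bb_pow.1
  have h1 := argmin_fixed (G := G) (Big_Pm h.pos (bb m X a)) (Big_Qm h.pos (bb m X a)) h.bb_mem
    (Pm_inv hb hk.2) (Qm_inv hb hk.2)
  have h1' : bb m X a * exp (YY G m X a) * (bb m X a)ᴴ = exp (YY G m X a) := h1
  have h2 : sh G m X a 1 = exp (((-(1 / 2) : ℝ) : ℂ) • YY G m X a) * bb m X a *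
      exp (((1 / 2 : ℝ) : ℂ) • YY G m X a) := rfl
  have e1 : (exp (((-(1 / 2) : ℝ) : ℂ) • YY G m X a))ᴴ = exp (((-(1 / 2) : ℝ) : ℂ) • YY G m X a) :=
    (herm_smul h.YY_mem.1 _).exp.eq
  have e2 : (exp (((1 / 2 : ℝ) : ℂ) • YY G m X a))ᴴ = exp (((1 / 2 : ℝ) : ℂ) • YY G m X a) :=
    (herm_smul h.YY_mem.1 _).exp.eq
  have e3 : exp (((1 / 2 : ℝ) : ℂ) • YY G m X a) * exp (((1 / 2 : ℝ) : ℂ) • YY G m X a) =
      exp (YY G m X a) := by
    rw [exp_sq, smul_smul, ← Complex.ofReal_mul]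
    norm_num
  unfold Uni
  rw [h2, conjTranspose_mul, conjTranspose_mul, e1, e2]
  have h3 : exp (((-(1 / 2) : ℝ) : ℂ) • YY G m X a) * bb m X a *
      exp (((1 / 2 : ℝ) : ℂ) • YY G m X a) * (exp (((1 / 2 : ℝ) : ℂ) • YY G m X a) *
        ((bb m X a)ᴴ * exp (((-(1 / 2) : ℝ) : ℂ) • YY G m X a))) =
      exp (((-(1 / 2) : ℝ) : ℂ) • YY G m X a) * (bb m X a * (exp (((1 / 2 : ℝ) : ℂ) • YY G m X a) *
        exp (((1 / 2 : ℝ) : ℂ) • YY G m X a)) * (bb m X a)ᴴ) *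
          exp (((-(1 / 2) : ℝ) : ℂ) • YY G m X a) := by
    simp only [Matrix.mul_assoc]
  rw [h3, e3, h1', ← e3]
  calc _ = (exp (((-(1 / 2) : ℝ) : ℂ) • YY G m X a) * exp (((1 / 2 : ℝ) : ℂ) • YY G m X a)) *
        (exp (((1 / 2 : ℝ) : ℂ) • YY G m X a) * exp (((-(1 / 2) : ℝ) : ℂ) • YY G m X a)) := by
        simp only [Matrix.mul_assoc]
    _ = 1 := by rw [exp_neg_smul_inv, exp_smul_neg_inv, Matrix.one_mul]

end Dat

lemma sh_zero (G : Grp n) (m : ℕ) (X a : M n) : sh G m X a 0 = a := by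
  unfold sh
  simp

lemma argmin_scalar {m : ℕ} (hm : 0 < m) (P : M n) (hP : P = (m : ℂ) • 1) :
    argmin G P P = 0 := by
  have hB : Big P := by
    intro W i
    rw [hP, Matrix.mul_smul, Matrix.smul_mul, Matrix.mul_one, Matrix.smul_apply, smul_eq_mul]
    have h1 := col_sum W i
    have h2 : ((m : ℂ) * (Wᴴ * W) i i).re = (m : ℝ) * ((Wᴴ * W) i i).re := by
      have := Complex.re_ofReal_mul (m : ℝ) ((Wᴴ * W) i i)
      rw [← this]
      norm_cast
    rw [h2, h1]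
    have h3 : (1 : ℝ) ≤ m := by exact_mod_cast hm
    have h4 : 0 ≤ ∑ j, ‖W j i‖ ^ 2 := by positivity
    nlinarith
  have h0 : (0 : M n) ∈ G.p := ⟨isHermitian_zero, by rw [NormedSpace.exp_zero]; exact G.one⟩
  apply argmin_unique hB hB h0
  intro Z hZ
  obtain ⟨U, z, hU, hz⟩ := diag_rep hZ.1
  have hd : ∀ i, ((Uᴴ * P * U) i i).re = m := by
    intro i
    rw [hP, Matrix.mul_smul, Matrix.smul_mul, Matrix.mul_one, hU.left, Matrix.smul_apply,
      Matrix.one_apply_eq, smul_eq_mul, mul_one]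
    simp
  have h1 : (0 : M n) = U * dg (fun _ => 0) * Uᴴ := by
    unfold dg
    simp
  rw [hz]
  conv_lhs => rw [h1]
  rw [Fn_rep hU, Fn_rep hU]
  refine Finset.sum_le_sum fun i _ => ?_
  rw [hd]
  have h2 := Real.add_one_le_exp (z i)
  have h3 := Real.add_one_le_exp (-z i)
  have h4 : (0 : ℝ) < m := by exact_mod_cast hm
  simp only [neg_zero, Real.exp_zero, one_mul]
  nlinarith

lemma uni_pow {k : M n} (hk : Uni k) (l : ℕ) : Uni (k ^ l) := by
  induction l with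
  | zero => rw [pow_zero]; exact Uni.one
  | succ l ih => rw [pow_succ]; exact ih.mul hk

lemma sh_uni {m : ℕ} (hm : 0 < m) {a : M n} (ha : Uni a) (t : ℝ) : sh G m 0 a t = a := by
  have h1 : bb m 0 a = a := by
    unfold bb
    simp
  have hP : Pm m a = (m : ℂ) • 1 := by
    unfold Pm
    rw [Finset.sum_congr rfl fun l _ => uni_pow ha l, Finset.sum_const, Finset.card_range,
      Nat.cast_smul_eq_nsmul]
  have hQ : Qm m a = (m : ℂ) • 1 := by
    unfold Qm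
    have : ∀ l ∈ Finset.range m, ((a ^ l)⁻¹)ᴴ * (a ^ l)⁻¹ = 1 := by
      intro l _
      rw [(uni_pow ha l).inv, conjTranspose_conjTranspose]
      exact uni_pow ha l
    rw [Finset.sum_congr rfl this, Finset.sum_const, Finset.card_range, Nat.cast_smul_eq_nsmul]
  have h2 : YY G m 0 a = 0 := by
    unfold YY
    rw [h1, hQ, ← hP]
    exact argmin_scalar hm _ hP
  unfold sh
  rw [h2]
  simp

lemma bb_conj {k : M n} (hk : Uni k) (m : ℕ) (X a : M n) :
    bb m (k * X * kᴴ) (k * a * kᴴ) = k * bb m X a * kᴴ := by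
  unfold bb
  have h1 : exp (((-(1 / m) : ℝ) : ℂ) • (k * X * kᴴ)) = k * exp (((-(1 / m) : ℝ) : ℂ) • X) * kᴴ := by
    rw [← Matrix.smul_mul, ← Matrix.mul_smul, ← hk.inv, Matrix.exp_conj _ _ hk.isUnit]
  rw [h1]
  calc _ = k * exp (((-(1 / m) : ℝ) : ℂ) • X) * (kᴴ * k) * a * kᴴ := by simp only [Matrix.mul_assoc]
    _ = _ := by rw [hk.left, Matrix.mul_one]; simp only [Matrix.mul_assoc]

lemma exp_smul_conj {k : M n} (hk : Uni k) (z : ℂ) (X : M n) :
    exp (z • (k * X * kᴴ)) = k * exp (z • X) * kᴴ := by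
  rw [← Matrix.smul_mul, ← Matrix.mul_smul, ← hk.inv, Matrix.exp_conj _ _ hk.isUnit]

lemma sh_conj {m : ℕ} (hm : 0 < m) {k : M n} (hk : k ∈ G.K) (X a : M n) (t : ℝ) :
    sh G m (k * X * kᴴ) (k * a * kᴴ) t = k * sh G m X a t * kᴴ := by
  have hY : YY G m (k * X * kᴴ) (k * a * kᴴ) = k * YY G m X a * kᴴ := by
    unfold YY
    rw [bb_conj hk.2, Pm_conj hk.2, Qm_conj hk.2]
    apply argmin_conj (Big_Pm hm _) (Big_Qm hm _) hk
    · rw [← Pm_conj hk.2]; exact Big_Pm hm _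
    · rw [← Qm_conj hk.2]; exact Big_Qm hm _
  unfold sh
  rw [hY, exp_smul_conj hk.2, exp_smul_conj hk.2, exp_smul_conj hk.2]
  calc _ = k * exp (((-(t / 2) : ℝ) : ℂ) • YY G m X a) * (kᴴ * k) * exp (((-(t / m) : ℝ) : ℂ) • X) *
        (kᴴ * k) * a * (kᴴ * k) * exp (((t / 2 : ℝ) : ℂ) • YY G m X a) * kᴴ := by
        simp only [Matrix.mul_assoc]
    _ = _ := by rw [hk.2.left, Matrix.mul_one]; simp only [Matrix.mul_assoc, Matrix.mul_one]

lemma sh_tendsto {F : Filter β} {m : ℕ} (hm : 0 < m) {X a : β → M n} {X₀ a₀ : M n} {t : β → ℝ}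
    {t₀ : ℝ} (hX : Tendsto X F (𝓝 X₀)) (ha : Tendsto a F (𝓝 a₀)) (ht : Tendsto t F (𝓝 t₀))
    (hu : IsUnit a₀.det) :
    Tendsto (fun i => sh G m (X i) (a i) (t i)) F (𝓝 (sh G m X₀ a₀ t₀)) := by
  have hb : Tendsto (fun i => bb m (X i) (a i)) F (𝓝 (bb m X₀ a₀)) := by
    unfold bb
    exact ((exp_cont.tendsto _).comp (hX.const_smul _)).mul ha
  have hbu : IsUnit (bb m X₀ a₀).det := by
    unfold bb
    rw [det_mul]
    exact (exp_det_unit _).mul hu
  have hY : Tendsto (fun i => YY G m (X i) (a i)) F (𝓝 (YY G m X₀ a₀)) := by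
    unfold YY
    exact argmin_tendsto (fun i => Big_Pm hm _) (fun i => Big_Qm hm _) (Big_Pm hm _) (Big_Qm hm _)
      (Pm_tendsto hb m) (Qm_tendsto hb hbu m)
  have hof : ∀ {s : β → ℝ} {s₀ : ℝ}, Tendsto s F (𝓝 s₀) →
      Tendsto (fun i => ((s i : ℝ) : ℂ)) F (𝓝 (s₀ : ℂ)) := fun h =>
    (Complex.continuous_ofReal.tendsto _).comp h
  unfold sh
  have e1 : Tendsto (fun i => exp (((-(t i / 2) : ℝ) : ℂ) • YY G m (X i) (a i))) F
      (𝓝 (exp (((-(t₀ / 2) : ℝ) : ℂ) • YY G m X₀ a₀))) :=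
    (exp_cont.tendsto _).comp ((hof (ht.div_const 2).neg).smul hY)
  have e2 : Tendsto (fun i => exp (((t i / 2 : ℝ) : ℂ) • YY G m (X i) (a i))) F
      (𝓝 (exp (((t₀ / 2 : ℝ) : ℂ) • YY G m X₀ a₀))) :=
    (exp_cont.tendsto _).comp ((hof (ht.div_const 2)).smul hY)
  have e3 : Tendsto (fun i => exp (((-(t i / m) : ℝ) : ℂ) • X i)) F
      (𝓝 (exp (((-(t₀ / m) : ℝ) : ℂ) • X₀))) :=
    (exp_cont.tendsto _).comp ((hof (ht.div_const _).neg).smul hX)
  exact (e1.mul (e3.mul ha)).mul e2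

/-! ### tuples -/

/-- tuples which satisfy the relations -/
def Rel (m : ι → ℕ) (a : ι → M n) : Prop := ∀ i j, a i ^ m i = a j ^ m j

lemma S_pow {g : M n} (hg : g ∈ G.S) (l : ℕ) : g ^ l ∈ G.S := by
  induction l with
  | zero => rw [pow_zero]; exact G.one
  | succ l ih => rw [pow_succ]; exact G.mul _ ih _ hg

/-- the homotopy -/
noncomputable def hm (G : Grp n) (m : ι → ℕ) (i₀ : ι) (a : ι → M n) (t : ℝ) : ι → M n :=
  fun i => sh G (m i) (hl (a i₀ ^ m i₀)) (a i) t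

variable {m : ι → ℕ} {i₀ : ι}

lemma dat (hm : ∀ i, 0 < m i) {a : ι → M n} (ha : G.KN a) (hr : Rel m a) (i : ι) :
    Dat G (m i) (hl (a i₀ ^ m i₀)) (a i) := by
  have hc : a i₀ ^ m i₀ ∈ G.S := S_pow (ha.1 i₀) _
  obtain ⟨k, hk, h1, h2⟩ := central ha hc (fun j => by
    rw [hr i₀ j]
    exact (Commute.pow_left (Commute.refl (a j)) (m j)).eq)
  exact ⟨hm i, ha.1 i, hl_mem hc, h2 i, k, hk, by rw [hr i i₀]; exact h1⟩

lemma hm_mem (hm' : ∀ i, 0 < m i) {a : ι → M n} (ha : G.KN a) (hr : Rel m a) (t : ℝ) (i : ι) :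
    hm G m i₀ a t i ∈ G.S := (dat hm' ha hr i).sh_mem t

lemma hm_rel (hm' : ∀ i, 0 < m i) {a : ι → M n} (ha : G.KN a) (hr : Rel m a) (t : ℝ) :
    Rel m (hm G m i₀ a t) := by
  intro i j
  show sh G (m i) _ (a i) t ^ m i = sh G (m j) _ (a j) t ^ m j
  rw [(dat hm' ha hr i).sh_pow t, (dat hm' ha hr j).sh_pow t, hr i j]

lemma hm_zero (a : ι → M n) : hm G m i₀ a 0 = a := by
  funext i
  exact sh_zero _ _ _ _

lemma hm_one (hm' : ∀ i, 0 < m i) {a : ι → M n} (ha : G.KN a) (hr : Rel m a) (i : ι) :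
    Uni (hm G m i₀ a 1 i) := (dat hm' ha hr i).sh_one

lemma hm_uni (hm' : ∀ i, 0 < m i) {a : ι → M n} (ha : ∀ i, Uni (a i)) (t : ℝ) :
    hm G m i₀ a t = a := by
  funext i
  show sh G (m i) (hl (a i₀ ^ m i₀)) (a i) t = a i
  rw [hl_uni (uni_pow (ha i₀) _)]
  exact sh_uni (hm' i) (ha i) t

lemma hm_act (hm' : ∀ i, 0 < m i) {a : ι → M n} (ha : ∀ i, a i ∈ G.S) {k : M n} (hk : k ∈ G.K)
    (t : ℝ) : hm G m i₀ (act k a) t = act k (hm G m i₀ a t) := by
  rw [act_uni hk.2, act_uni hk.2]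
  funext i
  show sh G (m i) (hl ((k * a i₀ * kᴴ) ^ m i₀)) (k * a i * kᴴ) t =
    k * sh G (m i) (hl (a i₀ ^ m i₀)) (a i) t * kᴴ
  rw [conj_pow_uni hk.2, hl_conj (G.unit _ (S_pow (ha i₀) _)) hk.2]
  exact sh_conj (hm' i) hk _ _ t

lemma hm_tendsto {F : Filter β} (hm' : ∀ i, 0 < m i) {a : β → ι → M n} {a₀ : ι → M n} {t : β → ℝ}
    {t₀ : ℝ} (haS : ∀ j i, a j i ∈ G.S) (ha₀ : ∀ i, a₀ i ∈ G.S) (ha : Tendsto a F (𝓝 a₀))
    (ht : Tendsto t F (𝓝 t₀)) :
    Tendsto (fun j => hm G m i₀ (a j) (t j)) F (𝓝 (hm G m i₀ a₀ t₀)) := by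
  rw [tendsto_pi_nhds] at ha ⊢
  intro i
  have hX : Tendsto (fun j => hl (a j i₀ ^ m i₀)) F (𝓝 (hl (a₀ i₀ ^ m i₀))) :=
    hl_tendsto (fun j => G.unit _ (S_pow (haS j i₀) _)) (G.unit _ (S_pow (ha₀ i₀) _))
      ((ha i₀).pow _)
  exact sh_tendsto (hm' i) hX (ha i) ht (G.unit _ (ha₀ i))

/-! ### unitary tuples are minimal -/

lemma uni_col {B : M n} (hB : Uni B) (l : Fin n) : ∑ j, ‖B j l‖ ^ 2 = 1 := by
  rw [← col_sum, hB.left, Matrix.one_apply_eq, Complex.one_re]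

lemma uni_row {B : M n} (hB : Uni B) (j : Fin n) : ∑ l, ‖B j l‖ ^ 2 = 1 := by
  have h := uni_col hB.star j
  rw [← h]
  refine Finset.sum_congr rfl fun l _ => ?_
  rw [conjTranspose_apply, Complex.star_def, Complex.norm_conj]

lemma KN_uni {a : ι → M n} (ha : ∀ i, a i ∈ G.S) (hu : ∀ i, Uni (a i)) : G.KN a := by
  apply Grp.KN_of_crit ha
  intro U x hU _
  have hB : ∀ i, Uni (Uᴴ * a i * U) := fun i => (hU.star.mul (hu i)).mul hU
  have hr : ∀ j, ∑ l, w U a j l = Fintype.card ι := by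
    intro j
    unfold w
    rw [Finset.sum_comm, Finset.sum_congr rfl fun i _ => uni_row (hB i) j]
    simp
  have hc : ∀ l, ∑ j, w U a j l = Fintype.card ι := by
    intro l
    unfold w
    rw [Finset.sum_comm, Finset.sum_congr rfl fun i _ => uni_col (hB i) l]
    simp
  apply le_of_eq
  unfold D
  have h1 : ∑ j, ∑ l, (x j - x l) * w U a j l =
      ∑ j, x j * ∑ l, w U a j l - ∑ l, x l * ∑ j, w U a j l := by
    simp only [sub_mul, Finset.sum_sub_distrib, Finset.mul_sum]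
    congr 1
    rw [Finset.sum_comm]
  rw [h1]
  simp only [hr, hc]
  ring

end Pool.Agent.Helper92.FL
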