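import Pool.Agent.Helper92.FL.Grp

/-!
A regular element of `p`, and conjugation by `K` into its centralizer.
-/

open Matrix NormedSpace Filter Topology
open scoped ComplexConjugate ComplexOrder

set_option linter.unusedSectionVars false

namespace Pool.Agent.Helper92.FL

variable {n : ℕ}

/-- the centralizer -/
def Z (H : M n) : Submodule ℂ (M n) where
  carrier := {B | H * B = B * H}
  zero_mem' := by simp
  add_mem' := by
    intro a b ha hb
    simp only [Set.mem_ofPred_eq] at *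
    rw [Matrix.mul_add, Matrix.add_mul, ha, hb]
  smul_mem' := by
    intro c a ha
    simp only [Set.mem_ofPred_eq] at *
    rw [Matrix.mul_smul, Matrix.smul_mul, ha]

lemma mem_Z {H B : M n} : B ∈ Z H ↔ H * B = B * H := Iff.rfl

/-- a small perturbation by a commuting element does not enlarge the centralizer -/
lemma Z_perturb {H L : M n} (hH : H.IsHermitian) (hL : H * L = L * H) :
    ∃ ε : ℝ, 0 < ε ∧ Z (H + (ε : ℂ) • L) ≤ Z H := by
  obtain ⟨U, h, hU, rfl⟩ := diag_rep hH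
  set L' := Uᴴ * L * U with hL'
  have hL0 : ∀ j l, h j ≠ h l → L' j l = 0 := (comm_rep_iff hU h L).1 hL
  -- the gap
  obtain ⟨δ, hδ, hgap⟩ : ∃ δ : ℝ, 0 < δ ∧ ∀ j l, h j ≠ h l → δ ≤ |h j - h l| := by
    by_cases hne : ∃ p : Fin n × Fin n, h p.1 ≠ h p.2
    · obtain ⟨p₀, hp₀⟩ := hne
      classical
      obtain ⟨q, hq, hq'⟩ := Finset.exists_min_image
        ((Finset.univ : Finset (Fin n × Fin n)).filter fun p => h p.1 ≠ h p.2)
        (fun p => |h p.1 - h p.2|) ⟨p₀, by simp [hp₀]⟩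
      refine ⟨|h q.1 - h q.2|, ?_, fun j l hjl => hq' (j, l) (by simp [hjl])⟩
      rw [Finset.mem_filter] at hq
      exact abs_pos.2 (sub_ne_zero.2 hq.2)
    · push Not at hne
      exact ⟨1, one_pos, fun j l hjl => absurd (hne (j, l)) hjl⟩
  -- the size of `L'`
  obtain ⟨c, hc0, hc⟩ : ∃ c : ℝ, 0 ≤ c ∧ ∀ j l, ‖L' j l‖ ≤ c :=
    ⟨√(nr L'), Real.sqrt_nonneg _, fun j l => entry_le_nr L' j l⟩
  set ε := δ / (4 * n * c + 4) with hε
  have hden : 0 < 4 * (n : ℝ) * c + 4 := by positivity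
  refine ⟨ε, by positivity, ?_⟩
  intro B hB
  rw [mem_Z] at hB ⊢
  rw [comm_rep_iff hU]
  set B' := Uᴴ * B * U with hB'
  have key : ∀ j l, ((h j - h l : ℝ) : ℂ) * B' j l + (ε : ℂ) * (L' * B' - B' * L') j l = 0 := by
    intro j l
    have h1 := comm_entry hU h B j l
    have h2 : L' * B' - B' * L' = Uᴴ * (L * B - B * L) * U := by
      rw [hL', hB', Matrix.mul_sub, Matrix.sub_mul]
      congr 1
      · calc Uᴴ * L * U * (Uᴴ * B * U) = Uᴴ * L * (U * Uᴴ) * B * U := by
              simp only [Matrix.mul_assoc]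
          _ = _ := by rw [hU]; simp only [Matrix.mul_one, Matrix.mul_assoc]
      · calc Uᴴ * B * U * (Uᴴ * L * U) = Uᴴ * B * (U * Uᴴ) * L * U := by
              simp only [Matrix.mul_assoc]
          _ = _ := by rw [hU]; simp only [Matrix.mul_one, Matrix.mul_assoc]
    rw [← h1, h2, ← smul_eq_mul (ε : ℂ), ← Matrix.smul_apply, ← Matrix.add_apply]
    have h3 : Uᴴ * (U * dg h * Uᴴ * B - B * (U * dg h * Uᴴ)) * U +
        (ε : ℂ) • (Uᴴ * (L * B - B * L) * U) = Uᴴ * ((U * dg h * Uᴴ + (ε : ℂ) • L) * B -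
          B * (U * dg h * Uᴴ + (ε : ℂ) • L)) * U := by
      rw [← Matrix.smul_mul, ← Matrix.mul_smul, ← Matrix.add_mul, ← Matrix.mul_add]
      congr 2
      rw [Matrix.add_mul, Matrix.mul_add, Matrix.smul_mul, Matrix.mul_smul, smul_sub]
      abel
    rw [h3, hB, sub_self, Matrix.mul_zero, Matrix.zero_mul, Matrix.zero_apply]
  by_contra hcon
  push Not at hcon
  obtain ⟨j₀, l₀, hjl₀, hne₀⟩ := hcon
  classical
  obtain ⟨q, hq, hq'⟩ := Finset.exists_max_image
    ((Finset.univ : Finset (Fin n × Fin n)).filter fun p => h p.1 ≠ h p.2)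
    (fun p => ‖B' p.1 p.2‖) ⟨(j₀, l₀), by simp [hjl₀]⟩
  obtain ⟨j, l⟩ := q
  simp only [Finset.mem_filter, Finset.mem_univ, true_and] at hq
  have hmax : ∀ j' l', h j' ≠ h l' → ‖B' j' l'‖ ≤ ‖B' j l‖ := fun j' l' hh =>
    hq' (j', l') (by simp [hh])
  have hpos : 0 < ‖B' j l‖ := lt_of_lt_of_le (norm_pos_iff.2 hne₀) (hmax _ _ hjl₀)
  have e1 : ‖(L' * B') j l‖ ≤ n * c * ‖B' j l‖ := by
    rw [mul_apply]
    calc ‖∑ q, L' j q * B' q l‖ ≤ ∑ q, ‖L' j q * B' q l‖ := norm_sum_le _ _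
      _ ≤ ∑ _q : Fin n, c * ‖B' j l‖ := by
          refine Finset.sum_le_sum fun q _ => ?_
          rw [norm_mul]
          by_cases hjq : h j = h q
          · exact mul_le_mul (hc _ _) (hmax _ _ (by rw [← hjq]; exact hq)) (norm_nonneg _) hc0
          · rw [hL0 j q hjq]
            simp only [norm_zero, zero_mul]
            positivity
      _ = n * c * ‖B' j l‖ := by simp; ring
  have e2 : ‖(B' * L') j l‖ ≤ n * c * ‖B' j l‖ := by
    rw [mul_apply]
    calc ‖∑ q, B' j q * L' q l‖ ≤ ∑ q, ‖B' j q * L' q l‖ := norm_sum_le _ _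
      _ ≤ ∑ _q : Fin n, c * ‖B' j l‖ := by
          refine Finset.sum_le_sum fun q _ => ?_
          rw [norm_mul, mul_comm]
          by_cases hql : h q = h l
          · exact mul_le_mul (hc _ _) (hmax _ _ (by rw [hql]; exact hq)) (norm_nonneg _) hc0
          · rw [hL0 q l hql]
            simp only [norm_zero, zero_mul]
            positivity
      _ = n * c * ‖B' j l‖ := by simp; ring
  have e3 := key j l
  have e4 : |h j - h l| * ‖B' j l‖ ≤ ε * (2 * (n * c * ‖B' j l‖)) := by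
    have e5 : ((h j - h l : ℝ) : ℂ) * B' j l = -((ε : ℂ) * (L' * B' - B' * L') j l) :=
      eq_neg_of_add_eq_zero_left e3
    have e6 := congrArg norm e5
    rw [norm_neg, norm_mul, norm_mul, Complex.norm_real, Complex.norm_real, Real.norm_eq_abs,
      Real.norm_eq_abs, abs_of_pos (show 0 < ε by positivity)] at e6
    rw [e6]
    apply mul_le_mul_of_nonneg_left _ (by positivity)
    rw [Matrix.sub_apply]
    calc _ ≤ ‖(L' * B') j l‖ + ‖(B' * L') j l‖ := norm_sub_le _ _
      _ ≤ _ := by linarith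
  have e7 : δ * ‖B' j l‖ ≤ |h j - h l| * ‖B' j l‖ :=
    mul_le_mul_of_nonneg_right (hgap j l hq) (norm_nonneg _)
  have e8 : δ ≤ ε * (2 * (n * c)) := by
    have : δ * ‖B' j l‖ ≤ (ε * (2 * (n * c))) * ‖B' j l‖ := by
      calc _ ≤ _ := e7.trans e4
        _ = _ := by ring
    exact le_of_mul_le_mul_right this hpos
  have e9 : ε * (4 * n * c + 4) = δ := by rw [hε]; field_simp
  have e10 : 0 < ε := by positivity
  nlinarith [mul_nonneg (Nat.cast_nonneg (α := ℝ) n) hc0, mul_nonneg e10.le (mul_nonneg (Nat.cast_nonneg (α := ℝ) n) hc0)]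

variable (G : Grp n)

/-- a regular element: the centralizer has the smallest dimension -/
lemma exists_regular : ∃ H ∈ G.p, ∀ L ∈ G.p, H * L = L * H → Z H ≤ Z L := by
  classical
  have h0 : (0 : M n) ∈ G.p := ⟨isHermitian_zero, by rw [NormedSpace.exp_zero]; exact G.one⟩
  let P : ℕ → Prop := fun d => ∃ H ∈ G.p, Module.finrank ℂ (Z H) = d
  have hP : ∃ d, P d := ⟨_, 0, h0, rfl⟩
  obtain ⟨H, hH, hd⟩ := Nat.find_spec hP
  refine ⟨H, hH, fun L hL hc => ?_⟩
  obtain ⟨ε, hε, hle⟩ := Z_perturb hH.1 hc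
  have hC : H + (ε : ℂ) • L ∈ G.p := Grp.p_add hH (Grp.p_smul hL ε) (by
    rw [Matrix.mul_smul, Matrix.smul_mul, hc])
  have h1 : Module.finrank ℂ (Z H) ≤ Module.finrank ℂ (Z (H + (ε : ℂ) • L)) := by
    rw [hd]
    exact Nat.find_min' hP ⟨_, hC, rfl⟩
  have h2 := Submodule.eq_of_le_of_finrank_le hle h1
  intro B hB
  have h3 : B ∈ Z (H + (ε : ℂ) • L) := by rw [h2]; exact hB
  rw [mem_Z] at *
  rw [Matrix.add_mul, Matrix.mul_add, hB, Matrix.smul_mul, Matrix.mul_smul] at h3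
  have h4 := add_left_cancel h3
  have h5 : (ε : ℂ) ≠ 0 := by exact_mod_cast hε.ne'
  exact smul_right_injective _ h5 h4

lemma exp_I_rep {U : M n} (hU : Uni U) (x : Fin n → ℝ) (s : ℝ) :
    exp (((s : ℂ) * Complex.I) • (U * dg x * Uᴴ)) =
      U * diagonal (fun i => Complex.exp ((s * x i : ℝ) * Complex.I)) * Uᴴ := by
  rw [exp_smul_rep hU]
  congr 3
  funext i
  congr 1
  push_cast
  ring

lemma exp_I_rep_star {U : M n} (hU : Uni U) (x : Fin n → ℝ) (s : ℝ) :
    (exp (((s : ℂ) * Complex.I) • (U * dg x * Uᴴ)))ᴴ =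
      U * diagonal (fun i => Complex.exp ((-(s * x i) : ℝ) * Complex.I)) * Uᴴ := by
  rw [exp_I_rep hU, conjTranspose_mul, conjTranspose_mul, conjTranspose_conjTranspose,
    diagonal_conjTranspose, Matrix.mul_assoc]
  congr 3
  funext i
  rw [Pi.star_apply, Complex.star_def, ← Complex.exp_conj]
  congr 1
  simp

/-- entries of the conjugate by `exp (i s X)` -/
lemma conj_I_entry {U : M n} (hU : Uni U) (x : Fin n → ℝ) (s : ℝ) (B : M n) (j l : Fin n) :
    (Uᴴ * (exp (((s : ℂ) * Complex.I) • (U * dg x * Uᴴ)) * B *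
      (exp (((s : ℂ) * Complex.I) • (U * dg x * Uᴴ)))ᴴ) * U) j l =
      Complex.exp ((s * (x j - x l) : ℝ) * Complex.I) * (Uᴴ * B * U) j l := by
  rw [exp_I_rep_star hU, exp_I_rep hU]
  have h : Uᴴ * (U * diagonal (fun i => Complex.exp ((s * x i : ℝ) * Complex.I)) * Uᴴ * B *
      (U * diagonal (fun i => Complex.exp ((-(s * x i) : ℝ) * Complex.I)) * Uᴴ)) * U =
      diagonal (fun i => Complex.exp ((s * x i : ℝ) * Complex.I)) * (Uᴴ * B * U) *
        diagonal (fun i => Complex.exp ((-(s * x i) : ℝ) * Complex.I)) := by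
    calc _ = (Uᴴ * U) * diagonal (fun i => Complex.exp ((s * x i : ℝ) * Complex.I)) *
          (Uᴴ * B * U) * diagonal (fun i => Complex.exp ((-(s * x i) : ℝ) * Complex.I)) *
            (Uᴴ * U) := by simp only [Matrix.mul_assoc]
      _ = _ := by rw [hU.left, Matrix.one_mul, Matrix.mul_one]
  rw [h, mul_diagonal, diagonal_mul, mul_comm, ← mul_assoc, ← Complex.exp_add]
  congr 2
  push_cast
  ring

/-- trace of a product in another basis -/
lemma trace_conj {U : M n} (hU : Uni U) (A B : M n) :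
    trace (A * B) = ∑ j, ∑ l, (Uᴴ * A * U) j l * (Uᴴ * B * U) l j := by
  have h : trace (A * B) = trace ((Uᴴ * A * U) * (Uᴴ * B * U)) := by
    have : (Uᴴ * A * U) * (Uᴴ * B * U) = Uᴴ * (A * B) * U := by
      calc _ = Uᴴ * A * (U * Uᴴ) * B * U := by simp only [Matrix.mul_assoc]
        _ = _ := by rw [hU]; simp only [Matrix.mul_one, Matrix.mul_assoc]
    have e : trace (Uᴴ * (A * B) * U) = trace (A * B) := by
      rw [trace_mul_comm, ← Matrix.mul_assoc, hU, Matrix.one_mul]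
    rw [this, e]
  rw [h, trace]
  refine Finset.sum_congr rfl fun j _ => ?_
  rw [diag_apply, mul_apply]

variable {G}

/-- the first variation of `Re tr (κ A κᴴ H)` for `κ = exp (i t X)` -/
lemma first_variation {X A H : M n} (hX : X.IsHermitian)
    (hmax : ∀ t : ℝ, (trace (exp (((t : ℂ) * Complex.I) • X) * A *
      (exp (((t : ℂ) * Complex.I) • X))ᴴ * H)).re ≤ (trace (A * H)).re) :
    (trace ((X * A - A * X) * H)).im = 0 := by
  obtain ⟨U, x, hU, rfl⟩ := diag_rep hX
  set f : ℝ → ℝ := fun t => ∑ j, ∑ l, (Complex.exp ((t * (x j - x l) : ℝ) * Complex.I) *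
    ((Uᴴ * A * U) j l * (Uᴴ * H * U) l j)).re with hf
  have hf' : ∀ t, f t = (trace (exp (((t : ℂ) * Complex.I) • (U * dg x * Uᴴ)) * A *
      (exp (((t : ℂ) * Complex.I) • (U * dg x * Uᴴ)))ᴴ * H)).re := by
    intro t
    rw [trace_conj hU, Complex.re_sum, hf]
    refine Finset.sum_congr rfl fun j _ => ?_
    rw [Complex.re_sum]
    refine Finset.sum_congr rfl fun l _ => ?_
    rw [conj_I_entry hU]
    congr 1
    ring
  have hf0 : f 0 = (trace (A * H)).re := by
    rw [trace_conj hU, Complex.re_sum, hf]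
    refine Finset.sum_congr rfl fun j _ => ?_
    rw [Complex.re_sum]
    refine Finset.sum_congr rfl fun l _ => ?_
    simp
  have hloc : IsLocalMax f 0 := by
    apply Filter.Eventually.of_forall
    intro t
    show f t ≤ f 0
    rw [hf0, hf']
    exact hmax t
  have hder : HasDerivAt f (∑ j, ∑ l, (((x j - x l : ℝ) : ℂ) * Complex.I *
      ((Uᴴ * A * U) j l * (Uᴴ * H * U) l j)).re) 0 := by
    refine HasDerivAt.fun_sum fun j _ => HasDerivAt.fun_sum fun l _ => ?_
    have h1 : HasDerivAt (fun t : ℝ => ((t * (x j - x l) : ℝ) : ℂ) * Complex.I)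
        (((x j - x l : ℝ) : ℂ) * Complex.I) 0 := by
      have h2 : HasDerivAt (fun t : ℝ => t * (x j - x l)) (x j - x l) 0 := by
        simpa using (hasDerivAt_id (0 : ℝ)).mul_const (x j - x l)
      exact (h2.ofReal_comp).mul_const Complex.I
    have h3 := (h1.cexp).mul_const ((Uᴴ * A * U) j l * (Uᴴ * H * U) l j)
    have h4 := Complex.reCLM.hasFDerivAt.comp_hasDerivAt (0 : ℝ) h3
    refine (h4.congr_deriv ?_)
    simp
  have h0 := hloc.hasDerivAt_eq_zero hder
  have h1 : (trace ((U * dg x * Uᴴ * A - A * (U * dg x * Uᴴ)) * H)) =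
      ∑ j, ∑ l, ((x j - x l : ℝ) : ℂ) * ((Uᴴ * A * U) j l * (Uᴴ * H * U) l j) := by
    rw [trace_conj hU]
    refine Finset.sum_congr rfl fun j _ => Finset.sum_congr rfl fun l _ => ?_
    rw [comm_entry hU]
    ring
  have h2 : (∑ j, ∑ l, (((x j - x l : ℝ) : ℂ) * Complex.I *
      ((Uᴴ * A * U) j l * (Uᴴ * H * U) l j)).re) =
      (Complex.I * ∑ j, ∑ l, ((x j - x l : ℝ) : ℂ) * ((Uᴴ * A * U) j l * (Uᴴ * H * U) l j)).re := by
    rw [Finset.mul_sum, Complex.re_sum]
    refine Finset.sum_congr rfl fun j _ => ?_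
    rw [Finset.mul_sum, Complex.re_sum]
    refine Finset.sum_congr rfl fun l _ => ?_
    congr 1
    ring
  rw [h1]
  rw [h2, Complex.I_mul_re] at h0
  linarith

lemma mul_sin_nonneg {s δ : ℝ} (hs : 0 < s) (h : s * |δ| ≤ 1) : 0 ≤ δ * Real.sin (s * δ) := by
  rcases lt_trichotomy δ 0 with h0 | h0 | h0
  · rw [abs_of_neg h0] at h
    have h1 : 0 < Real.sin (s * -δ) := Real.sin_pos_of_pos_of_le_one (by nlinarith) h
    rw [mul_neg, Real.sin_neg] at h1
    nlinarith
  · rw [h0]; simp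
  · rw [abs_of_pos h0] at h
    have h1 : 0 < Real.sin (s * δ) := Real.sin_pos_of_pos_of_le_one (by nlinarith) h
    nlinarith

lemma mul_sin_pos {s δ : ℝ} (hs : 0 < s) (h : s * |δ| ≤ 1) (h' : δ ≠ 0) :
    0 < δ * Real.sin (s * δ) := by
  rcases lt_trichotomy δ 0 with h0 | h0 | h0
  · rw [abs_of_neg h0] at h
    have h1 : 0 < Real.sin (s * -δ) := Real.sin_pos_of_pos_of_le_one (by nlinarith) h
    rw [mul_neg, Real.sin_neg] at h1
    nlinarith
  · exact absurd h0 h'
  · rw [abs_of_pos h0] at h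
    have h1 : 0 < Real.sin (s * δ) := Real.sin_pos_of_pos_of_le_one (by nlinarith) h
    nlinarith

lemma conj_mul_conj (A B C : M n) : A * (B * C * Bᴴ) * Aᴴ = (A * B) * C * (A * B)ᴴ := by
  rw [conjTranspose_mul]
  simp only [Matrix.mul_assoc]

/-- every element of `p` is conjugate under `K` to one which commutes with `H` -/
lemma kak {X H : M n} (hX : X ∈ G.p) (hH : H ∈ G.p) :
    ∃ k ∈ G.K, H * (k * X * kᴴ) = (k * X * kᴴ) * H := by
  have hcont : Continuous fun k : M n => (trace (k * X * kᴴ * H)).re := by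
    have h1 : Continuous fun k : M n => kᴴ := continuous_id.matrix_conjTranspose
    exact trace_re_cont.comp (((continuous_id.matrix_mul continuous_const).matrix_mul h1).matrix_mul
      continuous_const)
  obtain ⟨k₀, hk₀, hmax⟩ := (Grp.K_compact (G := G)).exists_isMaxOn ⟨1, Grp.K_one⟩ hcont.continuousOn
  refine ⟨k₀, hk₀, ?_⟩
  obtain ⟨X', hX'⟩ : ∃ X', X' = k₀ * X * k₀ᴴ := ⟨_, rfl⟩
  rw [← hX']
  have hX'p : X' ∈ G.p := by rw [hX']; exact Grp.p_conj hX hk₀
  have hmax' : ∀ κ ∈ G.K, (trace (κ * X' * κᴴ * H)).re ≤ (trace (X' * H)).re := by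
    intro κ hκ
    have := hmax (Grp.K_mul hκ hk₀)
    simp only [Set.mem_ofPred_eq] at this
    rw [hX', conj_mul_conj]
    exact this
  obtain ⟨U, h, hU, hh⟩ := diag_rep hH.1
  -- the variation
  have hvar : ∀ s : ℝ, (trace ((X' * (exp (((s : ℂ) * Complex.I) • H) * X' *
      (exp (((s : ℂ) * Complex.I) • H))ᴴ) - (exp (((s : ℂ) * Complex.I) • H) * X' *
      (exp (((s : ℂ) * Complex.I) • H))ᴴ) * X') * H)).im = 0 := by
    intro s
    obtain ⟨E, hE⟩ : ∃ E, E = exp (((s : ℂ) * Complex.I) • H) := ⟨_, rfl⟩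
    rw [← hE]
    have hEK : E ∈ G.K := by rw [hE]; exact Grp.expI hH s
    have hEH : E * H = H * E := by
      rw [hE]
      exact (((Commute.refl H).smul_left _).exp_left).eq
    have hEu := hEK.2
    have hEH' : E * H * Eᴴ = H := by rw [hEH, Matrix.mul_assoc, hEu, Matrix.mul_one]
    apply first_variation hX'p.1
    intro t
    obtain ⟨F, hF⟩ : ∃ F, F = exp (((t : ℂ) * Complex.I) • X') := ⟨_, rfl⟩
    rw [← hF]
    have hFK : F ∈ G.K := by rw [hF]; exact Grp.expI hX'p t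
    have h1 := hmax' (Eᴴ * F * E) (Grp.K_mul (Grp.K_mul (Grp.K_star hEK) hFK) hEK)
    have h2 : trace (Eᴴ * F * E * X' * (Eᴴ * F * E)ᴴ * H) =
        trace (F * (E * X' * Eᴴ) * Fᴴ * H) := by
      have h3 : Eᴴ * F * E * X' * (Eᴴ * F * E)ᴴ * H = Eᴴ * (F * (E * X' * Eᴴ) * Fᴴ * E * H) := by
        rw [conjTranspose_mul, conjTranspose_mul, conjTranspose_conjTranspose]
        simp only [Matrix.mul_assoc]
      have h4 : F * (E * X' * Eᴴ) * Fᴴ * E * H * Eᴴ = F * (E * X' * Eᴴ) * Fᴴ * (E * H * Eᴴ) := by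
        simp only [Matrix.mul_assoc]
      rw [h3, trace_mul_comm, h4, hEH']
    have h4 : trace (E * X' * Eᴴ * H) = trace (X' * H) := by
      have h5 : E * X' * Eᴴ * H = E * (X' * (Eᴴ * H)) := by simp only [Matrix.mul_assoc]
      rw [h5, trace_mul_comm]
      have h6 : Eᴴ * H * E = H := by
        rw [Matrix.mul_assoc, ← hEH, ← Matrix.mul_assoc, hEu.left, Matrix.one_mul]
      rw [Matrix.mul_assoc, h6]
    rw [h2] at h1
    rw [h4]
    exact h1
  -- the entries
  set y : M n := Uᴴ * X' * U with hy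
  have hyh : ∀ j l, y l j = (starRingEnd ℂ) (y j l) := by
    intro j l
    have h1 : yᴴ = y := by
      rw [hy, conjTranspose_mul, conjTranspose_mul, conjTranspose_conjTranspose, hX'p.1.eq,
        Matrix.mul_assoc]
    have h2 := congrFun (congrFun h1 l) j
    rw [conjTranspose_apply] at h2
    exact h2.symm
  have hsum : ∀ s : ℝ, ∑ j, ∑ l, (h j - h l) * Real.sin (s * (h j - h l)) * ‖y j l‖ ^ 2 = 0 := by
    intro s
    have h1 := hvar s
    obtain ⟨A, hA⟩ : ∃ A, A = exp (((s : ℂ) * Complex.I) • H) * X' *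
      (exp (((s : ℂ) * Complex.I) • H))ᴴ := ⟨_, rfl⟩
    rw [← hA] at h1
    have h2 : trace ((X' * A - A * X') * H) = trace (A * (H * X' - X' * H)) := by
      rw [Matrix.sub_mul, Matrix.mul_sub, trace_sub, trace_sub]
      congr 1
      · rw [Matrix.mul_assoc, trace_mul_comm, Matrix.mul_assoc]
      · rw [Matrix.mul_assoc]
    have h3 : ∀ j l, (Uᴴ * A * U) j l = Complex.exp ((s * (h j - h l) : ℝ) * Complex.I) * y j l := by
      intro j l
      rw [hA, hh, conj_I_entry hU]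
    rw [h2, trace_conj hU, Complex.im_sum] at h1
    rw [← neg_eq_zero, ← Finset.sum_neg_distrib, ← h1]
    refine Finset.sum_congr rfl fun j _ => ?_
    rw [Complex.im_sum, ← Finset.sum_neg_distrib]
    refine Finset.sum_congr rfl fun l _ => ?_
    have h4 : (Uᴴ * (H * X' - X' * H) * U) l j = ((h l - h j : ℝ) : ℂ) * y l j := by
      rw [hh, comm_entry hU]
    rw [h3, h4, hyh j l]
    have h5 : Complex.exp ((s * (h j - h l) : ℝ) * Complex.I) * y j l *
        (((h l - h j : ℝ) : ℂ) * (starRingEnd ℂ) (y j l)) =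
        (((h l - h j) * ‖y j l‖ ^ 2 : ℝ) : ℂ) * Complex.exp ((s * (h j - h l) : ℝ) * Complex.I) := by
      have h6 : y j l * (starRingEnd ℂ) (y j l) = ((‖y j l‖ ^ 2 : ℝ) : ℂ) := by
        rw [Complex.mul_conj, Complex.normSq_eq_norm_sq]
      push_cast at h6 ⊢
      linear_combination (Complex.exp (s * (h j - h l) * Complex.I)) * (h l - h j) * h6
    rw [h5, Complex.im_ofReal_mul, Complex.exp_ofReal_mul_I_im]
    ring
  set s : ℝ := 1 / (1 + 2 * ∑ i, |h i|) with hs
  have hden : 0 < 1 + 2 * ∑ i, |h i| := by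
    have : 0 ≤ ∑ i, |h i| := Finset.sum_nonneg fun _ _ => abs_nonneg _
    linarith
  have hs0 : 0 < s := by positivity
  have hs1 : ∀ j l, s * |h j - h l| ≤ 1 := by
    intro j l
    have h1 : |h j - h l| ≤ 1 + 2 * ∑ i, |h i| := by
      have h2 := Finset.single_le_sum (f := fun i => |h i|) (fun _ _ => abs_nonneg _)
        (Finset.mem_univ j)
      have h3 := Finset.single_le_sum (f := fun i => |h i|) (fun _ _ => abs_nonneg _)
        (Finset.mem_univ l)
      have h4 := abs_sub (h j) (h l)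
      linarith
    rw [hs, one_div_mul_eq_div]
    exact (div_le_one hden).2 h1
  have hterm : ∀ j l, (h j - h l) * Real.sin (s * (h j - h l)) * ‖y j l‖ ^ 2 = 0 := by
    intro j l
    have hnn : ∀ j l, 0 ≤ (h j - h l) * Real.sin (s * (h j - h l)) * ‖y j l‖ ^ 2 := fun j l =>
      mul_nonneg (mul_sin_nonneg hs0 (hs1 j l)) (by positivity)
    have h1 := (Finset.sum_eq_zero_iff_of_nonneg fun j _ =>
      Finset.sum_nonneg fun l _ => hnn j l).1 (hsum s) j (Finset.mem_univ j)
    exact (Finset.sum_eq_zero_iff_of_nonneg fun l _ => hnn j l).1 h1 l (Finset.mem_univ l)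
  rw [hh, comm_rep_iff hU]
  intro j l hjl
  have h1 := hterm j l
  have h2 := mul_sin_pos hs0 (hs1 j l) (sub_ne_zero.2 hjl)
  rcases mul_eq_zero.1 h1 with h3 | h3
  · exact absurd h3 h2.ne'
  · have : ‖y j l‖ = 0 := by simpa using h3
    exact norm_eq_zero.1 this

/-- a fixed basis in which all elements of `p`, up to conjugation by `K`, are diagonal -/
lemma exists_basis (G : Grp n) : ∃ U : M n, Uni U ∧ ∀ X ∈ G.p, ∃ k ∈ G.K, ∃ x : Fin n → ℝ,
    k * X * kᴴ = U * dg x * Uᴴ := by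
  obtain ⟨H, hH, hreg⟩ := exists_regular G
  obtain ⟨U, h, hU, hh⟩ := diag_rep hH.1
  refine ⟨U, hU, fun X hX => ?_⟩
  obtain ⟨k, hk, hc⟩ := kak hX hH
  refine ⟨k, hk, ?_⟩
  obtain ⟨L, hL⟩ : ∃ L, L = k * X * kᴴ := ⟨_, rfl⟩
  rw [← hL] at hc ⊢
  have hLp : L ∈ G.p := by rw [hL]; exact Grp.p_conj hX hk
  have hle := hreg L hLp hc
  set y : M n := Uᴴ * L * U with hy
  have hyd : ∀ j l, j ≠ l → y j l = 0 := by
    intro j l hjl
    have h1 : U * diagonal (Pi.single j (1 : ℂ)) * Uᴴ ∈ Z H := by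
      rw [mem_Z, hh]
      unfold dg
      have e : ∀ a b : Fin n → ℂ, (U * diagonal a * Uᴴ) * (U * diagonal b * Uᴴ) =
          U * (diagonal a * diagonal b) * Uᴴ := by
        intro a b
        calc _ = U * diagonal a * (Uᴴ * U) * diagonal b * Uᴴ := by simp only [Matrix.mul_assoc]
          _ = _ := by rw [hU.left]; simp only [Matrix.mul_one, Matrix.mul_assoc]
      rw [e, e, diagonal_mul_diagonal, diagonal_mul_diagonal]
      congr 3
      funext i
      ring
    have h2 := hle h1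
    rw [mem_Z] at h2
    have h3 : y * diagonal (Pi.single j (1 : ℂ)) = diagonal (Pi.single j (1 : ℂ)) * y := by
      have h4 := congrArg (fun B => Uᴴ * B * U) h2
      calc y * diagonal (Pi.single j (1 : ℂ)) =
            Uᴴ * L * U * diagonal (Pi.single j (1 : ℂ)) * (Uᴴ * U) := by
              rw [hU.left, Matrix.mul_one]
        _ = Uᴴ * (L * (U * diagonal (Pi.single j (1 : ℂ)) * Uᴴ)) * U := by
              simp only [Matrix.mul_assoc]
        _ = Uᴴ * (U * diagonal (Pi.single j (1 : ℂ)) * Uᴴ * L) * U := h4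
        _ = (Uᴴ * U) * diagonal (Pi.single j (1 : ℂ)) * (Uᴴ * L * U) := by
              simp only [Matrix.mul_assoc]
        _ = _ := by rw [hU.left, Matrix.one_mul]
    have h4 := congrFun (congrFun h3 j) l
    rw [mul_diagonal, diagonal_mul, Pi.single_eq_same, Pi.single_eq_of_ne hjl.symm] at h4
    simpa using h4.symm
  have hyh : yᴴ = y := by
    rw [hy, conjTranspose_mul, conjTranspose_mul, conjTranspose_conjTranspose, hLp.1.eq,
      Matrix.mul_assoc]
  refine ⟨fun i => (y i i).re, ?_⟩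
  have h5 : y = dg fun i => (y i i).re := by
    unfold dg
    ext j l
    rcases eq_or_ne j l with rfl | hjl
    · rw [diagonal_apply_eq]
      have h6 := congrFun (congrFun hyh j) j
      rw [conjTranspose_apply] at h6
      exact (Complex.conj_eq_iff_re.1 h6).symm
    · rw [hyd j l hjl, diagonal_apply_ne _ hjl]
  rw [← h5, hy]
  calc L = (U * Uᴴ) * L * (U * Uᴴ) := by rw [hU, Matrix.one_mul, Matrix.mul_one]
    _ = _ := by simp only [Matrix.mul_assoc]

end Pool.Agent.Helper92.FL
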