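import Mathlib

/-!
Linear algebra for the proof that the generalized torus knot groups are flawed: Hermitian matrices,
exponentials, the square norm of tuples of matrices.
-/

open Matrix NormedSpace Filter Topology
open scoped ComplexConjugate ComplexOrder

set_option linter.unusedSectionVars false

namespace Pool.Agent.Helper92.FL

variable {n : ℕ}

/-- complex square matrices -/
abbrev M (n : ℕ) := Matrix (Fin n) (Fin n) ℂ

/-- diagonal matrix with real entries -/
noncomputable def dg (x : Fin n → ℝ) : M n := diagonal (fun i => (x i : ℂ))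

/-- unitary matrices -/
def Uni (U : M n) : Prop := U * Uᴴ = 1

lemma Uni.left {U : M n} (h : Uni U) : Uᴴ * U = 1 := mul_eq_one_comm.1 h

lemma Uni.inv {U : M n} (h : Uni U) : U⁻¹ = Uᴴ := inv_eq_right_inv h

lemma Uni.isUnit {U : M n} (h : Uni U) : IsUnit U := ⟨⟨U, Uᴴ, h, h.left⟩, rfl⟩

lemma Uni.star {U : M n} (h : Uni U) : Uni Uᴴ := by
  unfold Uni; rw [conjTranspose_conjTranspose]; exact h.left

lemma Uni.one : Uni (1 : M n) := by unfold Uni; simp

lemma Uni.mul {U W : M n} (h : Uni U) (h' : Uni W) : Uni (U * W) := by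
  unfold Uni at *
  rw [conjTranspose_mul, Matrix.mul_assoc, ← Matrix.mul_assoc W, h', Matrix.one_mul, h]

lemma diag_rep {X : M n} (hX : X.IsHermitian) :
    ∃ (U : M n) (x : Fin n → ℝ), Uni U ∧ X = U * dg x * Uᴴ := by
  refine ⟨hX.eigenvectorUnitary, hX.eigenvalues, ?_, ?_⟩
  · exact (mem_unitaryGroup_iff.1 hX.eigenvectorUnitary.2)
  · have := hX.spectral_theorem
    rw [Unitary.conjStarAlgAut_apply] at this
    exact this

lemma rep_herm {U : M n} {x : Fin n → ℝ} : (U * dg x * Uᴴ).IsHermitian := by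
  unfold IsHermitian
  rw [conjTranspose_mul, conjTranspose_mul, conjTranspose_conjTranspose, Matrix.mul_assoc]
  congr 2
  unfold dg
  rw [diagonal_conjTranspose]
  congr 1
  funext i
  simp

/-- conjugate of a complex diagonal matrix -/
lemma exp_rep {U : M n} (hU : Uni U) (v : Fin n → ℂ) :
    exp (U * diagonal v * Uᴴ) = U * diagonal (fun i => Complex.exp (v i)) * Uᴴ := by
  rw [← hU.inv, Matrix.exp_conj _ _ hU.isUnit, Matrix.exp_diagonal]
  congr 3
  funext i
  rw [Pi.coe_exp, Complex.exp_eq_exp_ℂ]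

lemma exp_smul_rep {U : M n} (hU : Uni U) (x : Fin n → ℝ) (z : ℂ) :
    exp (z • (U * dg x * Uᴴ)) = U * diagonal (fun i => Complex.exp (z * x i)) * Uᴴ := by
  rw [← exp_rep hU]
  congr 1
  unfold dg
  rw [← Matrix.smul_mul, ← Matrix.mul_smul]
  congr 3
  ext i j
  rcases eq_or_ne i j with rfl | h
  · simp
  · simp [diagonal_apply_ne _ h]

lemma exp_rep_real {U : M n} (hU : Uni U) (x : Fin n → ℝ) :
    exp (U * dg x * Uᴴ) = U * dg (fun i => Real.exp (x i)) * Uᴴ := by
  have := exp_rep hU (fun i => (x i : ℂ))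
  unfold dg
  rw [this]
  congr 3
  funext i
  simp

lemma exp_smul_real_rep {U : M n} (hU : Uni U) (x : Fin n → ℝ) (t : ℝ) :
    exp ((t : ℂ) • (U * dg x * Uᴴ)) = U * dg (fun i => Real.exp (t * x i)) * Uᴴ := by
  rw [exp_smul_rep hU]
  unfold dg
  congr 3
  funext i
  push_cast
  rfl

lemma dg_mul (x y : Fin n → ℝ) : (dg x : M n) * dg y = dg (fun i => x i * y i) := by
  unfold dg
  rw [diagonal_mul_diagonal]
  congr 1
  funext i
  push_cast
  rfl

lemma dg_one : (dg (fun _ => 1) : M n) = 1 := by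
  unfold dg
  simp

lemma rep_mul {U : M n} (hU : Uni U) (x y : Fin n → ℝ) :
    (U * dg x * Uᴴ) * (U * dg y * Uᴴ) = U * dg (fun i => x i * y i) * Uᴴ := by
  rw [← dg_mul]
  calc (U * dg x * Uᴴ) * (U * dg y * Uᴴ) = U * dg x * (Uᴴ * U) * dg y * Uᴴ := by
        simp only [Matrix.mul_assoc]
    _ = _ := by rw [hU.left, Matrix.mul_one, Matrix.mul_assoc U]

lemma rep_one {U : M n} (hU : Uni U) : U * dg (fun _ => 1) * Uᴴ = 1 := by
  rw [dg_one, Matrix.mul_one, hU]

/-- the inverse of the exponential -/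
lemma exp_rep_inv {U : M n} (hU : Uni U) (x : Fin n → ℝ) :
    (exp (U * dg x * Uᴴ))⁻¹ = U * dg (fun i => Real.exp (-x i)) * Uᴴ := by
  apply inv_eq_right_inv
  rw [exp_rep_real hU, rep_mul hU, ← rep_one hU]
  congr 3
  funext i
  rw [← Real.exp_add]
  simp

variable {ι : Type} [Fintype ι]

/-- the square of the norm of a tuple of matrices -/
noncomputable def N (a : ι → M n) : ℝ := ∑ i, ∑ j, ∑ l, ‖a i j l‖ ^ 2

/-- the weight of the entries at `(j, l)`, in the basis given by `U` -/
noncomputable def w (U : M n) (a : ι → M n) (j l : Fin n) : ℝ := ∑ i, ‖(Uᴴ * a i * U) j l‖ ^ 2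

/-- conjugation -/
noncomputable def act (g : M n) (a : ι → M n) : ι → M n := fun i => g * a i * g⁻¹

lemma sq_sum (A : M n) : ∑ j, ∑ l, ‖A j l‖ ^ 2 = (trace (Aᴴ * A)).re := by
  rw [trace, Complex.re_sum, Finset.sum_comm]
  refine Finset.sum_congr rfl fun l _ => ?_
  rw [diag_apply, mul_apply, Complex.re_sum]
  refine Finset.sum_congr rfl fun j _ => ?_
  rw [conjTranspose_apply, Complex.star_def, ← Complex.normSq_eq_conj_mul_self,
    Complex.ofReal_re, Complex.normSq_eq_norm_sq]

lemma sq_sum_conj {U : M n} (hU : Uni U) (A : M n) :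
    ∑ j, ∑ l, ‖(Uᴴ * A * U) j l‖ ^ 2 = ∑ j, ∑ l, ‖A j l‖ ^ 2 := by
  rw [sq_sum, sq_sum]
  congr 1
  have : (Uᴴ * A * U)ᴴ * (Uᴴ * A * U) = Uᴴ * (Aᴴ * A) * U := by
    rw [conjTranspose_mul, conjTranspose_mul, conjTranspose_conjTranspose]
    calc Uᴴ * (Aᴴ * U) * (Uᴴ * A * U) = Uᴴ * Aᴴ * (U * Uᴴ) * A * U := by
          simp only [Matrix.mul_assoc]
      _ = _ := by rw [hU]; simp only [Matrix.mul_one, Matrix.mul_assoc]
  rw [this, trace_mul_comm, ← Matrix.mul_assoc, hU, Matrix.one_mul]

lemma N_eq_w {U : M n} (hU : Uni U) (a : ι → M n) : N a = ∑ j, ∑ l, w U a j l := by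
  unfold N w
  rw [Finset.sum_congr rfl fun i _ => (sq_sum_conj hU (a i)).symm]
  rw [Finset.sum_comm]
  refine Finset.sum_congr rfl fun j _ => ?_
  rw [Finset.sum_comm]

lemma N_nonneg (a : ι → M n) : 0 ≤ N a := by unfold N; positivity

lemma w_nonneg (U : M n) (a : ι → M n) (j l : Fin n) : 0 ≤ w U a j l := by unfold w; positivity

lemma w_le_N {U : M n} (hU : Uni U) (a : ι → M n) (j l : Fin n) : w U a j l ≤ N a := by
  rw [N_eq_w hU]
  calc w U a j l ≤ ∑ l', w U a j l' :=
        Finset.single_le_sum (fun l' _ => w_nonneg U a j l') (Finset.mem_univ l)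
    _ ≤ _ := Finset.single_le_sum (f := fun j' => ∑ l', w U a j' l')
        (fun j' _ => Finset.sum_nonneg fun l' _ => w_nonneg U a j' l') (Finset.mem_univ j)

lemma act_mul (g h : M n) (a : ι → M n) : act (g * h) a = act g (act h a) := by
  funext i
  simp only [act, Matrix.mul_inv_rev, Matrix.mul_assoc]

lemma act_one (a : ι → M n) : act 1 a = a := by
  funext i
  simp [act]

lemma act_uni {k : M n} (hk : Uni k) (a : ι → M n) : act k a = fun i => k * a i * kᴴ := by
  funext i
  rw [act, hk.inv]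

lemma N_act_uni {k : M n} (hk : Uni k) (a : ι → M n) : N (act k a) = N a := by
  unfold N
  refine Finset.sum_congr rfl fun i _ => ?_
  rw [act_uni hk]
  have := sq_sum_conj hk.star (a i)
  rw [conjTranspose_conjTranspose] at this
  exact this

lemma act_sub (g : M n) (a b : ι → M n) : act g (a - b) = act g a - act g b := by
  funext i
  simp only [act, Pi.sub_apply, Matrix.mul_sub, Matrix.sub_mul]

lemma N_sub_act_uni {k : M n} (hk : Uni k) (a b : ι → M n) : N (act k a - act k b) = N (a - b) := by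
  rw [← act_sub, N_act_uni hk]

/-- entries of the conjugate by an exponential -/
lemma act_exp_entry {U : M n} (hU : Uni U) (x : Fin n → ℝ) (a : ι → M n) (i : ι) (j l : Fin n) :
    (Uᴴ * act (exp (U * dg x * Uᴴ)) a i * U) j l =
      ((Real.exp (x j - x l) : ℝ) : ℂ) * (Uᴴ * a i * U) j l := by
  have h : Uᴴ * act (exp (U * dg x * Uᴴ)) a i * U =
      dg (fun i => Real.exp (x i)) * (Uᴴ * a i * U) * dg (fun i => Real.exp (-x i)) := by
    rw [act, exp_rep_inv hU, exp_rep_real hU]
    calc Uᴴ * (U * dg (fun i => Real.exp (x i)) * Uᴴ * a i * (U * dg (fun i => Real.exp (-x i)) * Uᴴ)) * U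
        = (Uᴴ * U) * dg (fun i => Real.exp (x i)) * (Uᴴ * a i * U) * dg (fun i => Real.exp (-x i)) *
            (Uᴴ * U) := by simp only [Matrix.mul_assoc]
      _ = _ := by rw [hU.left, Matrix.one_mul, Matrix.mul_one]
  rw [h]
  unfold dg
  rw [mul_diagonal, diagonal_mul, sub_eq_add_neg, Real.exp_add]
  push_cast
  ring

lemma w_act_exp {U : M n} (hU : Uni U) (x : Fin n → ℝ) (a : ι → M n) (j l : Fin n) :
    w U (act (exp (U * dg x * Uᴴ)) a) j l = Real.exp (x j - x l) ^ 2 * w U a j l := by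
  unfold w
  rw [Finset.mul_sum]
  refine Finset.sum_congr rfl fun i _ => ?_
  rw [act_exp_entry hU, norm_mul, mul_pow, Complex.norm_real, Real.norm_eq_abs, sq_abs]

lemma w_act_exp_sub {U : M n} (hU : Uni U) (x : Fin n → ℝ) (a : ι → M n) (j l : Fin n) :
    w U (act (exp (U * dg x * Uᴴ)) a - a) j l = (Real.exp (x j - x l) - 1) ^ 2 * w U a j l := by
  unfold w
  rw [Finset.mul_sum]
  refine Finset.sum_congr rfl fun i _ => ?_
  rw [Pi.sub_apply, Matrix.mul_sub, Matrix.sub_mul, Matrix.sub_apply, act_exp_entry hU]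
  have : ((Real.exp (x j - x l) : ℝ) : ℂ) * (Uᴴ * a i * U) j l - (Uᴴ * a i * U) j l =
      ((Real.exp (x j - x l) - 1 : ℝ) : ℂ) * (Uᴴ * a i * U) j l := by
    push_cast; ring
  rw [this, norm_mul, mul_pow, Complex.norm_real, Real.norm_eq_abs, sq_abs]

/-- the linear term -/
noncomputable def D (U : M n) (x : Fin n → ℝ) (a : ι → M n) : ℝ :=
  ∑ j, ∑ l, (x j - x l) * w U a j l

/-- the basic inequality -/
lemma N_act_exp_ge {U : M n} (hU : Uni U) (x : Fin n → ℝ) (a : ι → M n) :
    N a + 2 * D U x a + N (act (exp (U * dg x * Uᴴ)) a - a) ≤ N (act (exp (U * dg x * Uᴴ)) a) := by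
  rw [N_eq_w hU a, N_eq_w hU (act _ a - a), N_eq_w hU (act _ a), D, Finset.mul_sum,
    ← Finset.sum_add_distrib, ← Finset.sum_add_distrib]
  refine Finset.sum_le_sum fun j _ => ?_
  rw [Finset.mul_sum, ← Finset.sum_add_distrib, ← Finset.sum_add_distrib]
  refine Finset.sum_le_sum fun l _ => ?_
  rw [w_act_exp hU, w_act_exp_sub hU]
  have h1 := Real.add_one_le_exp (x j - x l)
  nlinarith [w_nonneg U a j l, h1]

lemma tendsto_M {β : Type*} {F : Filter β} {a : β → M n} {b : M n} :
    Tendsto a F (𝓝 b) ↔ ∀ j l, Tendsto (fun x => a x j l) F (𝓝 (b j l)) := by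
  constructor
  · intro h j l
    have hc : Continuous fun A : M n => A j l := continuous_id.matrix_elem j l
    exact (hc.tendsto b).comp h
  · intro h
    have h1 : Tendsto (fun x => (fun j l => a x j l : Fin n → Fin n → ℂ)) F (𝓝 (fun j l => b j l)) :=
      tendsto_pi_nhds.2 fun j => tendsto_pi_nhds.2 fun l => h j l
    have hc : Continuous fun f : Fin n → Fin n → ℂ => (Matrix.of f : M n) :=
      continuous_matrixOf.2 continuous_id
    exact (hc.tendsto _).comp h1

lemma N_continuous : Continuous (N : (ι → M n) → ℝ) := by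
  unfold N
  fun_prop

lemma act_continuous_uni : Continuous fun p : M n × (ι → M n) => (fun i => p.1 * p.2 i * p.1ᴴ) := by
  refine continuous_pi fun i => ?_
  have h : Continuous fun p : M n × (ι → M n) => p.1ᴴ := continuous_fst.matrix_conjTranspose
  exact (continuous_fst.matrix_mul ((continuous_apply i).comp continuous_snd)).matrix_mul h

lemma w_continuous (U : M n) (j l : Fin n) : Continuous fun a : ι → M n => w U a j l := by
  unfold w
  refine continuous_finsetSum _ fun i _ => ?_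
  have : Continuous fun a : ι → M n => (Uᴴ * a i * U) j l := by
    have h1 : Continuous fun a : ι → M n => Uᴴ * a i * U :=
      (continuous_const.mul (continuous_apply i)).mul continuous_const
    exact (continuous_apply l).comp ((continuous_apply j).comp h1)
  exact this.norm.pow 2

lemma entry_le_N (a : ι → M n) (i : ι) (j l : Fin n) : ‖a i j l‖ ^ 2 ≤ N a := by
  unfold N
  calc ‖a i j l‖ ^ 2 ≤ ∑ l', ‖a i j l'‖ ^ 2 :=
        Finset.single_le_sum (f := fun l' => ‖a i j l'‖ ^ 2) (fun _ _ => by positivity)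
          (Finset.mem_univ l)
    _ ≤ ∑ j', ∑ l', ‖a i j' l'‖ ^ 2 :=
        Finset.single_le_sum (f := fun j' => ∑ l', ‖a i j' l'‖ ^ 2)
          (fun _ _ => Finset.sum_nonneg fun _ _ => by positivity) (Finset.mem_univ j)
    _ ≤ _ := Finset.single_le_sum (f := fun i' => ∑ j', ∑ l', ‖a i' j' l'‖ ^ 2)
        (fun _ _ => Finset.sum_nonneg fun _ _ => Finset.sum_nonneg fun _ _ => by positivity)
          (Finset.mem_univ i)

/-- convergence in terms of `N` -/
lemma tendsto_iff_N {β : Type*} {F : Filter β} {a : β → ι → M n} {b : ι → M n} :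
    Tendsto a F (𝓝 b) ↔ Tendsto (fun x => N (a x - b)) F (𝓝 0) := by
  constructor
  · intro h
    have h1 : Tendsto (fun x => a x - b) F (𝓝 0) := by
      simpa using h.sub_const b
    have h2 := (N_continuous (ι := ι) (n := n)).tendsto 0
    have h3 : N (0 : ι → M n) = 0 := by simp [N]
    rw [h3] at h2
    exact h2.comp h1
  · intro h
    rw [tendsto_pi_nhds]
    intro i
    rw [tendsto_M]
    intro j l
    rw [tendsto_iff_norm_sub_tendsto_zero]
    have h1 : Tendsto (fun x => √(N (a x - b))) F (𝓝 0) := by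
      have := (Real.continuous_sqrt.tendsto 0).comp h
      rwa [Real.sqrt_zero] at this
    refine squeeze_zero (fun x => norm_nonneg _) (fun x => ?_) h1
    apply Real.le_sqrt_of_sq_le
    exact entry_le_N (a x - b) i j l

lemma N_eq_zero {a : ι → M n} (h : N a = 0) : a = 0 := by
  funext i
  ext j l
  have := entry_le_N a i j l
  rw [h] at this
  have h2 : ‖a i j l‖ = 0 := by
    have := norm_nonneg (a i j l)
    nlinarith
  simpa using h2

lemma N_add_le (a b : ι → M n) : N (a + b) ≤ 2 * N a + 2 * N b := by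
  unfold N
  simp only [Finset.mul_sum, ← Finset.sum_add_distrib]
  refine Finset.sum_le_sum fun i _ => Finset.sum_le_sum fun j _ => Finset.sum_le_sum fun l _ => ?_
  have := norm_add_le (a i j l) (b i j l)
  have h1 := norm_nonneg (a i j l)
  have h2 := norm_nonneg (b i j l)
  have h3 := norm_nonneg (a i j l + b i j l)
  simp only [Pi.add_apply, Matrix.add_apply]
  nlinarith [sq_nonneg (‖a i j l‖ - ‖b i j l‖)]

lemma exp_cont : Continuous (exp : M n → M n) := by
  let _ : NormedRing (M n) := Matrix.linftyOpNormedRing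
  let _ : NormedAlgebra ℝ (M n) := Matrix.linftyOpNormedAlgebra
  let _ : NormedAlgebra ℚ (M n) := NormedAlgebra.restrictScalars ℚ ℝ (M n)
  exact NormedSpace.exp_continuous

lemma inv_tendsto {β : Type*} {F : Filter β} {g : β → M n} {h : M n} (hg : Tendsto g F (𝓝 h))
    (hh : IsUnit h.det) : Tendsto (fun x => (g x)⁻¹) F (𝓝 h⁻¹) := by
  simp only [Matrix.inv_def]
  have h1 : Tendsto (fun x => (g x).det) F (𝓝 h.det) :=
    ((continuous_id.matrix_det).tendsto h).comp hg
  have h2 : Tendsto (fun x => (g x).adjugate) F (𝓝 h.adjugate) :=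
    ((continuous_id.matrix_adjugate).tendsto h).comp hg
  have h3 : Tendsto (fun x => Ring.inverse (g x).det) F (𝓝 (Ring.inverse h.det)) := by
    simp only [Ring.inverse_eq_inv']
    exact h1.inv₀ hh.ne_zero
  exact h3.smul h2

/-- entries of conjugates of a commutator with a real diagonal matrix -/
lemma comm_entry {U : M n} (hU : Uni U) (x : Fin n → ℝ) (B : M n) (j l : Fin n) :
    (Uᴴ * ((U * dg x * Uᴴ) * B - B * (U * dg x * Uᴴ)) * U) j l =
      ((x j - x l : ℝ) : ℂ) * (Uᴴ * B * U) j l := by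
  have h : Uᴴ * ((U * dg x * Uᴴ) * B - B * (U * dg x * Uᴴ)) * U =
      dg x * (Uᴴ * B * U) - (Uᴴ * B * U) * dg x := by
    rw [Matrix.mul_sub, Matrix.sub_mul]
    congr 1
    · calc Uᴴ * (U * dg x * Uᴴ * B) * U = (Uᴴ * U) * dg x * (Uᴴ * B * U) := by
            simp only [Matrix.mul_assoc]
        _ = _ := by rw [hU.left, Matrix.one_mul]
    · calc Uᴴ * (B * (U * dg x * Uᴴ)) * U = (Uᴴ * B * U) * dg x * (Uᴴ * U) := by
            simp only [Matrix.mul_assoc]
        _ = _ := by rw [hU.left, Matrix.mul_one]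
  rw [h, Matrix.sub_apply]
  unfold dg
  rw [mul_diagonal, diagonal_mul]
  push_cast
  ring

lemma eq_zero_of_conj {U : M n} (hU : Uni U) {B : M n} (h : Uᴴ * B * U = 0) : B = 0 := by
  have : U * (Uᴴ * B * U) * Uᴴ = B := by
    calc U * (Uᴴ * B * U) * Uᴴ = (U * Uᴴ) * B * (U * Uᴴ) := by simp only [Matrix.mul_assoc]
      _ = B := by rw [hU, Matrix.one_mul, Matrix.mul_one]
  rw [← this, h, Matrix.mul_zero, Matrix.zero_mul]

lemma comm_rep_iff {U : M n} (hU : Uni U) (x : Fin n → ℝ) (B : M n) :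
    (U * dg x * Uᴴ) * B = B * (U * dg x * Uᴴ) ↔
      ∀ j l, x j ≠ x l → (Uᴴ * B * U) j l = 0 := by
  constructor
  · intro h j l hjl
    have h1 := comm_entry hU x B j l
    rw [h, sub_self, Matrix.mul_zero, Matrix.zero_mul, Matrix.zero_apply] at h1
    rcases mul_eq_zero.1 h1.symm with h2 | h2
    · exact absurd (sub_eq_zero.1 (by exact_mod_cast h2)) hjl
    · exact h2
  · intro h
    rw [← sub_eq_zero]
    apply eq_zero_of_conj hU
    ext j l
    rw [comm_entry hU, Matrix.zero_apply]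
    by_cases hjl : x j = x l
    · rw [hjl]; simp
    · rw [h j l hjl, mul_zero]

lemma comm_of_comm_exp {X B : M n} (hX : X.IsHermitian) (h : exp X * B = B * exp X) :
    X * B = B * X := by
  obtain ⟨U, x, hU, rfl⟩ := diag_rep hX
  rw [exp_rep_real hU, comm_rep_iff hU] at h
  rw [comm_rep_iff hU]
  intro j l hjl
  exact h j l fun he => hjl (Real.exp_injective he)

lemma rep_inj_zero {U : M n} (hU : Uni U) {x : Fin n → ℝ} (h : U * dg (fun i => Real.exp (x i)) * Uᴴ = 1) :
    U * dg x * Uᴴ = 0 := by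
  have h1 : (dg (fun i => Real.exp (x i)) : M n) = 1 := by
    have : Uᴴ * (U * dg (fun i => Real.exp (x i)) * Uᴴ) * U = Uᴴ * 1 * U := by rw [h]
    rw [Matrix.mul_one, hU.left] at this
    rw [← this]
    calc dg (fun i => Real.exp (x i)) = (Uᴴ * U) * dg (fun i => Real.exp (x i)) * (Uᴴ * U) := by
          rw [hU.left, Matrix.one_mul, Matrix.mul_one]
      _ = _ := by simp only [Matrix.mul_assoc]
  have h2 : x = fun _ => 0 := by
    funext i
    have := congrFun (congrFun h1 i) i
    unfold dg at this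
    rw [diagonal_apply_eq, Matrix.one_apply_eq] at this
    have h3 : Real.exp (x i) = 1 := by exact_mod_cast this
    exact Real.exp_eq_one_iff _ |>.1 h3
  rw [h2]
  unfold dg
  simp

lemma exp_inj {X Y : M n} (hX : X.IsHermitian) (hY : Y.IsHermitian) (h : exp X = exp Y) : X = Y := by
  have h1 : X * Y = Y * X := by
    apply comm_of_comm_exp hX
    rw [h]
    exact ((Commute.refl Y).exp_left).eq
  have h2 : exp (X - Y) = 1 := by
    rw [sub_eq_add_neg, Matrix.exp_add_of_commute _ _ (Commute.neg_right h1), Matrix.exp_neg, h]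
    exact Matrix.mul_nonsing_inv _ ((Matrix.isUnit_iff_isUnit_det _).1 (Matrix.isUnit_exp Y))
  obtain ⟨U, x, hU, hx⟩ := diag_rep (hX.sub hY)
  rw [hx, exp_rep_real hU] at h2
  have := rep_inj_zero hU h2
  rw [← hx] at this
  exact sub_eq_zero.1 this

/-- logarithms of positive definite matrices -/
lemma exists_log_posDef {q : M n} (hp : q.PosDef) : ∃ X : M n, X.IsHermitian ∧ exp X = q := by
  have hev := hp.eigenvalues_pos
  obtain ⟨U, hUd⟩ : ∃ U : M n, U = (hp.1.eigenvectorUnitary : M n) := ⟨_, rfl⟩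
  have hU : Uni U := by
    rw [hUd]
    exact mem_unitaryGroup_iff.1 hp.1.eigenvectorUnitary.2
  have hrep : q = U * dg hp.1.eigenvalues * Uᴴ := by
    have := hp.1.spectral_theorem
    rw [Unitary.conjStarAlgAut_apply] at this
    rw [hUd]
    exact this
  refine ⟨U * dg (fun i => Real.log (hp.1.eigenvalues i)) * Uᴴ, rep_herm, ?_⟩
  rw [exp_rep_real hU]
  conv_rhs => rw [hrep]
  congr 3
  funext i
  exact Real.exp_log (hev i)

/-- the logarithm of `gᴴ g` -/
lemma exists_log {g : M n} (hg : IsUnit g.det) : ∃ X : M n, X.IsHermitian ∧ exp X = gᴴ * g := by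
  apply exists_log_posDef
  apply Matrix.PosDef.conjTranspose_mul_self
  exact Matrix.mulVec_injective_of_isUnit ((Matrix.isUnit_iff_isUnit_det g).2 hg)

lemma exp_herm {X : M n} (hX : X.IsHermitian) : (exp X).IsHermitian := hX.exp

lemma exp_det_unit (X : M n) : IsUnit (exp X).det :=
  (Matrix.isUnit_iff_isUnit_det _).1 (Matrix.isUnit_exp X)

/-- the square of the norm of one matrix -/
noncomputable def nr (A : M n) : ℝ := ∑ j, ∑ l, ‖A j l‖ ^ 2

lemma nr_rep {U : M n} (hU : Uni U) (x : Fin n → ℝ) : nr (U * dg x * Uᴴ) = ∑ i, x i ^ 2 := by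
  have h := sq_sum_conj hU.star (dg x : M n)
  rw [conjTranspose_conjTranspose] at h
  rw [nr, h]
  refine Finset.sum_congr rfl fun j _ => ?_
  rw [Finset.sum_eq_single j]
  · unfold dg
    rw [diagonal_apply_eq, Complex.norm_real, Real.norm_eq_abs, sq_abs]
  · intro l _ hl
    unfold dg
    rw [diagonal_apply_ne _ (Ne.symm hl)]
    simp
  · simp

lemma trace_rep {U : M n} (hU : Uni U) (x : Fin n → ℝ) : (trace (U * dg x * Uᴴ)).re = ∑ i, x i := by
  rw [trace_mul_comm, ← Matrix.mul_assoc, hU.left, Matrix.one_mul]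
  unfold dg
  rw [trace_diagonal]
  simp

lemma abs_le_exp (x : ℝ) : |x| ≤ Real.exp x + Real.exp (-x) := by
  have h1 := Real.add_one_le_exp x
  have h2 := Real.add_one_le_exp (-x)
  have h3 := Real.exp_pos x
  have h4 := Real.exp_pos (-x)
  rcases abs_cases x with ⟨h, _⟩ | ⟨h, _⟩ <;> rw [h] <;> linarith

lemma nr_le {X : M n} (hX : X.IsHermitian) :
    nr X ≤ ((trace (exp X)).re + (trace (exp X)⁻¹).re) ^ 2 := by
  obtain ⟨U, x, hU, rfl⟩ := diag_rep hX
  rw [nr_rep hU, exp_rep_inv hU, exp_rep_real hU, trace_rep hU, trace_rep hU,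
    ← Finset.sum_add_distrib]
  have h1 : ∑ i, x i ^ 2 ≤ (∑ i, |x i|) ^ 2 := by
    rw [sq, Finset.sum_mul]
    refine Finset.sum_le_sum fun i _ => ?_
    rw [← sq_abs, sq]
    exact mul_le_mul_of_nonneg_left
      (Finset.single_le_sum (f := fun i => |x i|) (fun _ _ => abs_nonneg _) (Finset.mem_univ i))
      (abs_nonneg _)
  refine h1.trans ?_
  apply pow_le_pow_left₀ (Finset.sum_nonneg fun _ _ => abs_nonneg _)
  exact Finset.sum_le_sum fun i _ => abs_le_exp (x i)

lemma entry_le_nr (A : M n) (j l : Fin n) : ‖A j l‖ ≤ √(nr A) := by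
  apply Real.le_sqrt_of_sq_le
  exact entry_le_N (ι := Unit) (fun _ => A) () j l |>.trans_eq (by simp [N, nr])

lemma isCompact_entries (C : ℝ) : IsCompact {A : M n | ∀ j l, ‖A j l‖ ≤ C} := by
  have h := IsCompact.matrix (m := Fin n) (n := Fin n) (isCompact_closedBall (0 : ℂ) C)
  convert h using 1
  ext A
  simp [Set.mem_matrix]

lemma isCompact_nr (C : ℝ) : IsCompact {A : M n | nr A ≤ C} := by
  have hc : Continuous (nr : M n → ℝ) := by
    unfold nr
    refine continuous_finsetSum _ fun j _ => continuous_finsetSum _ fun l _ => ?_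
    exact ((continuous_id.matrix_elem j l).norm).pow 2
  refine (isCompact_entries (√C)).of_isClosed_subset (isClosed_le hc continuous_const) ?_
  intro A hA j l
  exact (entry_le_nr A j l).trans (Real.sqrt_le_sqrt hA)

lemma trace_re_cont : Continuous fun A : M n => (trace A).re :=
  Complex.continuous_re.comp continuous_id.matrix_trace

lemma isClosed_herm : IsClosed {A : M n | A.IsHermitian} :=
  isClosed_eq continuous_id.matrix_conjTranspose continuous_id

/-- continuity of the logarithm -/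
lemma log_tendsto {β : Type*} {F : Filter β} {X : β → M n} {Y : M n} (hX : ∀ i, (X i).IsHermitian)
    (hY : Y.IsHermitian) (h : Tendsto (fun i => exp (X i)) F (𝓝 (exp Y))) : Tendsto X F (𝓝 Y) := by
  have h1 : Tendsto (fun i => ((trace (exp (X i))).re + (trace (exp (X i))⁻¹).re) ^ 2) F
      (𝓝 (((trace (exp Y)).re + (trace (exp Y)⁻¹).re) ^ 2)) :=
    (((trace_re_cont.tendsto _).comp h).add
      ((trace_re_cont.tendsto _).comp (inv_tendsto h (exp_det_unit Y)))).pow 2
  set C := ((trace (exp Y)).re + (trace (exp Y)⁻¹).re) ^ 2 + 1 with hC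
  have h2 : ∀ᶠ i in F, X i ∈ {A : M n | nr A ≤ C} := by
    filter_upwards [h1.eventually (gt_mem_nhds (show _ < C by rw [hC]; linarith))] with i hi
    exact (nr_le (hX i)).trans hi.le
  rw [tendsto_iff_ultrafilter]
  intro g hg
  have h3 : ∀ᶠ i in (g : Filter β), X i ∈ {A : M n | nr A ≤ C} := hg h2
  obtain ⟨Z, hZ, hZ'⟩ := (isCompact_nr C).ultrafilter_le_nhds (g.map X)
    (by rw [le_principal_iff]; exact h3)
  have hZ'' : Tendsto X g (𝓝 Z) := hZ'
  have h4 : Z.IsHermitian := isClosed_herm.mem_of_tendsto hZ'' (Eventually.of_forall hX)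
  have h5 : exp Z = exp Y :=
    tendsto_nhds_unique ((exp_cont.tendsto Z).comp hZ'') (h.mono_left hg)
  rw [exp_inj h4 hY h5] at hZ''
  exact hZ''

end Pool.Agent.Helper92.FL
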