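import Pool.Agent.Helper92.FL.Kak

/-!
The local convergence lemma near minimal tuples.
-/

open Matrix NormedSpace Filter Topology
open scoped ComplexConjugate ComplexOrder

set_option linter.unusedSectionVars false

namespace Pool.Agent.Helper92.FL

variable {n : ℕ} {ι : Type} [Fintype ι] {G : Grp n} {β : Type*}

lemma tendsto_double {F : Filter β} {f : Fin n → Fin n → β → ℝ}
    (h : ∀ j l, Tendsto (f j l) F (𝓝 0)) : Tendsto (fun i => ∑ j, ∑ l, f j l i) F (𝓝 0) := by
  have h1 : Tendsto (fun i => ∑ j, ∑ l, f j l i) F (𝓝 (∑ _j : Fin n, ∑ _l : Fin n, (0 : ℝ))) :=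
    tendsto_finsetSum _ fun j _ => tendsto_finsetSum _ fun l _ => h j l
  simpa using h1

lemma w_sub_le {U : M n} (hU : Uni U) (x : Fin n → ℝ) (v b : ι → M n) (j l : Fin n) :
    w U (act (exp (U * dg x * Uᴴ)) v - b) j l ≤ 2 * ((Real.exp (x j - x l) - 1) ^ 2 * w U b j l) +
      2 * (Real.exp (x j - x l) ^ 2 * w U (v - b) j l) := by
  unfold w
  simp only [Finset.mul_sum, ← Finset.sum_add_distrib]
  refine Finset.sum_le_sum fun i _ => ?_
  have h1 : (Uᴴ * (act (exp (U * dg x * Uᴴ)) v - b) i * U) j l =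
      ((Real.exp (x j - x l) - 1 : ℝ) : ℂ) * (Uᴴ * b i * U) j l +
        ((Real.exp (x j - x l) : ℝ) : ℂ) * (Uᴴ * (v - b) i * U) j l := by
    rw [Pi.sub_apply, Pi.sub_apply, Matrix.mul_sub, Matrix.sub_mul, Matrix.sub_apply,
      act_exp_entry hU, Matrix.mul_sub, Matrix.sub_mul, Matrix.sub_apply]
    push_cast
    ring
  rw [h1]
  have h2 := norm_add_le (((Real.exp (x j - x l) - 1 : ℝ) : ℂ) * (Uᴴ * b i * U) j l)
    (((Real.exp (x j - x l) : ℝ) : ℂ) * (Uᴴ * (v - b) i * U) j l)
  have h3 : ‖((Real.exp (x j - x l) - 1 : ℝ) : ℂ) * (Uᴴ * b i * U) j l‖ ^ 2 =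
      (Real.exp (x j - x l) - 1) ^ 2 * ‖(Uᴴ * b i * U) j l‖ ^ 2 := by
    rw [norm_mul, mul_pow, Complex.norm_real, Real.norm_eq_abs, sq_abs]
  have h4 : ‖((Real.exp (x j - x l) : ℝ) : ℂ) * (Uᴴ * (v - b) i * U) j l‖ ^ 2 =
      Real.exp (x j - x l) ^ 2 * ‖(Uᴴ * (v - b) i * U) j l‖ ^ 2 := by
    rw [norm_mul, mul_pow, Complex.norm_real, Real.norm_eq_abs, sq_abs]
  rw [← h3, ← h4]
  set A := ‖((Real.exp (x j - x l) - 1 : ℝ) : ℂ) * (Uᴴ * b i * U) j l‖
  set B := ‖((Real.exp (x j - x l) : ℝ) : ℂ) * (Uᴴ * (v - b) i * U) j l‖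
  have h5 := norm_nonneg (((Real.exp (x j - x l) - 1 : ℝ) : ℂ) * (Uᴴ * b i * U) j l +
    ((Real.exp (x j - x l) : ℝ) : ℂ) * (Uᴴ * (v - b) i * U) j l)
  nlinarith [sq_nonneg (A - B)]

lemma w_eq_of_zero {U : M n} {b : ι → M n} {j l : Fin n} (h : w U b j l = 0) (v : ι → M n) :
    w U (v - b) j l = w U v j l := by
  have h1 : ∀ i, (Uᴴ * b i * U) j l = 0 := by
    intro i
    have h2 := (Finset.sum_eq_zero_iff_of_nonneg (fun i _ => by positivity)).1 h i (Finset.mem_univ i)
    have h3 : ‖(Uᴴ * b i * U) j l‖ = 0 := by simpa using h2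
    exact norm_eq_zero.1 h3
  unfold w
  refine Finset.sum_congr rfl fun i _ => ?_
  rw [Pi.sub_apply, Matrix.mul_sub, Matrix.sub_mul, Matrix.sub_apply, h1, sub_zero]

/-- the convergence lemma for a fixed basis -/
lemma star_diag {U : M n} (hU : Uni U) {b : ι → M n} (hb : G.KN b) {F : Filter β}
    {v : β → ι → M n} (hv : Tendsto v F (𝓝 b)) {x : β → Fin n → ℝ}
    (hx : ∀ i, U * dg (x i) * Uᴴ ∈ G.p)
    (hlim : ∀ ε : ℝ, 0 < ε → ∀ᶠ i in F, N (act (exp (U * dg (x i) * Uᴴ)) (v i)) ≤ N b + ε) :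
    Tendsto (fun i => act (exp (U * dg (x i) * Uᴴ)) (v i)) F (𝓝 b) := by
  classical
  obtain ⟨e, he⟩ : ∃ e : β → Fin n → Fin n → ℝ, ∀ i j l, e i j l = Real.exp (x i j - x i l) :=
    ⟨_, fun _ _ _ => rfl⟩
  have hvb : Tendsto (fun i => v i - b) F (𝓝 0) := by simpa using hv.sub_const b
  have hw : ∀ j l, Tendsto (fun i => w U (v i) j l) F (𝓝 (w U b j l)) := fun j l =>
    ((w_continuous U j l).tendsto b).comp hv
  have hw' : ∀ j l, Tendsto (fun i => w U (v i - b) j l) F (𝓝 0) := by
    intro j l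
    have h1 := ((w_continuous (ι := ι) U j l).tendsto 0).comp hvb
    have h2 : w U (0 : ι → M n) j l = 0 := by simp [w]
    rwa [h2] at h1
  -- boundedness
  have hbd : ∀ j l, w U b j l ≠ 0 → ∃ C : ℝ, ∀ᶠ i in F, e i j l ^ 2 ≤ C := by
    intro j l hne
    have hpos : 0 < w U b j l := lt_of_le_of_ne (w_nonneg U b j l) (Ne.symm hne)
    refine ⟨2 * (N b + 1) / w U b j l, ?_⟩
    filter_upwards [hlim 1 one_pos, (hw j l).eventually (lt_mem_nhds (show w U b j l / 2 < _ by linarith))]
      with i h1 h2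
    have h3 := w_le_N hU (act (exp (U * dg (x i) * Uᴴ)) (v i)) j l
    rw [w_act_exp hU, ← he] at h3
    rw [le_div_iff₀ hpos]
    nlinarith [sq_nonneg (e i j l)]
  -- the error term
  have hT : Tendsto (fun i => ∑ j, ∑ l, if w U b j l = 0 then (0 : ℝ) else
      e i j l ^ 2 * |w U (v i) j l - w U b j l|) F (𝓝 0) := by
    refine tendsto_double fun j l => ?_
    by_cases hz : w U b j l = 0
    · refine (tendsto_const_nhds (x := (0 : ℝ))).congr fun i => ?_
      rw [if_pos hz]
    · simp only [if_neg hz]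
      obtain ⟨C, hC⟩ := hbd j l hz
      have h1 : Tendsto (fun i => C * |w U (v i) j l - w U b j l|) F (𝓝 0) := by
        have h2 : Tendsto (fun i => |w U (v i) j l - w U b j l|) F (𝓝 0) := by
          have h3 := ((hw j l).sub_const (w U b j l)).abs
          simpa using h3
        simpa using h2.const_mul C
      refine squeeze_zero' (Eventually.of_forall fun i => by positivity) ?_ h1
      filter_upwards [hC] with i hi
      exact mul_le_mul_of_nonneg_right hi (abs_nonneg _)
  -- the main inequality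
  have hmain : ∀ i, (∑ j, ∑ l, ((e i j l - 1) ^ 2 * w U b j l +
      if w U b j l = 0 then e i j l ^ 2 * w U (v i) j l else 0)) ≤
      (N (act (exp (U * dg (x i) * Uᴴ)) (v i)) - N b) + ∑ j, ∑ l, if w U b j l = 0 then (0 : ℝ) else
      e i j l ^ 2 * |w U (v i) j l - w U b j l| := by
    intro i
    have hD := Grp.crit hb hU (hx i)
    rw [D] at hD
    have h1 : N b = ∑ j, ∑ l, (w U b j l + 2 * ((x i j - x i l) * w U b j l)) := by
      have h2 : ∑ j, ∑ l, (w U b j l + 2 * ((x i j - x i l) * w U b j l)) =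
          (∑ j, ∑ l, w U b j l) + 2 * ∑ j, ∑ l, (x i j - x i l) * w U b j l := by
        simp only [Finset.sum_add_distrib, Finset.mul_sum]
      rw [h2, hD, N_eq_w hU]
      ring
    rw [h1, N_eq_w hU (act _ _), ← Finset.sum_sub_distrib, ← Finset.sum_add_distrib]
    refine Finset.sum_le_sum fun j _ => ?_
    rw [← Finset.sum_sub_distrib, ← Finset.sum_add_distrib]
    refine Finset.sum_le_sum fun l _ => ?_
    rw [w_act_exp hU, ← he]
    have h3 := w_nonneg U b j l
    have h4 := w_nonneg U (v i) j l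
    have h5 : x i j - x i l + 1 ≤ e i j l := by rw [he]; exact Real.add_one_le_exp _
    by_cases hz : w U b j l = 0
    · simp only [hz, if_true]
      nlinarith
    · simp only [hz, if_false]
      have h6 := neg_abs_le (w U (v i) j l - w U b j l)
      nlinarith [mul_le_mul_of_nonneg_left h6 (sq_nonneg (e i j l)), mul_le_mul_of_nonneg_right h5 h3]
  have hS0 : ∀ i j l, 0 ≤ (e i j l - 1) ^ 2 * w U b j l +
      if w U b j l = 0 then e i j l ^ 2 * w U (v i) j l else 0 := by
    intro i j l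
    have h3 := w_nonneg U b j l
    have h4 := w_nonneg U (v i) j l
    split_ifs <;> positivity
  have hS : Tendsto (fun i => ∑ j, ∑ l, ((e i j l - 1) ^ 2 * w U b j l +
      if w U b j l = 0 then e i j l ^ 2 * w U (v i) j l else 0)) F (𝓝 0) := by
    rw [tendsto_order]
    refine ⟨fun a ha => Eventually.of_forall fun i => lt_of_lt_of_le ha
      (Finset.sum_nonneg fun j _ => Finset.sum_nonneg fun l _ => hS0 i j l), fun a ha => ?_⟩
    filter_upwards [hlim (a / 2) (by linarith), hT.eventually (gt_mem_nhds (show 0 < a / 2 by linarith))]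
      with i h1 h2
    have h3 := hmain i
    linarith
  have hs : ∀ j l, Tendsto (fun i => (e i j l - 1) ^ 2 * w U b j l +
      if w U b j l = 0 then e i j l ^ 2 * w U (v i) j l else 0) F (𝓝 0) := by
    intro j l
    refine squeeze_zero (fun i => hS0 i j l) (fun i => ?_) hS
    calc _ ≤ ∑ l', ((e i j l' - 1) ^ 2 * w U b j l' +
          if w U b j l' = 0 then e i j l' ^ 2 * w U (v i) j l' else 0) :=
          Finset.single_le_sum (f := fun l' => ((e i j l' - 1) ^ 2 * w U b j l' +
            if w U b j l' = 0 then e i j l' ^ 2 * w U (v i) j l' else 0))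
            (fun l' _ => hS0 i j l') (Finset.mem_univ l)
      _ ≤ _ := Finset.single_le_sum (f := fun j' => ∑ l', ((e i j' l' - 1) ^ 2 * w U b j' l' +
            if w U b j' l' = 0 then e i j' l' ^ 2 * w U (v i) j' l' else 0))
            (fun j' _ => Finset.sum_nonneg fun l' _ => hS0 i j' l') (Finset.mem_univ j)
  rw [tendsto_iff_N]
  simp only [N_eq_w hU]
  refine tendsto_double fun j l => ?_
  have hle : ∀ i, w U (act (exp (U * dg (x i) * Uᴴ)) (v i) - b) j l ≤
      2 * ((e i j l - 1) ^ 2 * w U b j l) + 2 * (e i j l ^ 2 * w U (v i - b) j l) := by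
    intro i
    rw [he]
    exact w_sub_le hU (x i) (v i) b j l
  by_cases hz : w U b j l = 0
  · have h1 := hs j l
    simp only [hz, if_true, mul_zero, zero_add] at h1
    refine squeeze_zero (fun i => w_nonneg _ _ _ _) (fun i => ?_) (by simpa using h1.const_mul 2)
    have h2 := hle i
    rw [hz, w_eq_of_zero hz (v i)] at h2
    linarith
  · have h1 := hs j l
    simp only [hz, if_false, add_zero] at h1
    obtain ⟨C, hC⟩ := hbd j l hz
    have h2 : Tendsto (fun i => 2 * ((e i j l - 1) ^ 2 * w U b j l) +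
        2 * (C * w U (v i - b) j l)) F (𝓝 0) := by
      have h3 := (h1.const_mul 2).add (((hw' j l).const_mul C).const_mul 2)
      simpa using h3
    refine squeeze_zero' (Eventually.of_forall fun i => w_nonneg _ _ _ _) ?_ h2
    filter_upwards [hC] with i hi
    have h3 := hle i
    have h4 := w_nonneg U (v i - b) j l
    nlinarith [mul_le_mul_of_nonneg_right hi h4]

/-- the convergence lemma -/
lemma star {b : ι → M n} (hb : G.KN b) {F : Filter β}
    {v : β → ι → M n} (hv : Tendsto v F (𝓝 b)) {X : β → M n} (hX : ∀ i, X i ∈ G.p)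
    (hlim : ∀ ε : ℝ, 0 < ε → ∀ᶠ i in F, N (act (exp (X i)) (v i)) ≤ N b + ε) :
    Tendsto (fun i => act (exp (X i)) (v i)) F (𝓝 b) := by
  obtain ⟨U, hU, hdiag⟩ := exists_basis G
  choose k hk x hx using fun i => hdiag (X i) (hX i)
  rw [tendsto_iff_ultrafilter]
  intro g hg
  obtain ⟨k', hk', hk''⟩ := (Grp.K_compact (G := G)).ultrafilter_le_nhds (g.map k)
    (by rw [le_principal_iff]; exact Eventually.of_forall (f := (g : Filter β)) hk)
  have hkt : Tendsto k g (𝓝 k') := hk''
  have hact : ∀ {c : β → ι → M n} {d : ι → M n}, Tendsto c g (𝓝 d) →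
      Tendsto (fun i => act (k i) (c i)) g (𝓝 (act k' d)) := by
    intro c d hc
    have h1 := (act_continuous_uni (n := n) (ι := ι)).tendsto (k', d)
    have h2 := h1.comp (hkt.prodMk_nhds hc)
    rw [act_uni hk'.2]
    refine h2.congr fun i => ?_
    rw [act_uni (hk i).2]
    rfl
  have hb' : G.KN (act k' b) := Grp.KN_act hb hk'
  have e1 : ∀ i, act (exp (U * dg (x i) * Uᴴ)) (act (k i) (v i)) =
      act (k i) (act (exp (X i)) (v i)) := by
    intro i
    rw [← hx i, Grp.exp_conj_K (hk i), ← act_mul, ← act_mul]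
    congr 1
    rw [Matrix.mul_assoc, (hk i).2.left, Matrix.mul_one]
  have h1 : Tendsto (fun i => act (exp (U * dg (x i) * Uᴴ)) (act (k i) (v i))) g (𝓝 (act k' b)) := by
    apply star_diag hU hb' (hact (hv.mono_left hg))
    · intro i
      rw [← hx i]
      exact Grp.p_conj (hX i) (hk i)
    · intro ε hε
      rw [N_act_uni hk'.2]
      filter_upwards [hg (hlim ε hε)] with i hi
      rw [e1, N_act_uni (hk i).2]
      exact hi
  have h2 : Tendsto (fun i => act (k i) b) g (𝓝 (act k' b)) := hact tendsto_const_nhds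
  rw [tendsto_iff_N]
  have h3 : Tendsto (fun i => act (exp (U * dg (x i) * Uᴴ)) (act (k i) (v i)) - act (k i) b) g
      (𝓝 0) := by
    have := h1.sub h2
    simpa using this
  have h4 : Tendsto (fun i => N (act (exp (U * dg (x i) * Uᴴ)) (act (k i) (v i)) - act (k i) b)) g
      (𝓝 0) := by
    have h5 := ((N_continuous (ι := ι) (n := n)).tendsto 0).comp h3
    have h6 : N (0 : ι → M n) = 0 := by simp [N]
    rwa [h6] at h5
  refine h4.congr fun i => ?_
  rw [e1, N_sub_act_uni (hk i).2]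

end Pool.Agent.Helper92.FL
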