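import Pool.Agent.Helper92.FL.Defs
import Pool.Agent.Helper92.FL.Hom
import Pool.Agent.Helper92.FL.Closed

/-!
The topological part of the proof.
-/

open Matrix NormedSpace Filter Topology
open scoped ComplexConjugate ComplexOrder

set_option linter.unusedSectionVars false

namespace Pool.Agent.Helper92.FL

/-- the presentation -/
structure Pres {ι : Type} (m : ι → ℕ) (Γ : Type) [Group Γ] where
  gen : ι → Γ
  rel : ∀ i j, gen i ^ m i = gen j ^ m j
  closure : Subgroup.closure (Set.range gen) = ⊤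
  lift : ∀ {G : Type} [Group G] (a : ι → G), (∀ i j, a i ^ m i = a j ^ m j) →
    ∃ φ : Γ →* G, ∀ i, φ (gen i) = a i

/-- a matrix group isomorphic to `G` -/
structure Emb {n : ℕ} (Gr : Grp n) (G : Type) [Group G] [TopologicalSpace G] where
  e : G →* M n
  emb : IsEmbedding e
  range : Set.range e = Gr.S

section Eval

variable {q : ℕ} {Γ : Type} [Group Γ] {G : Type} [Group G] [TopologicalSpace G]

lemma tendsto_all [IsTopologicalGroup G] {β : Type*} {F : Filter β} {κ : Type} {s : κ → Γ}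
    (hs : Subgroup.closure (Set.range s) = ⊤) {f : β → Γ →* G} {φ : Γ →* G}
    (h : ∀ i, Tendsto (fun x => f x (s i)) F (𝓝 (φ (s i)))) (γ : Γ) :
    Tendsto (fun x => f x γ) F (𝓝 (φ γ)) := by
  have hγ : γ ∈ Subgroup.closure (Set.range s) := by rw [hs]; trivial
  induction hγ using Subgroup.closure_induction with
  | mem x hx => obtain ⟨i, rfl⟩ := hx; exact h i
  | one => simpa using tendsto_const_nhds
  | mul x y _ _ hx hy => simpa using hx.mul hy
  | inv x _ hx => simpa using hx.inv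

lemma rep_tendsto_iff {β : Type*} {F : Filter β} {s : Fin q → Γ} {f : β → Rep s G} {φ : Rep s G} :
    Tendsto f F (𝓝 φ) ↔ ∀ i : Fin q, Tendsto (fun x => (f x).hom (s i)) F (𝓝 (φ.hom (s i))) := by
  rw [nhds_induced, tendsto_comap_iff, tendsto_pi_nhds]
  rfl

lemma rep_tendsto_all [IsTopologicalGroup G] {β : Type*} {F : Filter β} {s : Fin q → Γ}
    (hs : Subgroup.closure (Set.range s) = ⊤) {f : β → Rep s G} {φ : Rep s G} :
    Tendsto f F (𝓝 φ) ↔ ∀ γ, Tendsto (fun x => (f x).hom γ) F (𝓝 (φ.hom γ)) :=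
  ⟨fun h => tendsto_all hs (rep_tendsto_iff.1 h), fun h => rep_tendsto_iff.2 fun _ => h _⟩

/-- convergence can be tested on any generating family -/
lemma rep_tendsto_gen [IsTopologicalGroup G] {β : Type*} {F : Filter β} {s : Fin q → Γ}
    (hs : Subgroup.closure (Set.range s) = ⊤) {κ : Type} {s' : κ → Γ}
    (hs' : Subgroup.closure (Set.range s') = ⊤) {f : β → Rep s G} {φ : Rep s G} :
    Tendsto f F (𝓝 φ) ↔ ∀ i, Tendsto (fun x => (f x).hom (s' i)) F (𝓝 (φ.hom (s' i))) :=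
  ⟨fun h _ => (rep_tendsto_all hs).1 h _, fun h => (rep_tendsto_all hs).2 (tendsto_all hs' h)⟩

end Eval

section Main

variable {q : ℕ} {Γ : Type} [Group Γ] {n : ℕ} {ι : Type} [Fintype ι] {m : ι → ℕ} {Gr : Grp n}
  {G : Type} [Group G] [TopologicalSpace G] [IsTopologicalGroup G]
  (P : Pres m Γ) (E : Emb Gr G) (s : Fin q → Γ)

lemma Emb.mem (g : G) : E.e g ∈ Gr.S := by rw [← E.range]; exact ⟨g, rfl⟩

lemma Emb.exists_eq {A : M n} (h : A ∈ Gr.S) : ∃ g, E.e g = A := by rwa [← E.range] at h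

lemma Emb.inj : Function.Injective E.e := E.emb.injective

lemma Emb.inv (g : G) : E.e g⁻¹ = (E.e g)⁻¹ := by
  symm
  apply inv_eq_right_inv
  rw [← map_mul, mul_inv_cancel, map_one]

/-- the tuple of a homomorphism -/
def T (φ : Rep s G) : ι → M n := fun i => E.e (φ.hom (P.gen i))

lemma T_mem (φ : Rep s G) (i : ι) : T P E s φ i ∈ Gr.S := E.mem _

lemma T_rel (φ : Rep s G) : Rel m (T P E s φ) := by
  intro i j
  unfold T
  rw [← map_pow, ← map_pow, ← map_pow, ← map_pow, P.rel i j]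

lemma T_inj : Function.Injective (T P E s : Rep s G → ι → M n) := by
  intro φ ψ h
  apply Rep.ext
  apply MonoidHom.eq_of_eqOn_dense P.closure
  rintro _ ⟨i, rfl⟩
  exact E.inj (congrFun h i)

lemma T_surj {a : ι → M n} (ha : ∀ i, a i ∈ Gr.S) (hr : Rel m a) : ∃ φ : Rep s G, T P E s φ = a := by
  have h1 : ∀ i, ∃ g, E.e g = a i := fun i => E.exists_eq (ha i)
  choose g hg using h1
  obtain ⟨φ, hφ⟩ := P.lift g (fun i j => E.inj (by rw [map_pow, map_pow, hg, hg]; exact hr i j))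
  exact ⟨⟨φ⟩, funext fun i => by
    show E.e (φ (P.gen i)) = a i
    rw [hφ, hg]⟩

variable (hs : Subgroup.closure (Set.range s) = ⊤)

include hs in
lemma T_tendsto {β : Type*} {F : Filter β} {f : β → Rep s G} {φ : Rep s G} :
    Tendsto f F (𝓝 φ) ↔ Tendsto (fun x => T P E s (f x)) F (𝓝 (T P E s φ)) := by
  rw [rep_tendsto_gen hs P.closure, tendsto_pi_nhds]
  refine forall_congr' fun i => ?_
  exact E.emb.tendsto_nhds_iff

lemma T_smul (g : G) (φ : Rep s G) : T P E s (g • φ) = act (E.e g) (T P E s φ) := by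
  funext i
  show E.e (g * φ.hom (P.gen i) * g⁻¹) = E.e g * E.e (φ.hom (P.gen i)) * (E.e g)⁻¹
  rw [map_mul, map_mul, E.inv]

lemma T_mem_orb {φ ψ : Rep s G} :
    ψ ∈ MulAction.orbit G φ ↔ T P E s ψ ∈ orb Gr (T P E s φ) := by
  constructor
  · rintro ⟨g, rfl⟩
    exact ⟨E.e g, E.mem g, T_smul P E s g φ⟩
  · rintro ⟨h, hh, hψ⟩
    rw [← E.range] at hh
    obtain ⟨g, rfl⟩ := hh
    rw [← T_smul] at hψ
    exact ⟨g, (T_inj P E s hψ).symm⟩

lemma rel_closed : IsClosed {a : ι → M n | Rel m a} := by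
  have : {a : ι → M n | Rel m a} = ⋂ i, ⋂ j, {a | a i ^ m i = a j ^ m j} := by
    ext a; simp [Rel]
  rw [this]
  exact isClosed_iInter fun i => isClosed_iInter fun j =>
    isClosed_eq ((continuous_apply i).pow _) ((continuous_apply j).pow _)

lemma act_pow {g : M n} (hg : IsUnit g.det) (A : M n) (l : ℕ) :
    (g * A * g⁻¹) ^ l = g * A ^ l * g⁻¹ := by
  induction l with
  | zero => rw [pow_zero, pow_zero, Matrix.mul_one, Matrix.mul_nonsing_inv _ hg]
  | succ l ih =>
    rw [pow_succ, pow_succ, ih]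
    calc g * A ^ l * g⁻¹ * (g * A * g⁻¹) = g * A ^ l * (g⁻¹ * g) * A * g⁻¹ := by
          simp only [Matrix.mul_assoc]
      _ = _ := by rw [Matrix.nonsing_inv_mul _ hg, Matrix.mul_one]; simp only [Matrix.mul_assoc]

lemma rel_act {g : M n} (hg : g ∈ Gr.S) {a : ι → M n} (ha : Rel m a) : Rel m (act g a) := by
  intro i j
  show (g * a i * g⁻¹) ^ m i = (g * a j * g⁻¹) ^ m j
  rw [act_pow (Gr.unit g hg), act_pow (Gr.unit g hg), ha i j]

lemma rel_clo {a b : ι → M n} (ha : Rel m a) (hb : b ∈ closure (orb Gr a)) : Rel m b := by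
  have h1 : orb Gr a ⊆ {a : ι → M n | Rel m a} := by
    rintro _ ⟨g, hg, rfl⟩
    exact rel_act hg ha
  exact closure_minimal h1 rel_closed hb

include hs in
lemma closed_iff (φ : Rep s G) :
    IsClosed (MulAction.orbit G φ) ↔ closure (orb Gr (T P E s φ)) ⊆ orb Gr (T P E s φ) := by
  constructor
  · intro h u hu
    have huS := clo_mem (T_mem P E s φ) hu
    have huR := rel_clo (T_rel P E s φ) hu
    obtain ⟨ψ, hψ⟩ := T_surj P E s huS huR
    obtain ⟨v, hv, hvu⟩ := exists_seq hu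
    have hv' : ∀ j, ∃ χ ∈ MulAction.orbit G φ, T P E s χ = v j := by
      intro j
      obtain ⟨h', hh', hvj⟩ := hv j
      rw [← E.range] at hh'
      obtain ⟨g, rfl⟩ := hh'
      exact ⟨g • φ, ⟨g, rfl⟩, by rw [T_smul, hvj]⟩
    choose χ hχ hχv using hv'
    have h1 : Tendsto χ atTop (𝓝 ψ) := by
      rw [T_tendsto P E s hs, hψ]
      simpa only [hχv] using hvu
    have h2 : ψ ∈ MulAction.orbit G φ := h.mem_of_tendsto h1 (Eventually.of_forall hχ)
    rw [← hψ]
    exact (T_mem_orb P E s).1 h2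
  · intro h
    have hc : IsClosed (orb Gr (T P E s φ)) := by
      rw [← closure_eq_iff_isClosed]
      exact Set.Subset.antisymm h subset_closure
    have hT : Continuous (T P E s : Rep s G → ι → M n) := by
      rw [continuous_iff_continuousAt]
      intro ψ
      exact (T_tendsto P E s hs (f := id)).1 tendsto_id
    have h1 : MulAction.orbit G φ = T P E s ⁻¹' (orb Gr (T P E s φ)) := by
      ext ψ
      exact T_mem_orb P E s
    rw [h1]
    exact hc.preimage hT

/-- all tuples -/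
abbrev V (m : ι → ℕ) (Gr : Grp n) : Type := {a : ι → M n // (∀ i, a i ∈ Gr.S) ∧ Rel m a}

/-- minimal tuples -/
abbrev KV (m : ι → ℕ) (Gr : Grp n) : Type := {a : ι → M n // Gr.KN a ∧ Rel m a}

include hs in
lemma exists_mkP (a : KV m Gr) : ∃ φ : Polystable s G, T P E s φ.1 = a.1 := by
  obtain ⟨φ, hφ⟩ := T_surj P E s a.2.1.1 a.2.2
  exact ⟨⟨φ, (closed_iff P E s hs φ).2 (by rw [hφ]; exact closed_orbit a.2.1)⟩, hφ⟩

noncomputable def mkP (a : KV m Gr) : Polystable s G := (exists_mkP P E s hs a).choose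

lemma mkP_spec (a : KV m Gr) : T P E s (mkP P E s hs a).1 = a.1 :=
  (exists_mkP P E s hs a).choose_spec

lemma mkP_continuous : Continuous (mkP P E s hs) := by
  rw [continuous_iff_continuousAt]
  intro a
  show Tendsto _ _ _
  rw [tendsto_subtype_rng, T_tendsto P E s hs]
  simp only [mkP_spec]
  exact continuous_subtype_val.tendsto a

noncomputable def mkX (a : KV m Gr) : XG s G := Quotient.mk _ (mkP P E s hs a)

lemma mkX_continuous : Continuous (mkX P E s hs) :=
  continuous_quot_mk.comp (mkP_continuous P E s hs)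

lemma mkX_eq' {a : KV m Gr} {φ : Polystable s G} {g : M n} (hg : g ∈ Gr.S)
    (h : a.1 = act g (T P E s φ.1)) : mkX P E s hs a = Quotient.mk _ φ := by
  apply Quotient.sound
  rw [← E.range] at hg
  obtain ⟨g, rfl⟩ := hg
  refine ⟨g, ?_⟩
  apply Subtype.ext
  apply T_inj P E s
  show T P E s (g • φ.1) = T P E s (mkP P E s hs a).1
  rw [T_smul, mkP_spec, h]

lemma mkX_eq {a b : KV m Gr} {g : M n} (hg : g ∈ Gr.S) (h : b.1 = act g a.1) :
    mkX P E s hs b = mkX P E s hs a :=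
  mkX_eq' P E s hs (φ := mkP P E s hs a) hg (by rw [mkP_spec]; exact h)

omit [TopologicalSpace G] [IsTopologicalGroup G] [Group G] in
lemma exists_wV (a : V m Gr) : ∃ b : KV m Gr, b.1 ∈ closure (orb Gr a.1) := by
  obtain ⟨b, hb, hb'⟩ := exists_min a.2.1
  exact ⟨⟨b, hb, rel_clo a.2.2 hb'⟩, hb'⟩

noncomputable def wV (a : V m Gr) : KV m Gr := (exists_wV a).choose

lemma wV_spec (a : V m Gr) : (wV a).1 ∈ closure (orb Gr a.1) := (exists_wV a).choose_spec

noncomputable def kact (k : M n) (hk : k ∈ Gr.K) (a : KV m Gr) : KV m Gr :=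
  ⟨act k a.1, Grp.KN_act a.2.1 hk, rel_act hk.1 a.2.2⟩

lemma wV_tendsto {β : Type*} {F : Filter β} {v : β → V m Gr} {v₀ : V m Gr}
    (h : Tendsto v F (𝓝 v₀)) :
    ∃ (k : β → M n) (hk : ∀ i, k i ∈ Gr.K),
      Tendsto (fun i => kact (k i) (hk i) (wV (v i))) F (𝓝 (wV v₀)) := by
  obtain ⟨k, hk, ht⟩ := tendsto_min (G := Gr) (v := fun i => (v i).1) (v₀ := v₀.1)
    (fun i => (v i).2.1) ((continuous_subtype_val.tendsto v₀).comp h)
    (w := fun i => (wV (v i)).1) (w₀ := (wV v₀).1) (fun i => (wV (v i)).2.1)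
    (fun i => wV_spec _) (wV v₀).2.1 (wV_spec v₀)
  exact ⟨k, hk, by rw [tendsto_subtype_rng]; exact ht⟩

lemma wV_unique {a : V m Gr} {b : KV m Gr} (hb : b.1 ∈ closure (orb Gr a.1)) :
    ∃ (k : M n) (hk : k ∈ Gr.K), wV a = kact k hk b := by
  obtain ⟨k, hk, h⟩ := min_unique a.2.1 b.2.1 (wV a).2.1 hb (wV_spec a)
  exact ⟨k, hk, Subtype.ext h⟩

noncomputable def gam (a : V m Gr) : XG s G := mkX P E s hs (wV a)

lemma gam_continuous : Continuous (gam P E s hs) := by
  rw [continuous_iff_continuousAt]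
  intro a
  obtain ⟨k, hk, ht⟩ := wV_tendsto (tendsto_id (x := 𝓝 a))
  have := ((mkX_continuous P E s hs).tendsto (wV a)).comp ht
  refine this.congr fun i => ?_
  exact mkX_eq P E s hs (hk i).1 rfl

lemma gam_eq {a : V m Gr} {b : KV m Gr} (hb : b.1 ∈ closure (orb Gr a.1)) :
    gam P E s hs a = mkX P E s hs b := by
  obtain ⟨k, hk, h⟩ := wV_unique hb
  unfold gam
  rw [h]
  exact mkX_eq P E s hs hk.1 rfl

lemma gam_act {a b : V m Gr} {g : M n} (hg : g ∈ Gr.S) (h : b.1 = act g a.1) :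
    gam P E s hs b = gam P E s hs a := by
  apply gam_eq P E s hs (b := wV a)
  rw [h, orb_act hg]
  exact wV_spec a

variable (hm' : ∀ i, 0 < m i) (i₀ : ι)

/-- the homotopy on minimal tuples -/
noncomputable def hmV (a : KV m Gr) (t : ℝ) : V m Gr :=
  ⟨hm Gr m i₀ a.1 t, hm_mem hm' a.2.1 a.2.2 t, hm_rel hm' a.2.1 a.2.2 t⟩

lemma hmV_tendsto {β : Type*} {F : Filter β} {a : β → KV m Gr} {a₀ : KV m Gr} {t : β → ℝ}
    {t₀ : ℝ} (ha : Tendsto a F (𝓝 a₀)) (ht : Tendsto t F (𝓝 t₀)) :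
    Tendsto (fun j => hmV hm' i₀ (a j) (t j)) F (𝓝 (hmV hm' i₀ a₀ t₀)) := by
  rw [tendsto_subtype_rng]
  exact hm_tendsto hm' (fun j i => (a j).2.1.1 i) (fun i => a₀.2.1.1 i)
    ((continuous_subtype_val.tendsto a₀).comp ha) ht

lemma hmV_kact {k : M n} (hk : k ∈ Gr.K) (a : KV m Gr) (t : ℝ) :
    (hmV hm' i₀ (kact k hk a) t).1 = act k (hmV hm' i₀ a t).1 :=
  hm_act hm' a.2.1.1 hk t

lemma gam_hmV_kact {k : M n} (hk : k ∈ Gr.K) (a : KV m Gr) (t : ℝ) :
    gam P E s hs (hmV hm' i₀ (kact k hk a) t) = gam P E s hs (hmV hm' i₀ a t) :=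
  gam_act P E s hs hk.1 (hmV_kact hm' i₀ hk a t)

def TV (φ : Rep s G) : V m Gr := ⟨T P E s φ, T_mem P E s φ, T_rel P E s φ⟩

include hs in
lemma TV_continuous : Continuous (TV P E s) := by
  rw [continuous_iff_continuousAt]
  intro φ
  show Tendsto _ _ _
  rw [tendsto_subtype_rng]
  exact (T_tendsto P E s hs (f := id)).1 tendsto_id

noncomputable def Fm (p : Polystable s G × unitInterval) : XG s G :=
  gam P E s hs (hmV hm' i₀ (wV (TV P E s p.1.1)) (p.2 : ℝ))

lemma Fm_continuous : Continuous (Fm P E s hs hm' i₀) := by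
  rw [continuous_iff_continuousAt]
  intro p₀
  have h1 : Tendsto (fun p : Polystable s G × unitInterval => TV P E s p.1.1) (𝓝 p₀)
      (𝓝 (TV P E s p₀.1.1)) :=
    ((TV_continuous P E s hs).comp (continuous_subtype_val.comp continuous_fst)).tendsto p₀
  obtain ⟨k, hk, ht⟩ := wV_tendsto h1
  have h2 : Tendsto (fun p : Polystable s G × unitInterval => ((p.2 : unitInterval) : ℝ)) (𝓝 p₀)
      (𝓝 (p₀.2 : ℝ)) := (continuous_subtype_val.comp continuous_snd).tendsto p₀
  have h3 := ((gam_continuous P E s hs).tendsto _).comp (hmV_tendsto hm' i₀ ht h2)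
  refine h3.congr fun p => ?_
  exact gam_hmV_kact P E s hs hm' i₀ (hk p) _ _

lemma wV_smul (g : G) (φ : Rep s G) : ∃ (k : M n) (hk : k ∈ Gr.K),
    wV (TV P E s (g • φ)) = kact k hk (wV (TV P E s φ)) := by
  apply wV_unique
  have h1 : (TV P E s (g • φ)).1 = act (E.e g) (TV P E s φ).1 := T_smul P E s g φ
  rw [h1, orb_act (E.mem g)]
  exact wV_spec _

lemma Fm_smul (g : G) (φ : Polystable s G) (t : unitInterval) :
    Fm P E s hs hm' i₀ (g • φ, t) = Fm P E s hs hm' i₀ (φ, t) := by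
  obtain ⟨k, hk, h⟩ := wV_smul P E s g φ.1
  show gam P E s hs (hmV hm' i₀ (wV (TV P E s (g • φ.1))) (t : ℝ)) = _
  rw [h, gam_hmV_kact]
  rfl

noncomputable def HH (p : XG s G × unitInterval) : XG s G :=
  Quotient.lift (fun φ => Fm P E s hs hm' i₀ (φ, p.2)) (by
    rintro φ φ' ⟨g, rfl⟩
    exact Fm_smul P E s hs hm' i₀ g φ' p.2) p.1

instance : ContinuousConstSMul G (Polystable s G) where
  continuous_const_smul g := by
    rw [continuous_iff_continuousAt]
    intro φ
    show Tendsto _ _ _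
    rw [tendsto_subtype_rng, rep_tendsto_iff]
    intro i
    have h1 : Tendsto (fun ψ : Polystable s G => ψ.1.hom (s i)) (𝓝 φ) (𝓝 (φ.1.hom (s i))) :=
      rep_tendsto_iff.1 (continuous_subtype_val.tendsto φ) i
    exact (tendsto_const_nhds.mul h1).mul tendsto_const_nhds

lemma HH_continuous : Continuous (HH P E s hs hm' i₀) := by
  have h1 : IsOpenQuotientMap (Prod.map (Quotient.mk (MulAction.orbitRel G (Polystable s G)))
      (id : unitInterval → unitInterval)) :=
    MulAction.isOpenQuotientMap_quotientMk.prodMap IsOpenQuotientMap.id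
  rw [h1.isQuotientMap.continuous_iff]
  exact Fm_continuous P E s hs hm' i₀

/-! ### the compact group -/

variable (K : Subgroup G) (hK : ∀ g, g ∈ K ↔ Uni (E.e g))

lemma incl_inj : Function.Injective (incl s K) := by
  intro φ ψ h
  apply Rep.ext
  ext x
  exact congrArg (fun χ : Rep s G => χ.hom x) h

lemma incl_smul (k : K) (ψ : Rep s K) : incl s K (k • ψ) = (k : G) • incl s K ψ :=
  Rep.ext (MonoidHom.ext fun x => rfl)

lemma incl_tendsto {β : Type*} {F : Filter β} {f : β → Rep s K} {ψ : Rep s K} :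
    Tendsto f F (𝓝 ψ) ↔ Tendsto (fun x => incl s K (f x)) F (𝓝 (incl s K ψ)) := by
  rw [rep_tendsto_iff, rep_tendsto_iff]
  refine forall_congr' fun i => ?_
  rw [tendsto_subtype_rng]
  rfl

/-- unitary tuples -/
abbrev VU (m : ι → ℕ) (Gr : Grp n) : Type := {a : V m Gr // ∀ i, Uni (a.1 i)}

include hK in
lemma exists_mkU (a : VU m Gr) : ∃ ψ : Rep s K, T P E s (incl s K ψ) = a.1.1 := by
  have h1 : ∀ i, ∃ g : K, E.e g = a.1.1 i := fun i => by
    obtain ⟨g, hg⟩ := E.exists_eq (a.1.2.1 i)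
    exact ⟨⟨g, (hK g).2 (by rw [hg]; exact a.2 i)⟩, hg⟩
  choose g hg using h1
  obtain ⟨φ, hφ⟩ := P.lift g (fun i j => Subtype.ext (E.inj (by
    show E.e ((g i : G) ^ m i) = E.e ((g j : G) ^ m j)
    rw [map_pow, map_pow, hg, hg]
    exact a.1.2.2 i j)))
  exact ⟨⟨φ⟩, funext fun i => by
    show E.e (φ (P.gen i)) = a.1.1 i
    rw [hφ, hg]⟩

noncomputable def mkU (a : VU m Gr) : Rep s K := (exists_mkU P E s K hK a).choose

lemma mkU_spec (a : VU m Gr) : T P E s (incl s K (mkU P E s K hK a)) = a.1.1 :=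
  (exists_mkU P E s K hK a).choose_spec

include hs in
lemma mkU_continuous : Continuous (mkU P E s K hK) := by
  rw [continuous_iff_continuousAt]
  intro a
  show Tendsto _ _ _
  rw [incl_tendsto, T_tendsto P E s hs]
  simp only [mkU_spec]
  exact (continuous_subtype_val.comp continuous_subtype_val).tendsto a

noncomputable def mkXU (a : VU m Gr) : XK s K := Quotient.mk _ (mkU P E s K hK a)

lemma mkXU_eq' {a : VU m Gr} {ψ : Rep s K} {k : M n} (hk : k ∈ Gr.K)
    (h : a.1.1 = act k (T P E s (incl s K ψ))) : mkXU P E s K hK a = Quotient.mk _ ψ := by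
  apply Quotient.sound
  have hk1 := hk.1
  rw [← E.range] at hk1
  obtain ⟨g, rfl⟩ := hk1
  refine ⟨⟨g, (hK g).2 hk.2⟩, ?_⟩
  apply incl_inj s K
  apply T_inj P E s
  show T P E s (incl s K ((⟨g, (hK g).2 hk.2⟩ : K) • ψ)) = _
  rw [incl_smul, T_smul, mkU_spec, h]

lemma mkXU_eq {a b : VU m Gr} {k : M n} (hk : k ∈ Gr.K) (h : b.1.1 = act k a.1.1) :
    mkXU P E s K hK b = mkXU P E s K hK a :=
  mkXU_eq' P E s K hK (ψ := mkU P E s K hK a) hk (by rw [mkU_spec]; exact h)

noncomputable def hmU (a : KV m Gr) : VU m Gr := ⟨hmV hm' i₀ a 1, hm_one hm' a.2.1 a.2.2⟩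

noncomputable def rho₀ (φ : Polystable s G) : XK s K :=
  mkXU P E s K hK (hmU hm' i₀ (wV (TV P E s φ.1)))

include hs in
lemma rho₀_continuous : Continuous (rho₀ P E s hm' i₀ K hK) := by
  rw [continuous_iff_continuousAt]
  intro φ₀
  have h1 : Tendsto (fun φ : Polystable s G => TV P E s φ.1) (𝓝 φ₀) (𝓝 (TV P E s φ₀.1)) :=
    ((TV_continuous P E s hs).comp continuous_subtype_val).tendsto φ₀
  obtain ⟨k, hk, ht⟩ := wV_tendsto h1
  have h2 : Tendsto (fun φ : Polystable s G => hmU hm' i₀ (kact (k φ) (hk φ) (wV (TV P E s φ.1))))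
      (𝓝 φ₀) (𝓝 (hmU hm' i₀ (wV (TV P E s φ₀.1)))) := by
    rw [tendsto_subtype_rng]
    exact hmV_tendsto hm' i₀ ht tendsto_const_nhds
  have h3 : Continuous (mkXU P E s K hK) := continuous_quot_mk.comp (mkU_continuous P E s hs K hK)
  refine ((h3.tendsto _).comp h2).congr fun φ => ?_
  exact mkXU_eq P E s K hK (hk φ) (hmV_kact hm' i₀ (hk φ) _ _)

lemma rho₀_smul (g : G) (φ : Polystable s G) :
    rho₀ P E s hm' i₀ K hK (g • φ) = rho₀ P E s hm' i₀ K hK φ := by
  obtain ⟨k, hk, h⟩ := wV_smul P E s g φ.1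
  show mkXU P E s K hK (hmU hm' i₀ (wV (TV P E s (g • φ.1)))) = _
  rw [h]
  exact mkXU_eq P E s K hK hk (hmV_kact hm' i₀ hk _ _)

noncomputable def rho (x : XG s G) : XK s K :=
  Quotient.lift (rho₀ P E s hm' i₀ K hK) (by
    rintro φ φ' ⟨g, rfl⟩
    exact rho₀_smul P E s hm' i₀ K hK g φ') x

include hs in
lemma rho_continuous : Continuous (rho P E s hm' i₀ K hK) :=
  (rho₀_continuous P E s hs hm' i₀ K hK).quotient_lift _

include hK in
lemma uni_T (ψ : Rep s K) (i : ι) : Uni (T P E s (incl s K ψ) i) :=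
  (hK _).1 (ψ.hom (P.gen i)).2

/-- the minimal tuple of a homomorphism to `K` -/
def KU (ψ : Rep s K) : KV m Gr :=
  ⟨T P E s (incl s K ψ), KN_uni (T_mem P E s _) (uni_T P E s K hK ψ), T_rel P E s _⟩

include hK in
lemma wV_KU (ψ : Rep s K) : ∃ (k : M n) (hk : k ∈ Gr.K),
    wV (TV P E s (incl s K ψ)) = kact k hk (KU P E s K hK ψ) :=
  wV_unique (subset_closure (mem_orb _))

lemma hmV_KU (ψ : Rep s K) (t : ℝ) :
    (hmV hm' i₀ (KU P E s K hK ψ) t).1 = T P E s (incl s K ψ) :=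
  hm_uni hm' (uni_T P E s K hK ψ) t

include P E hs hK in
lemma closed_K (ψ : Rep s K) : IsClosed (MulAction.orbit G (incl s K ψ)) :=
  (closed_iff P E s hs _).2 (closed_orbit (KU P E s K hK ψ).2.1)

lemma iG_continuous (h : ∀ ψ : Rep s K, IsClosed (MulAction.orbit G (incl s K ψ))) :
    Continuous (iG s K h) := by
  have h1 : Continuous fun ψ : Rep s K => (⟨incl s K ψ, h ψ⟩ : Polystable s G) := by
    apply Continuous.subtype_mk
    rw [continuous_iff_continuousAt]
    intro ψ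
    exact (incl_tendsto s K (f := id)).1 tendsto_id
  exact (continuous_quot_mk.comp h1).quotient_lift _

lemma mkX_KU (h : ∀ ψ : Rep s K, IsClosed (MulAction.orbit G (incl s K ψ))) (ψ : Rep s K) :
    mkX P E s hs (KU P E s K hK ψ) = Quotient.mk _ (⟨incl s K ψ, h ψ⟩ : Polystable s G) :=
  mkX_eq' P E s hs Gr.one (act_one _).symm

include P E hs hm' i₀ hK in
/-- the strong deformation retraction -/
theorem main_sdr : ∃ h : ∀ ψ : Rep s K, IsClosed (MulAction.orbit G (incl s K ψ)),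
    IsSDR (iG s K h) := by
  refine ⟨closed_K P E s hs K hK, ?_⟩
  set h := closed_K P E s hs K hK with hh
  have hρi : ∀ y, rho P E s hm' i₀ K hK (iG s K h y) = y := by
    intro y
    induction y using Quotient.inductionOn with
    | _ ψ =>
    show mkXU P E s K hK (hmU hm' i₀ (wV (TV P E s (incl s K ψ)))) = _
    obtain ⟨k, hk, hw⟩ := wV_KU P E s K hK ψ
    apply mkXU_eq' P E s K hK hk
    show (hmV hm' i₀ (wV (TV P E s (incl s K ψ))) 1).1 = _
    rw [hw, hmV_kact, hmV_KU]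
  have hρc := rho_continuous P E s hs hm' i₀ K hK
  refine ⟨Function.LeftInverse.isEmbedding hρi hρc (iG_continuous s K h),
    rho P E s hm' i₀ K hK, hρc, hρi, HH P E s hs hm' i₀, HH_continuous P E s hs hm' i₀, ?_, ?_, ?_⟩
  · intro x
    induction x using Quotient.inductionOn with
    | _ φ =>
    show gam P E s hs (hmV hm' i₀ (wV (TV P E s φ.1)) ((0 : unitInterval) : ℝ)) = _
    have h1 : (hmV hm' i₀ (wV (TV P E s φ.1)) ((0 : unitInterval) : ℝ)).1 = (wV (TV P E s φ.1)).1 := by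
      show hm Gr m i₀ _ (((0 : unitInterval)) : ℝ) = _
      rw [Set.Icc.coe_zero]
      exact hm_zero _
    rw [gam_eq P E s hs (b := wV (TV P E s φ.1)) (by rw [h1]; exact subset_closure (mem_orb _))]
    obtain ⟨g, hg, hw⟩ := (closed_iff P E s hs φ.1).1 φ.2 (wV_spec (TV P E s φ.1))
    exact mkX_eq' P E s hs hg hw
  · intro x
    induction x using Quotient.inductionOn with
    | _ φ =>
    show gam P E s hs (hmV hm' i₀ (wV (TV P E s φ.1)) ((1 : unitInterval) : ℝ)) =
      iG s K h (mkXU P E s K hK (hmU hm' i₀ (wV (TV P E s φ.1))))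
    show _ = Quotient.mk _ (⟨incl s K (mkU P E s K hK (hmU hm' i₀ (wV (TV P E s φ.1)))), h _⟩ :
      Polystable s G)
    rw [← mkX_KU P E s hs K hK h]
    apply gam_eq P E s hs
    apply subset_closure
    have h1 : (KU P E s K hK (mkU P E s K hK (hmU hm' i₀ (wV (TV P E s φ.1))))).1 =
        (hmV hm' i₀ (wV (TV P E s φ.1)) ((1 : unitInterval) : ℝ)).1 := by
      show T P E s (incl s K (mkU P E s K hK (hmU hm' i₀ (wV (TV P E s φ.1))))) = _
      rw [mkU_spec]
      rfl
    rw [h1]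
    exact mem_orb _
  · intro y t
    induction y using Quotient.inductionOn with
    | _ ψ =>
    show gam P E s hs (hmV hm' i₀ (wV (TV P E s (incl s K ψ))) (t : ℝ)) =
      Quotient.mk _ (⟨incl s K ψ, h ψ⟩ : Polystable s G)
    obtain ⟨k, hk, hw⟩ := wV_KU P E s K hK ψ
    rw [hw, gam_hmV_kact, ← mkX_KU P E s hs K hK h]
    apply gam_eq P E s hs
    rw [hmV_KU]
    exact subset_closure (mem_orb _)

end Main

end Pool.Agent.Helper92.FL
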